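import Pool.Agent.Q282.CL.Brown
import Pool.Agent.Q282.BP.Loc

/-!
# Local second moments, and the sums of the local means and variances
-/

set_option autoImplicit false

namespace Q282.CL

open Finset Filter
open Q282.BP (PP log_bound log_expand)

open Classical in
/-- the local second moments -/
theorem local_sq (C : ℝ) (hC : 0 ≤ C) : ∃ C' : ℝ, 0 ≤ C' ∧ ∀ p : ℕ, 3 ≤ p → ∀ (U : Type) [Fintype U] [Nonempty U]
    (S : U → ℝ) (bad : U → Prop), (∀ u, |S u| ≤ 2 * Real.sqrt p) →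
    (((univ : Finset U).filter bad).card : ℝ) * p ≤ C * Fintype.card U →
    |∑ u, S u ^ 2 - p * Fintype.card U| ≤ C * Fintype.card U →
    |(∑ u, (if bad u then 0 else Real.log (1 + (1 + S u) / p)) ^ 2) / Fintype.card U - 1 / p| ≤
      C' / (p : ℝ) ^ (3 / 2 : ℝ) := by
  classical
  refine ⟨248 + 5 * C + 64 * 17, by positivity, ?_⟩
  intro p hp U _ _ S bad hS hbad h2
  have hp3 : (3 : ℝ) ≤ p := by exact_mod_cast hp
  have hp0 : (0 : ℝ) < p := by linarith
  obtain ⟨s, hs⟩ : ∃ s : ℝ, s = Real.sqrt p := ⟨_, rfl⟩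
  have hsp : s ^ 2 = p := by rw [hs, Real.sq_sqrt hp0.le]
  have hs0 : 0 < s := by rw [hs]; exact Real.sqrt_pos.2 hp0
  have hs32 : (p : ℝ) ^ (3 / 2 : ℝ) = s ^ 3 := by
    rw [hs, Real.sqrt_eq_rpow, ← Real.rpow_natCast, ← Real.rpow_mul hp0.le]
    norm_num
  have hs1 : 3 / 2 ≤ s := by
    rw [hs]
    refine Real.le_sqrt_of_sq_le ?_
    norm_num
    linarith
  rw [← hs] at hS
  have hq0 : (0 : ℝ) < Fintype.card U := by exact_mod_cast Fintype.card_pos
  obtain ⟨q, hq⟩ : ∃ q : ℝ, q = Fintype.card U := ⟨_, rfl⟩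
  rw [← hq] at hbad h2 hq0 ⊢
  rw [hs32]
  obtain ⟨h, hh⟩ : ∃ h : U → ℝ, h = fun u => if bad u then 0 else Real.log (1 + (1 + S u) / p) := ⟨_, rfl⟩
  have hbd : ∀ u, |h u| ≤ 6 / s := by
    intro u
    rw [hh]
    show |if bad u then 0 else Real.log (1 + (1 + S u) / p)| ≤ 6 / s
    split_ifs
    · rw [abs_zero]
      positivity
    · rw [← hsp]
      exact log_bound hs1 (hS u)
  have e0 : ∑ u, (if bad u then 0 else Real.log (1 + (1 + S u) / p)) ^ 2 = ∑ u, h u ^ 2 := by rw [hh]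
  rw [e0]
  rcases lt_or_ge s 4 with hlt | hge
  · have h3 : |(∑ u, h u ^ 2) / q| ≤ 16 := by
      rw [abs_div, abs_of_pos hq0, div_le_iff₀ hq0]
      have h4 : ∀ u, |h u ^ 2| ≤ 16 := by
        intro u
        have h5 : 6 / s ≤ 4 := by
          rw [div_le_iff₀ hs0]
          linarith
        rw [abs_pow]
        calc |h u| ^ 2 ≤ 4 ^ 2 := pow_le_pow_left₀ (abs_nonneg _) ((hbd u).trans h5) 2
          _ = 16 := by norm_num
      refine (abs_sum_le_sum_abs _ _).trans ((sum_le_sum fun u _ => h4 u).trans (le_of_eq ?_))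
      rw [sum_const, card_univ, nsmul_eq_mul, ← hq, mul_comm]
    have h4 : |1 / (p : ℝ)| ≤ 1 := by
      rw [abs_of_pos (by positivity), div_le_one hp0]
      linarith
    have h6 : 1 ≤ 64 / s ^ 3 := by
      rw [one_le_div (by positivity)]
      calc s ^ 3 ≤ 4 ^ 3 := pow_le_pow_left₀ hs0.le hlt.le 3
        _ = 64 := by norm_num
    have h7 : (248 + 5 * C + 64 * 17) / s ^ 3 = (248 + 5 * C) / s ^ 3 + 64 / s ^ 3 * 17 := by ring
    rw [h7]
    have h8 : 0 ≤ (248 + 5 * C) / s ^ 3 := by positivity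
    refine (abs_sub _ _).trans ?_
    linarith
  · have h3 : ∀ u, |h u ^ 2 - S u ^ 2 / s ^ 4| ≤ 248 / s ^ 3 + if bad u then 4 / s ^ 2 else 0 := by
      intro u
      have h3 := abs_le.1 (hS u)
      have hS4 : |S u / s ^ 2| ≤ 2 / s := by
        rw [abs_div, abs_of_pos (by positivity : 0 < s ^ 2), div_le_div_iff₀ (by positivity) hs0]
        have := hS u
        nlinarith
      by_cases hb : bad u
      · rw [if_pos hb, hh]
        show |(if bad u then 0 else Real.log (1 + (1 + S u) / p)) ^ 2 - S u ^ 2 / s ^ 4| ≤ _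
        rw [if_pos hb]
        have e1 : (0 : ℝ) ^ 2 - S u ^ 2 / s ^ 4 = - (S u / s ^ 2) ^ 2 := by
          rw [div_pow]
          ring
        rw [e1, abs_neg, abs_pow]
        have h4 : |S u / s ^ 2| ^ 2 ≤ (2 / s) ^ 2 := pow_le_pow_left₀ (abs_nonneg _) hS4 2
        have h5 : (2 / s) ^ 2 = 4 / s ^ 2 := by ring
        have h6 : 0 ≤ 248 / s ^ 3 := by positivity
        linarith
      · rw [if_neg hb, add_zero]
        have h4 : |h u - S u / s ^ 2| ≤ 31 / s ^ 2 := by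
          have h5 := log_expand hge (hS u)
          have e1 : h u = Real.log (1 + (1 + S u) / s ^ 2) := by
            rw [hh]
            show (if bad u then 0 else Real.log (1 + (1 + S u) / p)) = _
            rw [if_neg hb, hsp]
          have e2 : h u - S u / s ^ 2 = (Real.log (1 + (1 + S u) / s ^ 2) - ((1 + S u) / s ^ 2 - S u ^ 2 / (2 * s ^ 4))) +
              (1 / s ^ 2 - (S u / s ^ 2) ^ 2 / 2) := by
            rw [e1]
            field_simp
            ring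
          rw [e2]
          refine (abs_add_le _ _).trans ?_
          have h6 : |1 / s ^ 2 - (S u / s ^ 2) ^ 2 / 2| ≤ 3 / s ^ 2 := by
            refine (abs_sub _ _).trans ?_
            have h7 : |1 / s ^ 2| = 1 / s ^ 2 := abs_of_pos (by positivity)
            have h8 : |(S u / s ^ 2) ^ 2 / 2| ≤ 2 / s ^ 2 := by
              rw [abs_div, abs_pow, abs_of_pos (by norm_num : (0 : ℝ) < 2)]
              have h9 : |S u / s ^ 2| ^ 2 ≤ (2 / s) ^ 2 := pow_le_pow_left₀ (abs_nonneg _) hS4 2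
              have h10 : (2 / s) ^ 2 = 4 / s ^ 2 := by ring
              rw [h10] at h9
              have h11 : 2 / s ^ 2 = 4 / s ^ 2 / 2 := by ring
              rw [h11]
              exact div_le_div_of_nonneg_right h9 (by norm_num)
            rw [h7]
            have h12 : 3 / s ^ 2 = 1 / s ^ 2 + 2 / s ^ 2 := by ring
            linarith
          have h7 : 111 / s ^ 3 ≤ 28 / s ^ 2 := by
            rw [div_le_div_iff₀ (by positivity) (by positivity)]
            have : 0 < s ^ 2 := by positivity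
            nlinarith
          have h8 : 31 / s ^ 2 = 28 / s ^ 2 + 3 / s ^ 2 := by ring
          linarith
        have e1 : h u ^ 2 - S u ^ 2 / s ^ 4 = (h u - S u / s ^ 2) * (h u + S u / s ^ 2) := by
          field_simp
          ring
        rw [e1, abs_mul]
        have h5 : |h u + S u / s ^ 2| ≤ 8 / s := by
          refine (abs_add_le _ _).trans ?_
          have : 8 / s = 6 / s + 2 / s := by ring
          rw [this]
          exact add_le_add (hbd u) hS4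
        calc |h u - S u / s ^ 2| * |h u + S u / s ^ 2| ≤ 31 / s ^ 2 * (8 / s) := mul_le_mul h4 h5 (abs_nonneg _) (by positivity)
          _ = 248 / s ^ 3 := by
            field_simp
            norm_num
    have h4 : |(∑ u, h u ^ 2) / q - (∑ u, S u ^ 2) / s ^ 4 / q| ≤ (248 + 4 * C) / s ^ 3 := by
      have e1 : (∑ u, h u ^ 2) / q - (∑ u, S u ^ 2) / s ^ 4 / q = (∑ u, (h u ^ 2 - S u ^ 2 / s ^ 4)) / q := by
        rw [sum_sub_distrib, sub_div, ← sum_div univ (fun u => S u ^ 2) (s ^ 4)]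
      rw [e1, abs_div, abs_of_pos hq0, div_le_iff₀ hq0]
      refine (abs_sum_le_sum_abs _ _).trans ((sum_le_sum fun u _ => h3 u).trans ?_)
      rw [sum_add_distrib, sum_const, card_univ, nsmul_eq_mul, ← hq, ← sum_filter, sum_const, nsmul_eq_mul]
      have h5 : (((univ : Finset U).filter bad).card : ℝ) ≤ C * q / s ^ 2 := by
        rw [le_div_iff₀ (by positivity), hsp]
        exact hbad
      have h6 := mul_le_mul_of_nonneg_right h5 (by positivity : 0 ≤ 4 / s ^ 2)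
      have h7 : C * q / s ^ 2 * (4 / s ^ 2) ≤ 4 * C * q / s ^ 3 := by
        rw [div_mul_div_comm, div_le_div_iff₀ (by positivity) (by positivity)]
        have h8 : s ^ 3 ≤ s ^ 2 * s ^ 2 := by nlinarith [pow_pos hs0 3]
        have h9 : 0 ≤ C * q * 4 := by positivity
        nlinarith [mul_le_mul_of_nonneg_left h8 h9]
      have h10 : (248 + 4 * C) / s ^ 3 * q = q * (248 / s ^ 3) + 4 * C * q / s ^ 3 := by ring
      rw [h10]
      linarith
    have h5 : |(∑ u, S u ^ 2) / s ^ 4 / q - 1 / p| ≤ C / s ^ 3 := by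
      have e1 : (∑ u, S u ^ 2) / s ^ 4 / q - 1 / p = (∑ u, S u ^ 2 - p * q) / (s ^ 4 * q) := by
        rw [← hsp]
        field_simp
      rw [e1, abs_div, abs_of_pos (by positivity : 0 < s ^ 4 * q), div_le_div_iff₀ (by positivity) (by positivity)]
      have h7 : |∑ u, S u ^ 2 - p * q| * s ^ 3 ≤ C * q * s ^ 3 := mul_le_mul_of_nonneg_right h2 (by positivity)
      have h8 : C * (s ^ 4 * q) = C * q * s ^ 3 * s := by ring
      rw [h8]
      have h10 : C * q * s ^ 3 ≤ C * q * s ^ 3 * s := le_mul_of_one_le_right (by positivity) (by linarith)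
      linarith
    have h6 := abs_add_le ((∑ u, h u ^ 2) / q - (∑ u, S u ^ 2) / s ^ 4 / q) ((∑ u, S u ^ 2) / s ^ 4 / q - 1 / p)
    rw [sub_add_sub_cancel] at h6
    have h7 : (248 + 5 * C + 64 * 17) / s ^ 3 = (248 + 4 * C) / s ^ 3 + C / s ^ 3 + 64 * 17 / s ^ 3 := by ring
    have h8 : 0 ≤ 64 * 17 / s ^ 3 := by positivity
    linarith

lemma rpow_sqrt (p : ℕ) : (p : ℝ) ^ (3 / 2 : ℝ) = Real.sqrt p ^ 3 := by
  rw [Real.sqrt_eq_rpow, ← Real.rpow_natCast, ← Real.rpow_mul (Nat.cast_nonneg _)]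
  norm_num

/-- the sums of the local means and variances -/
theorem sums_close (ρ : ℕ → ℝ) (M₁ R₁ κ₀ B₁ : ℝ) (hR₁ : 0 ≤ R₁) (hB₁ : 0 ≤ B₁) (hρ : ∀ p, |ρ p| ≤ R₁)
    (hM : ∀ Y : ℕ, 3 ≤ Y → |∑ p ∈ PP Y, ρ p / p - Real.log (Real.log Y)| ≤ M₁) : ∃ M : ℝ,
    ∀ (κ : Type) [Fintype κ] [DecidableEq κ] (H : (p : ℕ) → (κ → ZMod p) → ℝ),
    (∀ p : ℕ, p.Prime → |mn H p - κ₀ * (ρ p / p)| ≤ B₁ / (p : ℝ) ^ (3 / 2 : ℝ)) →
    (∀ p : ℕ, p.Prime → |mn (fun p u => H p u ^ 2) p - ρ p / p| ≤ B₁ / (p : ℝ) ^ (3 / 2 : ℝ)) →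
    (∀ Y : ℕ, 3 ≤ Y → |∑ p ∈ PP Y, mn H p - κ₀ * Real.log (Real.log Y)| ≤ M) ∧
    (∀ Y : ℕ, 3 ≤ Y → |∑ p ∈ PP Y, vr H p - Real.log (Real.log Y)| ≤ M) := by
  classical
  obtain ⟨C₀, hC₀, hsumm⟩ := summ
  obtain ⟨B₂, hB₂⟩ : ∃ B₂ : ℝ, B₂ = B₁ + (|κ₀| * R₁ + B₁) ^ 2 := ⟨_, rfl⟩
  have hB₂0 : 0 ≤ B₂ := by
    rw [hB₂]
    positivity
  refine ⟨(B₂ * C₀ + |κ₀| * |M₁|) + (B₂ * C₀ + |M₁|), ?_⟩
  intro κ _ _ H hm hs
  have hclose : ∀ (f : ℕ → ℝ) (c : ℝ), (∀ p : ℕ, p.Prime → |f p - c * (ρ p / p)| ≤ B₂ / (p : ℝ) ^ (3 / 2 : ℝ)) →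
      ∀ Y : ℕ, 3 ≤ Y → |∑ p ∈ PP Y, f p - c * Real.log (Real.log Y)| ≤ B₂ * C₀ + |c| * |M₁| := by
    intro f c hf Y hY
    have h1 : |∑ p ∈ PP Y, f p - ∑ p ∈ PP Y, c * (ρ p / p)| ≤ B₂ * C₀ := by
      rw [← sum_sub_distrib]
      refine (abs_sum_le_sum_abs _ _).trans ((sum_le_sum fun p hp => hf p (mem_filter.1 hp).2).trans ?_)
      have h2 : ∑ p ∈ PP Y, B₂ / (p : ℝ) ^ (3 / 2 : ℝ) = B₂ * ∑ p ∈ PP Y, 1 / Real.sqrt p ^ 3 := by
        rw [mul_sum]
        refine sum_congr rfl fun p _ => ?_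
        rw [rpow_sqrt]
        ring
      rw [h2]
      exact mul_le_mul_of_nonneg_left (hsumm _ fun p hp => (mem_filter.1 hp).2) hB₂0
    have h2 : |∑ p ∈ PP Y, c * (ρ p / p) - c * Real.log (Real.log Y)| ≤ |c| * |M₁| := by
      rw [← mul_sum, ← mul_sub, abs_mul]
      exact mul_le_mul_of_nonneg_left ((hM Y hY).trans (le_abs_self _)) (abs_nonneg _)
    have h3 := abs_add_le (∑ p ∈ PP Y, f p - ∑ p ∈ PP Y, c * (ρ p / p)) (∑ p ∈ PP Y, c * (ρ p / p) - c * Real.log (Real.log Y))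
    rw [sub_add_sub_cancel] at h3
    linarith
  have hp1 : ∀ p : ℕ, p.Prime → (1 : ℝ) ≤ Real.sqrt p := by
    intro p hp
    rw [Real.one_le_sqrt]
    exact_mod_cast hp.one_lt.le
  have hC00 : 0 ≤ B₂ * C₀ := by positivity
  constructor
  · intro Y hY
    refine (hclose (mn H) κ₀ (fun p hp => (hm p hp).trans ?_) Y hY).trans ?_
    · refine div_le_div_of_nonneg_right ?_ (by positivity)
      rw [hB₂]
      nlinarith [sq_nonneg (|κ₀| * R₁ + B₁)]
    · have := abs_nonneg M₁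
      linarith
  · intro Y hY
    have h1 := hclose (vr H) 1 (fun p hp => ?_) Y hY
    · rw [one_mul, abs_one, one_mul] at h1
      have := abs_nonneg M₁
      have : 0 ≤ |κ₀| * |M₁| := by positivity
      linarith
    · have hp0 : (0 : ℝ) < p := by exact_mod_cast hp.pos
      have hsp : Real.sqrt p ^ 2 = p := Real.sq_sqrt hp0.le
      have hs1 := hp1 p hp
      have h2 : |mn H p| ≤ (|κ₀| * R₁ + B₁) / p := by
        have h3 : |κ₀ * (ρ p / p)| ≤ |κ₀| * R₁ / p := by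
          rw [abs_mul, abs_div, abs_of_pos hp0, ← mul_div_assoc]
          exact div_le_div_of_nonneg_right (mul_le_mul_of_nonneg_left (hρ p) (abs_nonneg _)) hp0.le
        have h4 : B₁ / (p : ℝ) ^ (3 / 2 : ℝ) ≤ B₁ / p := by
          refine div_le_div_of_nonneg_left hB₁ hp0 ?_
          rw [rpow_sqrt]
          calc (p : ℝ) = Real.sqrt p ^ 2 := hsp.symm
            _ ≤ Real.sqrt p ^ 3 := pow_le_pow_right₀ hs1 (by norm_num)
        have h5 := abs_add_le (mn H p - κ₀ * (ρ p / p)) (κ₀ * (ρ p / p))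
        rw [sub_add_cancel] at h5
        have h6 : (|κ₀| * R₁ + B₁) / p = |κ₀| * R₁ / p + B₁ / p := by ring
        have := hm p hp
        linarith
      have h3 : |mn H p ^ 2| ≤ (|κ₀| * R₁ + B₁) ^ 2 / (p : ℝ) ^ (3 / 2 : ℝ) := by
        rw [abs_pow]
        calc |mn H p| ^ 2 ≤ ((|κ₀| * R₁ + B₁) / p) ^ 2 := pow_le_pow_left₀ (abs_nonneg _) h2 2
          _ = (|κ₀| * R₁ + B₁) ^ 2 / (p : ℝ) ^ 2 := by rw [div_pow]
          _ ≤ _ := by
            refine div_le_div_of_nonneg_left (by positivity) (by positivity) ?_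
            rw [rpow_sqrt]
            calc Real.sqrt p ^ 3 ≤ Real.sqrt p ^ 4 := pow_le_pow_right₀ hs1 (by norm_num)
              _ = (Real.sqrt p ^ 2) ^ 2 := by ring
              _ = _ := by rw [hsp]
      unfold vr
      have h4 := abs_sub (mn (fun p u => H p u ^ 2) p - ρ p / p) (mn H p ^ 2)
      have h5 : mn (fun p u => H p u ^ 2) p - mn H p ^ 2 - 1 * (ρ p / p) = mn (fun p u => H p u ^ 2) p - ρ p / p - mn H p ^ 2 := by ring
      rw [h5]
      have h6 : B₂ / (p : ℝ) ^ (3 / 2 : ℝ) = B₁ / (p : ℝ) ^ (3 / 2 : ℝ) + (|κ₀| * R₁ + B₁) ^ 2 / (p : ℝ) ^ (3 / 2 : ℝ) := by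
        rw [hB₂]
        ring
      rw [h6]
      have := hs p hp
      linarith

end Q282.CL
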