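import Mathlib

/-!
# Averages over finite sets: independence, exponential moments, moments, characteristic functions
-/

set_option autoImplicit false

namespace Q282.CL

open Finset

section av

variable {𝕜 : Type} [Field 𝕜] [CharZero 𝕜] {α : Type} [Fintype α]

/-- the average of a function on a finite set -/
noncomputable def av (f : α → 𝕜) : 𝕜 := (∑ a, f a) / (Fintype.card α : 𝕜)

omit [CharZero 𝕜] in
lemma av_add (f g : α → 𝕜) : av (fun a => f a + g a) = av f + av g := by
  unfold av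
  rw [sum_add_distrib, add_div]

omit [CharZero 𝕜] in
lemma av_sub (f g : α → 𝕜) : av (fun a => f a - g a) = av f - av g := by
  unfold av
  rw [sum_sub_distrib, sub_div]

omit [CharZero 𝕜] in
lemma av_mul (c : 𝕜) (f : α → 𝕜) : av (fun a => c * f a) = c * av f := by
  unfold av
  rw [← mul_sum, mul_div_assoc]

omit [CharZero 𝕜] in
lemma av_sum {ι : Type} (s : Finset ι) (f : ι → α → 𝕜) : av (fun a => ∑ i ∈ s, f i a) = ∑ i ∈ s, av (f i) := by
  unfold av
  rw [sum_comm, sum_div]

lemma av_const [Nonempty α] (c : 𝕜) : av (fun _ : α => c) = c := by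
  unfold av
  rw [sum_const, card_univ, nsmul_eq_mul, mul_div_assoc, mul_comm, div_mul_cancel₀]
  exact_mod_cast Fintype.card_ne_zero

omit [CharZero 𝕜] in
lemma av_pi {ι : Type} [Fintype ι] [DecidableEq ι] {Ω : ι → Type} [∀ i, Fintype (Ω i)] (f : ∀ i, Ω i → 𝕜) :
    av (fun ω : ∀ i, Ω i => ∏ i, f i (ω i)) = ∏ i, av (f i) := by
  unfold av
  rw [Fintype.card_pi, Nat.cast_prod, prod_div_distrib, Fintype.prod_sum]

lemma av_mono {f g : α → ℝ} (h : ∀ a, f a ≤ g a) : av f ≤ av g := by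
  unfold av
  exact div_le_div_of_nonneg_right (sum_le_sum fun a _ => h a) (Nat.cast_nonneg _)

lemma av_nonneg {f : α → ℝ} (h : ∀ a, 0 ≤ f a) : 0 ≤ av f := by
  unfold av
  exact div_nonneg (sum_nonneg fun a _ => h a) (Nat.cast_nonneg _)

lemma norm_av_le (f : α → ℂ) : ‖av f‖ ≤ av (fun a => ‖f a‖) := by
  unfold av
  rw [norm_div, Complex.norm_natCast]
  exact div_le_div_of_nonneg_right (norm_sum_le _ _) (Nat.cast_nonneg _)

lemma abs_av_le (f : α → ℝ) : |av f| ≤ av (fun a => |f a|) := by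
  unfold av
  rw [abs_div, Nat.abs_cast]
  exact div_le_div_of_nonneg_right (abs_sum_le_sum_abs _ _) (Nat.cast_nonneg _)

lemma av_ofReal (f : α → ℝ) : av (fun a => (f a : ℂ)) = ((av f : ℝ) : ℂ) := by
  unfold av
  push_cast
  rfl

end av

section mgf

lemma exp_le_add (x : ℝ) : Real.exp x ≤ x + Real.exp (x ^ 2) := by
  rcases le_or_gt |x| 1 with h | h
  · have h1 := (abs_le.1 (Real.abs_exp_sub_one_sub_id_le h)).2
    have h2 := Real.add_one_le_exp (x ^ 2)
    linarith
  · rcases lt_abs.1 h with h1 | h1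
    · have h2 : Real.exp x ≤ Real.exp (x ^ 2) := Real.exp_le_exp.2 (by nlinarith)
      linarith
    · have h2 := Real.add_one_le_exp (x ^ 2)
      have h3 : Real.exp x ≤ 1 := Real.exp_le_one_iff.2 (by linarith)
      nlinarith

variable {α : Type} [Fintype α] [Nonempty α]

lemma av_exp_le (Z : α → ℝ) (h0 : av Z = 0) {b : ℝ} (hb : ∀ a, |Z a| ≤ b) (l : ℝ) :
    av (fun a => Real.exp (l * Z a)) ≤ Real.exp (l ^ 2 * b ^ 2) := by
  have h1 : ∀ a, Real.exp (l * Z a) ≤ l * Z a + Real.exp (l ^ 2 * b ^ 2) := by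
    intro a
    refine (exp_le_add _).trans (add_le_add le_rfl (Real.exp_le_exp.2 ?_))
    rw [mul_pow]
    refine mul_le_mul_of_nonneg_left ?_ (sq_nonneg l)
    rw [← sq_abs (Z a)]
    exact pow_le_pow_left₀ (abs_nonneg _) (hb a) 2
  refine (av_mono h1).trans (le_of_eq ?_)
  rw [av_add, av_mul, h0, mul_zero, zero_add, av_const]

variable {ι : Type} [Fintype ι] [DecidableEq ι] {Ω : ι → Type} [∀ i, Fintype (Ω i)] [∀ i, Nonempty (Ω i)]

lemma av_exp_sum_le (Z : ∀ i, Ω i → ℝ) (h0 : ∀ i, av (Z i) = 0) {b : ι → ℝ} (hb : ∀ i a, |Z i a| ≤ b i) (l : ℝ) :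
    av (fun ω : ∀ i, Ω i => Real.exp (l * ∑ i, Z i (ω i))) ≤ Real.exp (l ^ 2 * ∑ i, b i ^ 2) := by
  have h1 : (fun ω : ∀ i, Ω i => Real.exp (l * ∑ i, Z i (ω i))) = fun ω => ∏ i, Real.exp (l * Z i (ω i)) := by
    funext ω
    rw [mul_sum, Real.exp_sum]
  rw [h1, av_pi (fun i a => Real.exp (l * Z i a)), mul_sum, Real.exp_sum]
  refine prod_le_prod (fun i _ => av_nonneg fun a => (Real.exp_pos _).le) fun i _ => ?_
  exact av_exp_le (Z i) (h0 i) (hb i) l

theorem pow_le_exp (x : ℝ) (k : ℕ) : x ^ (2 * k) ≤ (2 * k).factorial * (Real.exp x + Real.exp (-x)) := by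
  have h1 : |x| ^ (2 * k) / (2 * k).factorial ≤ Real.exp |x| := Real.pow_div_factorial_le_exp _ (abs_nonneg x) _
  have h2 : Real.exp |x| ≤ Real.exp x + Real.exp (-x) := by
    rcases le_total 0 x with h | h
    · rw [abs_of_nonneg h]
      linarith [Real.exp_pos (-x)]
    · rw [abs_of_nonpos h]
      linarith [Real.exp_pos x]
  have h3 : (0 : ℝ) < (2 * k).factorial := by exact_mod_cast Nat.factorial_pos _
  rw [div_le_iff₀ h3] at h1
  have h4 : |x| ^ (2 * k) = x ^ (2 * k) := by rw [pow_mul, pow_mul, sq_abs]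
  rw [h4] at h1
  calc x ^ (2 * k) ≤ Real.exp |x| * (2 * k).factorial := h1
    _ ≤ (Real.exp x + Real.exp (-x)) * (2 * k).factorial := mul_le_mul_of_nonneg_right h2 h3.le
    _ = _ := mul_comm _ _

/-- the moments of a sum of independent bounded functions with mean zero -/
theorem mom_le (Z : ∀ i, Ω i → ℝ) (h0 : ∀ i, av (Z i) = 0) {b : ι → ℝ} (hb : ∀ i a, |Z i a| ≤ b i) {V : ℝ} (hV : 0 < V)
    (hbV : ∑ i, b i ^ 2 ≤ V) {k : ℕ} (hk : 1 ≤ k) :
    av (fun ω : ∀ i, Ω i => (∑ i, Z i (ω i)) ^ (2 * k)) ≤ 2 * (2 * k).factorial * (Real.exp 1 * V / k) ^ k := by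
  have hk' : (0 : ℝ) < k := by exact_mod_cast hk
  obtain ⟨l, hl⟩ : ∃ l : ℝ, l = Real.sqrt (k / V) := ⟨_, rfl⟩
  have hl2 : l ^ 2 = k / V := by rw [hl, Real.sq_sqrt (by positivity)]
  have hl0 : 0 < l ^ 2 := by rw [hl2]; positivity
  have hF : (0 : ℝ) < (2 * k).factorial := by exact_mod_cast Nat.factorial_pos _
  have hexp : Real.exp (l ^ 2 * ∑ i, b i ^ 2) ≤ Real.exp 1 ^ k := by
    rw [← Real.exp_nat_mul, mul_one]
    refine Real.exp_le_exp.2 ?_
    rw [hl2]
    calc (k : ℝ) / V * ∑ i, b i ^ 2 ≤ k / V * V := mul_le_mul_of_nonneg_left hbV (by positivity)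
      _ = k := div_mul_cancel₀ _ hV.ne'
  have h1 : ∀ ω : ∀ i, Ω i, (l ^ 2) ^ k * (∑ i, Z i (ω i)) ^ (2 * k) ≤
      (2 * k).factorial * (Real.exp (l * ∑ i, Z i (ω i)) + Real.exp (-l * ∑ i, Z i (ω i))) := by
    intro ω
    have h := pow_le_exp (l * ∑ i, Z i (ω i)) k
    rw [mul_pow, pow_mul l 2 k] at h
    rw [neg_mul]
    exact h
  have h2 := av_mono h1
  rw [av_mul, av_mul, av_add] at h2
  have h3 := av_exp_sum_le Z h0 hb l
  have h4 := av_exp_sum_le Z h0 hb (-l)
  rw [neg_sq] at h4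
  have h5 : (l ^ 2) ^ k * av (fun ω : ∀ i, Ω i => (∑ i, Z i (ω i)) ^ (2 * k)) ≤
      (2 * k).factorial * (2 * Real.exp 1 ^ k) := by
    refine h2.trans (mul_le_mul_of_nonneg_left ?_ hF.le)
    linarith
  rw [mul_comm, ← le_div_iff₀ (by positivity)] at h5
  refine h5.trans (le_of_eq ?_)
  rw [hl2, mul_div_assoc (Real.exp 1), mul_pow, div_pow, div_pow]
  field_simp

end mgf

section chr

/-- Taylor's formula for the exponential function on the imaginary axis -/
theorem taylor (x : ℝ) (n : ℕ) :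
    ‖Complex.exp (x * Complex.I) - ∑ m ∈ range n, ((x : ℂ) * Complex.I) ^ m / (m.factorial : ℂ)‖ ≤ |x| ^ n / n.factorial := by
  -- along the segment
  have key : ∀ n : ℕ, ∀ t ∈ Set.Icc (0 : ℝ) 1, ‖Complex.exp ((t * x : ℝ) * Complex.I) -
      ∑ m ∈ range n, (((t * x : ℝ) : ℂ) * Complex.I) ^ m / (m.factorial : ℂ)‖ ≤ t ^ n * |x| ^ n / n.factorial := by
    intro n
    induction n with
    | zero =>
      intro t _
      simp only [range_zero, sum_empty, sub_zero, pow_zero, Nat.factorial_zero, Nat.cast_one, div_one, mul_one]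
      rw [Complex.norm_exp_ofReal_mul_I]
    | succ n ih =>
      have hd : ∀ t : ℝ, HasDerivAt (fun t : ℝ => Complex.exp ((t * x : ℝ) * Complex.I) -
          ∑ m ∈ range (n + 1), (((t * x : ℝ) : ℂ) * Complex.I) ^ m / (m.factorial : ℂ))
          ((x * Complex.I) * (Complex.exp ((t * x : ℝ) * Complex.I) -
          ∑ m ∈ range n, (((t * x : ℝ) : ℂ) * Complex.I) ^ m / (m.factorial : ℂ))) t := by
        intro t
        have h0 : HasDerivAt (fun t : ℝ => (((t * x : ℝ) : ℂ) * Complex.I)) (x * Complex.I) t := by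
          have h1 : HasDerivAt (fun t : ℝ => ((t * x : ℝ) : ℂ)) (x : ℂ) t := by
            have h2 := ((hasDerivAt_id t).mul_const x).ofReal_comp
            simpa using h2
          exact h1.mul_const Complex.I
        have h1 := h0.cexp
        have h2 : HasDerivAt (fun t : ℝ => ∑ m ∈ range (n + 1), (((t * x : ℝ) : ℂ) * Complex.I) ^ m / (m.factorial : ℂ))
            (∑ m ∈ range (n + 1), (m * (((t * x : ℝ) : ℂ) * Complex.I) ^ (m - 1) * (x * Complex.I)) / (m.factorial : ℂ)) t := by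
          refine HasDerivAt.fun_sum fun m _ => ?_
          exact (h0.pow m).div_const _
        refine (h1.sub h2).congr_deriv ?_
        rw [sum_range_succ', mul_sub, mul_sum]
        simp only [Nat.cast_zero, zero_mul, zero_div, add_zero]
        rw [mul_comm (Complex.exp _)]
        congr 1
        refine sum_congr rfl fun m _ => ?_
        rw [Nat.factorial_succ, Nat.add_sub_cancel]
        push_cast
        have h3 : ((m : ℂ) + 1) ≠ 0 := by exact_mod_cast Nat.succ_ne_zero m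
        have h4 : (m.factorial : ℂ) ≠ 0 := by exact_mod_cast Nat.factorial_ne_zero m
        field_simp
      intro t ht
      have h5 := image_norm_le_of_norm_deriv_right_le_deriv_boundary (a := 0) (b := 1)
        (f := fun t : ℝ => Complex.exp ((t * x : ℝ) * Complex.I) -
          ∑ m ∈ range (n + 1), (((t * x : ℝ) : ℂ) * Complex.I) ^ m / (m.factorial : ℂ))
        (f' := fun t => (x * Complex.I) * (Complex.exp ((t * x : ℝ) * Complex.I) -
          ∑ m ∈ range n, (((t * x : ℝ) : ℂ) * Complex.I) ^ m / (m.factorial : ℂ)))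
        (B := fun t => t ^ (n + 1) * |x| ^ (n + 1) / (n + 1).factorial)
        (B' := fun t => |x| * (t ^ n * |x| ^ n / n.factorial))
        (fun t _ => (hd t).continuousAt.continuousWithinAt)
        (fun t _ => (hd t).hasDerivWithinAt) ?_ ?_ ?_
      · exact h5 ht
      · rw [sum_range_succ']
        simp
      · intro t
        have h6 := ((hasDerivAt_pow (n + 1) t).mul_const (|x| ^ (n + 1))).div_const ((n + 1).factorial : ℝ)
        refine h6.congr_deriv ?_
        rw [Nat.factorial_succ, Nat.add_sub_cancel]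
        push_cast
        have h3 : ((n : ℝ) + 1) ≠ 0 := by positivity
        have h4 : (n.factorial : ℝ) ≠ 0 := by exact_mod_cast Nat.factorial_ne_zero n
        field_simp
        ring
      · intro t ht
        rw [norm_mul, norm_mul, Complex.norm_I, mul_one, Complex.norm_real, Real.norm_eq_abs]
        exact mul_le_mul_of_nonneg_left (ih t ⟨ht.1, ht.2.le⟩) (abs_nonneg _)
  have h := key n 1 ⟨zero_le_one, le_rfl⟩
  rw [one_mul, one_pow, one_mul] at h
  exact h

end chr

end Q282.CL
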