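import Pool.Agent.Q282.CL.Abs

/-!
# Laws of vectors on finite sets, and a uniform form of the theorem of Lévy
-/

set_option autoImplicit false

namespace Q282.CL

open Finset MeasureTheory ProbabilityTheory Filter
open scoped Topology ENNReal NNReal

section law

variable {α : Type} [Fintype α] [Nonempty α] {E : Type} [MeasurableSpace E]

/-- the law of a function on a finite set -/
noncomputable def lwm (Y : α → E) : Measure E := (Fintype.card α : ℝ≥0∞)⁻¹ • ∑ a, Measure.dirac (Y a)

instance (Y : α → E) : IsProbabilityMeasure (lwm Y) := by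
  refine ⟨?_⟩
  unfold lwm
  rw [Measure.smul_apply, Measure.finsetSum_apply]
  simp only [measure_univ, sum_const, card_univ, nsmul_eq_mul, mul_one, smul_eq_mul]
  exact ENNReal.inv_mul_cancel (by exact_mod_cast Fintype.card_ne_zero) (ENNReal.natCast_ne_top _)

/-- the law as a probability measure -/
noncomputable def lw (Y : α → E) : ProbabilityMeasure E := ⟨lwm Y, inferInstance⟩

open Classical in
lemma lw_real (Y : α → E) {S : Set E} (hS : MeasurableSet S) :
    ((lw Y : Measure E) S).toReal = ((univ.filter fun a => Y a ∈ S).card : ℝ) / Fintype.card α := by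
  show (lwm Y S).toReal = _
  unfold lwm
  rw [Measure.smul_apply, Measure.finsetSum_apply]
  have h1 : ∀ a : α, Measure.dirac (Y a) S = if Y a ∈ S then 1 else 0 := by
    intro a
    rw [Measure.dirac_apply' _ hS]
    by_cases h : Y a ∈ S
    · rw [if_pos h, Set.indicator_of_mem h, Pi.one_apply]
    · rw [if_neg h, Set.indicator_of_notMem h]
  rw [sum_congr rfl fun a _ => h1 a, ← sum_filter, sum_const, nsmul_eq_mul, mul_one, smul_eq_mul, ENNReal.toReal_mul,
    ENNReal.toReal_inv, ENNReal.toReal_natCast, ENNReal.toReal_natCast, inv_mul_eq_div]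

lemma int_lw [MeasurableSingletonClass E] (Y : α → E) (f : E → ℂ) : ∫ y, f y ∂(lw Y : Measure E) = av (fun a => f (Y a)) := by
  show ∫ y, f y ∂(lwm Y) = _
  unfold lwm av
  rw [integral_smul_measure, integral_finsetSum_measure]
  · simp only [integral_dirac]
    rw [ENNReal.toReal_inv, ENNReal.toReal_natCast, Complex.real_smul]
    push_cast
    rw [inv_mul_eq_div]
  · intro a _
    exact integrable_dirac (by simp)

end law

section levy

variable {E : Type} [NormedAddCommGroup E] [InnerProductSpace ℝ E] [FiniteDimensional ℝ E] [MeasurableSpace E] [BorelSpace E]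

lemma chr_lw {α : Type} [Fintype α] [Nonempty α] (Y : α → E) (x : E) :
    charFun (lw Y : Measure E) x = av (fun a => Complex.exp (((inner ℝ (Y a) x : ℝ) : ℂ) * Complex.I)) := by
  rw [charFun_apply, int_lw]

/-- the theorem of Lévy, uniformly -/
theorem levy {β : Type} (D : β → ℕ) (μ : β → ProbabilityMeasure E) (ν : ProbabilityMeasure E)
    (h : ∀ x : E, ∀ ε : ℝ, 0 < ε → ∃ X₁ : ℕ, ∀ b, X₁ ≤ D b → ‖charFun (μ b : Measure E) x - charFun (ν : Measure E) x‖ ≤ ε)
    {S : Set E} (hS : (ν : Measure E) (frontier S) = 0) {ε : ℝ} (hε : 0 < ε) :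
    ∃ X₁ : ℕ, ∀ b, X₁ ≤ D b → |((μ b : Measure E) S).toReal - ((ν : Measure E) S).toReal| ≤ ε := by
  by_contra hcon
  push Not at hcon
  choose b hb1 hb2 using hcon
  have h1 : Tendsto (fun n => μ (b n)) atTop (𝓝 ν) := by
    refine ProbabilityMeasure.tendsto_of_tendsto_charFun fun x => ?_
    rw [Metric.tendsto_atTop]
    intro δ hδ
    obtain ⟨X₁, hX₁⟩ := h x (δ / 2) (by positivity)
    refine ⟨X₁, fun n hn => ?_⟩
    rw [dist_eq_norm]
    have := hX₁ (b n) (hn.trans (hb1 n))
    linarith
  have h2 := ProbabilityMeasure.tendsto_measure_of_null_frontier_of_tendsto' h1 hS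
  have h3 : Tendsto (fun n => ((μ (b n) : Measure E) S).toReal) atTop (𝓝 ((ν : Measure E) S).toReal) :=
    (ENNReal.tendsto_toReal (measure_ne_top _ _)).comp h2
  rw [Metric.tendsto_atTop] at h3
  obtain ⟨n, hn⟩ := h3 ε hε
  have h4 := hn n le_rfl
  rw [Real.dist_eq] at h4
  exact absurd (hb2 n) (not_lt.2 h4.le)

end levy

section brown

open BrownianReal

variable (I : Finset ℝ≥0)

/-- the law of the Brownian motion at the times of `I` on the Euclidean space -/
noncomputable def nuE : ProbabilityMeasure (EuclideanSpace ℝ I) := ⟨multivariateGaussian 0 (covMatrix I), inferInstance⟩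

lemma chr_nuE (x : EuclideanSpace ℝ I) :
    charFun (nuE I : Measure (EuclideanSpace ℝ I)) x =
      Complex.exp ((-((∑ s : I, ∑ t : I, x s * x t * ((min (s : ℝ≥0) (t : ℝ≥0) : ℝ≥0) : ℝ)) / 2) : ℝ) : ℂ) := by
  show charFun (multivariateGaussian 0 (covMatrix I)) x = _
  rw [charFun_multivariateGaussian (posSemidef_covMatrix I)]
  congr 1
  rw [inner_zero_right, Complex.ofReal_zero, zero_mul, zero_sub]
  have h1 : x.ofLp ⬝ᵥ (covMatrix I).mulVec x.ofLp = ∑ s : I, ∑ t : I, x s * x t * ((min (s : ℝ≥0) (t : ℝ≥0) : ℝ≥0) : ℝ) := by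
    unfold dotProduct Matrix.mulVec dotProduct
    refine sum_congr rfl fun s _ => ?_
    rw [mul_sum]
    refine sum_congr rfl fun t _ => ?_
    show x s * (covMatrix I s t * x t) = _
    rw [covMatrix_apply]
    ring
  rw [h1]
  push_cast
  rfl

/-- the orthant -/
def orth (x : I → ℝ) : Set (EuclideanSpace ℝ I) := {y | ∀ s, y s ≤ x s}

lemma orth_closed (x : I → ℝ) : IsClosed (orth I x) := by
  unfold orth
  simp only [Set.ofPred_forall]
  refine isClosed_iInter fun s => ?_
  exact isClosed_le (by fun_prop) continuous_const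

/-- the distribution function of the Brownian motion at the times of `I` -/
noncomputable def W (x : I → ℝ) : ℝ := (projectiveFamily I (Set.Iic x)).toReal

lemma W_eq (x : I → ℝ) : W I x = ((nuE I : Measure (EuclideanSpace ℝ I)) (orth I x)).toReal := by
  unfold W
  have h := (measurePreserving_ofLp_multivariateGaussian I).measure_preimage (s := Set.Iic x)
    measurableSet_Iic.nullMeasurableSet
  rw [← h]
  rfl

lemma orth_frontier (hI : ∀ s ∈ I, 0 < s) (x : I → ℝ) : (nuE I : Measure (EuclideanSpace ℝ I)) (frontier (orth I x)) = 0 := by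
  have h1 : frontier (orth I x) ⊆ ⋃ s : I, {y : EuclideanSpace ℝ I | y s = x s} := by
    intro y hy
    rw [(orth_closed I x).frontier_eq] at hy
    by_contra hcon
    simp only [Set.mem_iUnion, Set.mem_ofPred_eq, not_exists] at hcon
    refine hy.2 ?_
    rw [mem_interior]
    refine ⟨{y : EuclideanSpace ℝ I | ∀ s, y s < x s}, fun z hz s => (hz s).le, ?_, fun s => lt_of_le_of_ne (hy.1 s) (hcon s)⟩
    simp only [Set.ofPred_forall]
    exact isOpen_iInter_of_finite fun s => isOpen_lt (by fun_prop) continuous_const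
  refine measure_mono_null h1 (measure_iUnion_null fun s => ?_)
  have h2 := measurePreserving_eval_multivariateGaussian (μ := 0) (posSemidef_covMatrix I) (i := s)
  have h3 := h2.measure_preimage (s := {x s}) (measurableSet_singleton _).nullMeasurableSet
  have h4 : (0 : ℝ) < covMatrix I s s := by
    rw [covMatrix_apply, min_self]
    exact_mod_cast hI s s.2
  have h5 : (covMatrix I s s).toNNReal ≠ 0 := (Real.toNNReal_pos.2 h4).ne'
  have := nullSingletonClass_gaussianReal (μ := (0 : EuclideanSpace ℝ I) s) h5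
  rw [measure_singleton] at h3
  exact h3

end brown

end Q282.CL
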