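import Pool.Agent.Q282.CL.Lim
import Pool.Agent.Q282.CL.Dist
import Pool.Agent.Q282.GK.Law

/-!
# Convergence to the Brownian motion for the partial sums over primes of functions of the residues
-/

set_option autoImplicit false

namespace Q282.CL

open Finset Filter MeasureTheory
open scoped NNReal Topology
open Q282.BP (bx mem_bx card_bx PP loglog_tendsto)
open Q282.GK (kbox mean_res)
open Pool.Agent.TH894.NE (box mem_box card_box Per mean mean_mul mean_mono mean_prod)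

lemma av_equiv {𝕜 α β : Type} [Field 𝕜] [Fintype α] [Fintype β] (e : α ≃ β) (f : β → 𝕜) : av f = av (fun a => f (e a)) := by
  unfold av
  rw [Fintype.card_congr e, Fintype.sum_equiv e (fun a => f (e a)) f fun _ => rfl]

section

variable {κ : Type} [Fintype κ] [DecidableEq κ]

/-- the coordinates in a box -/
noncomputable def kequiv {d : ℕ} (e : κ ≃ Fin d) (N : κ → ℤ) (L : κ → ℕ) : bx (fun k => L (e.symm k)) ≃ kbox N L where
  toFun n := ⟨fun i => N i + (n.1 (e i) : ℤ), by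
    have hn := mem_bx.1 n.2
    unfold kbox
    rw [Fintype.mem_piFinset]
    intro i
    rw [mem_Ico]
    have h1 := hn (e i)
    rw [Equiv.symm_apply_apply] at h1
    constructor <;> omega⟩
  invFun t := ⟨fun k => (t.1 (e.symm k) - N (e.symm k)).toNat, by
    have ht := t.2
    unfold kbox at ht
    rw [Fintype.mem_piFinset] at ht
    rw [mem_bx]
    intro k
    have := mem_Ico.1 (ht (e.symm k))
    show (t.1 (e.symm k) - N (e.symm k)).toNat < L (e.symm k)
    omega⟩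
  left_inv n := by
    apply Subtype.ext
    funext k
    show (N (e.symm k) + (n.1 (e (e.symm k)) : ℤ) - N (e.symm k)).toNat = n.1 k
    rw [Equiv.apply_symm_apply]
    omega
  right_inv t := by
    have ht := t.2
    unfold kbox at ht
    rw [Fintype.mem_piFinset] at ht
    apply Subtype.ext
    funext i
    have := mem_Ico.1 (ht i)
    show N i + (((t.1 (e.symm (e i)) - N (e.symm (e i))).toNat : ℕ) : ℤ) = t.1 i
    rw [Equiv.symm_apply_apply]
    omega

lemma kbox_nonempty {N : κ → ℤ} {L : κ → ℕ} (hL : ∀ i, 0 < L i) : Nonempty (kbox N L) := by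
  refine ⟨⟨N, ?_⟩⟩
  unfold kbox
  rw [Fintype.mem_piFinset]
  intro i
  rw [mem_Ico]
  have := hL i
  constructor <;> omega

/-- the mean over the residues -/
noncomputable def mn (H : (p : ℕ) → (κ → ZMod p) → ℝ) (p : ℕ) : ℝ :=
  if h : p.Prime then haveI : Fact p.Prime := ⟨h⟩; (∑ u : κ → ZMod p, H p u) / (p : ℝ) ^ Fintype.card κ else 0

/-- the variance -/
noncomputable def vr (H : (p : ℕ) → (κ → ZMod p) → ℝ) (p : ℕ) : ℝ := mn (fun p u => H p u ^ 2) p - mn H p ^ 2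

lemma av_res (p : ℕ) [hp : Fact p.Prime] (G : (κ → ZMod p) → ℝ) : av G = (∑ u : κ → ZMod p, G u) / (p : ℝ) ^ Fintype.card κ := by
  unfold av
  rw [Fintype.card_fun, ZMod.card]
  push_cast
  rfl

lemma mn_eq (H : (p : ℕ) → (κ → ZMod p) → ℝ) (p : ℕ) [hp : Fact p.Prime] : mn H p = av (H p) := by
  unfold mn
  rw [dif_pos hp.out, av_res]

lemma mean_av {d : ℕ} (e : κ ≃ Fin d) (p : ℕ) [hp : Fact p.Prime] (N : κ → ℤ) (G : (κ → ZMod p) → ℝ) :
    mean d p (fun n => G (fun i => ((N i + (n (e i) : ℤ) : ℤ) : ZMod p))) = av G := by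
  rw [mean_res e p N G, av_res, Fintype.card_congr e, Fintype.card_fin]

lemma abs_av_le_const {α : Type} [Fintype α] [Nonempty α] {f : α → ℝ} {c : ℝ} (h : ∀ a, |f a| ≤ c) : |av f| ≤ c :=
  (abs_av_le f).trans ((av_mono h).trans (le_of_eq (av_const c)))

/-- the characteristic function of a weighted sum -/
theorem chr_res (κ : Type) [Fintype κ] [DecidableEq κ] (B R ε : ℝ) (hB : 0 < B) (hR : 0 < R) (hε : 0 < ε) :
    ∃ X₁ : ℕ, 16 ≤ X₁ ∧ ∀ X : ℕ, X₁ ≤ X →
    ∀ (N : κ → ℤ) (L : κ → ℕ), (∀ i, (X : ℝ) ^ 5 ≤ L i) → ∀ H : (p : ℕ) → (κ → ZMod p) → ℝ,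
    (∀ p : ℕ, p.Prime → ∀ u, |H p u| ≤ B / Real.sqrt p) → ∀ w : ℕ → ℝ, (∀ p, |w p| ≤ R) →
    ‖av (fun t : kbox N L => Complex.exp (((∑ p ∈ PP X, w p * (H p (fun i => ((t : κ → ℤ) i : ZMod p)) - mn H p)) /
        Real.sqrt (Real.log (Real.log X)) : ℝ) * Complex.I)) -
      Complex.exp ((-((∑ p ∈ PP X, w p ^ 2 * vr H p) / (2 * Real.log (Real.log X))) : ℝ) : ℂ)‖ ≤ ε := by
  classical
  obtain ⟨e⟩ : Nonempty (κ ≃ Fin (Fintype.card κ)) := ⟨Fintype.equivFin κ⟩
  obtain ⟨X₁, hX₁, h⟩ := clt_chr (Fintype.card κ) (2 * (R * B)) ε (by positivity) hε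
  refine ⟨X₁, hX₁, ?_⟩
  intro X hX N L hL H hH w hw
  have hmn : ∀ p : ℕ, p.Prime → |mn H p| ≤ B / Real.sqrt p := by
    intro p hp
    have : Fact p.Prime := ⟨hp⟩
    rw [mn_eq]
    exact abs_av_le_const (hH p hp)
  have h1 := h X hX (fun k => L (e.symm k)) (fun k => hL _)
    (fun p n => w p * (H p (fun i => ((N i + (n (e i) : ℤ) : ℤ) : ZMod p)) - mn H p))
    (fun p hp n => by
      have h2 : H p (fun i => ((N i + (n (e i) : ℤ) : ℤ) : ZMod p)) =
          H p (fun i => ((N i + (((fun i => n i % p) (e i) : ℕ) : ℤ) : ℤ) : ZMod p)) := by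
        congr 1
        funext i
        rw [Int.cast_add, Int.cast_add, Int.cast_natCast, Int.cast_natCast, ZMod.natCast_mod]
      show w p * (H p _ - mn H p) = w p * (H p _ - mn H p)
      rw [h2])
    (fun p hp => by
      have : Fact p.Prime := ⟨hp⟩
      rw [mean_av e p N (fun u => w p * (H p u - mn H p)), av_mul, av_sub, av_const, ← mn_eq, sub_self, mul_zero])
    (fun p hp n => by
      have h2 := hH p hp (fun i => ((N i + (n (e i) : ℤ) : ℤ) : ZMod p))
      have h3 := hmn p hp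
      have h4 : |H p (fun i => ((N i + (n (e i) : ℤ) : ℤ) : ZMod p)) - mn H p| ≤ 2 * (B / Real.sqrt p) :=
        (abs_sub _ _).trans (by linarith)
      rw [abs_mul]
      calc _ ≤ R * (2 * (B / Real.sqrt p)) := mul_le_mul (hw p) h4 (abs_nonneg _) hR.le
        _ = _ := by ring)
  have h2 : av (fun t : kbox N L => Complex.exp (((∑ p ∈ PP X, w p * (H p (fun i => ((t : κ → ℤ) i : ZMod p)) - mn H p)) /
        Real.sqrt (Real.log (Real.log X)) : ℝ) * Complex.I)) =
      av (fun n : bx (fun k => L (e.symm k)) => Complex.exp (((∑ p ∈ PP X, w p * (H p (fun i => ((N i + ((n : Fin _ → ℕ) (e i) : ℤ) : ℤ) : ZMod p)) - mn H p)) /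
        Real.sqrt (Real.log (Real.log X)) : ℝ) * Complex.I)) := by
    rw [av_equiv (kequiv e N L)]
    rfl
  have h3 : ∑ p ∈ PP X, w p ^ 2 * vr H p = ∑ p ∈ PP X, mean (Fintype.card κ) p
      (fun n => (w p * (H p (fun i => ((N i + (n (e i) : ℤ) : ℤ) : ZMod p)) - mn H p)) ^ 2) := by
    refine sum_congr rfl fun p hp => ?_
    have : Fact p.Prime := ⟨(mem_filter.1 hp).2⟩
    rw [mean_av e p N (fun u => (w p * (H p u - mn H p)) ^ 2)]
    have h4 : (fun u => (w p * (H p u - mn H p)) ^ 2) =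
        fun u => w p ^ 2 * (H p u ^ 2 - ((2 * mn H p) * H p u - mn H p ^ 2)) := by
      funext u
      ring
    rw [h4, av_mul, av_sub, av_sub, av_mul, av_const, ← mn_eq]
    unfold vr
    rw [mn_eq (fun p u => H p u ^ 2)]
    ring
  rw [h2, h3]
  exact h1

/-- the times -/
noncomputable def tm (X : ℕ) (s : ℝ) : ℕ := ⌊Real.exp (Real.log X ^ s)⌋₊

lemma tm_le {X : ℕ} (hX : 3 ≤ X) {s : ℝ} (hs : s ≤ 1) : tm X s ≤ X := by
  have hX0 : (3 : ℝ) ≤ X := by exact_mod_cast hX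
  have hlog : 1 ≤ Real.log X := by
    rw [Real.le_log_iff_exp_le (by linarith)]
    linarith [Real.exp_one_lt_three]
  have h1 : Real.log X ^ s ≤ Real.log X := by
    calc Real.log X ^ s ≤ Real.log X ^ (1 : ℝ) := Real.rpow_le_rpow_of_exponent_le hlog hs
      _ = Real.log X := Real.rpow_one _
  have h2 : Real.exp (Real.log X ^ s) ≤ X := by
    calc Real.exp (Real.log X ^ s) ≤ Real.exp (Real.log X) := Real.exp_le_exp.2 h1
      _ = X := Real.exp_log (by linarith)
  unfold tm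
  exact (Nat.floor_le_floor h2).trans (by rw [Nat.floor_natCast])

lemma tm_large {s : ℝ} (hs : 0 < s) : ∀ᶠ X : ℕ in atTop, 3 ≤ tm X s ∧
    |Real.log (Real.log (tm X s)) - s * Real.log (Real.log X)| ≤ 1 := by
  have h0 : Tendsto (fun X : ℕ => Real.log X ^ s) atTop atTop :=
    (tendsto_rpow_atTop hs).comp (Real.tendsto_log_atTop.comp tendsto_natCast_atTop_atTop)
  filter_upwards [h0.eventually_ge_atTop 4, eventually_ge_atTop 3] with X h1 h2
  have hX0 : (3 : ℝ) ≤ X := by exact_mod_cast h2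
  have hlog : 1 ≤ Real.log X := by
    rw [Real.le_log_iff_exp_le (by linarith)]
    linarith [Real.exp_one_lt_three]
  obtain ⟨y, hy⟩ : ∃ y : ℝ, y = Real.log X ^ s := ⟨_, rfl⟩
  obtain ⟨n, hn⟩ : ∃ n : ℕ, n = tm X s := ⟨_, rfl⟩
  have hfl1 : (n : ℝ) ≤ Real.exp y := by
    rw [hn, hy]
    exact Nat.floor_le (Real.exp_pos _).le
  have hfl2 : Real.exp y < n + 1 := by
    rw [hn, hy]
    exact Nat.lt_floor_add_one _
  rw [← hy] at h1
  have hexp : y + 1 ≤ Real.exp y := Real.add_one_le_exp y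
  have hn4 : (4 : ℝ) ≤ n := by linarith
  have hn3 : 3 ≤ n := by
    have : (3 : ℝ) ≤ n := by linarith
    exact_mod_cast this
  rw [← hn]
  refine ⟨hn3, ?_⟩
  have hll : s * Real.log (Real.log X) = Real.log y := by
    rw [hy, Real.log_rpow (by linarith)]
  rw [hll]
  have h3 : Real.log n ≤ y := by
    have := Real.log_le_log (by linarith) hfl1
    rwa [Real.log_exp] at this
  have h4 : y ≤ 2 * Real.log n := by
    have h5 : Real.exp y ≤ (n : ℝ) ^ 2 := by nlinarith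
    have := Real.log_le_log (Real.exp_pos y) h5
    rw [Real.log_exp, Real.log_pow] at this
    exact_mod_cast this
  have hlogn : 1 < Real.log n := by
    rw [Real.lt_log_iff_exp_lt (by linarith)]
    linarith [Real.exp_one_lt_three]
  have h5 : Real.log (Real.log n) ≤ Real.log y := Real.log_le_log (by linarith) h3
  have h6 : Real.log y ≤ Real.log 2 + Real.log (Real.log n) := by
    rw [← Real.log_mul (by norm_num) (by linarith)]
    exact Real.log_le_log (by linarith) h4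
  have h7 : Real.log 2 ≤ 1 := by
    have := Real.log_two_lt_d9
    linarith
  rw [abs_le]
  constructor <;> linarith

lemma exp_sub_exp {a b : ℝ} (ha : 0 ≤ a) (hb : 0 ≤ b) : |Real.exp (-a) - Real.exp (-b)| ≤ |a - b| := by
  wlog hab : a ≤ b generalizing a b
  · rw [abs_sub_comm, abs_sub_comm a b]
    exact this hb ha (le_of_not_ge hab)
  have h5 : Real.exp (-a) - Real.exp (-b) = Real.exp (-a) * (1 - Real.exp (-(b - a))) := by
    rw [mul_sub, mul_one, ← Real.exp_add]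
    congr 2
    ring
  have h6 : Real.exp (-a) ≤ 1 := Real.exp_le_one_iff.2 (by linarith)
  have h7 : 1 - Real.exp (-(b - a)) ≤ b - a := by
    have := Real.add_one_le_exp (-(b - a))
    linarith
  have h8 : 0 ≤ 1 - Real.exp (-(b - a)) := by
    have : Real.exp (-(b - a)) ≤ 1 := Real.exp_le_one_iff.2 (by linarith)
    linarith
  rw [h5, abs_of_nonneg (mul_nonneg (Real.exp_pos _).le h8), abs_sub_comm, abs_of_nonneg (by linarith : 0 ≤ b - a)]
  calc Real.exp (-a) * (1 - Real.exp (-(b - a))) ≤ 1 * (b - a) := mul_le_mul h6 h7 h8 zero_le_one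
    _ = _ := one_mul _

lemma norm_exp_sub (u v : ℝ) : ‖Complex.exp (((v + u : ℝ) : ℂ) * Complex.I) - Complex.exp ((u : ℂ) * Complex.I)‖ ≤ |v| := by
  have h3 : Complex.exp (((v + u : ℝ) : ℂ) * Complex.I) - Complex.exp ((u : ℂ) * Complex.I) =
      Complex.exp ((u : ℂ) * Complex.I) * (Complex.exp ((v : ℂ) * Complex.I) - 1) := by
    push_cast
    rw [add_mul, Complex.exp_add]
    ring
  rw [h3, norm_mul, Complex.norm_exp_ofReal_mul_I, one_mul]
  have h4 := taylor v 1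
  rw [sum_range_one, pow_zero, Nat.factorial_zero, Nat.factorial_one, Nat.cast_one, Nat.cast_one, div_one, div_one,
    pow_one] at h4
  exact h4

end

section wt

variable {ι : Type} [Fintype ι]

lemma PP_filter {X a : ℕ} (h : a ≤ X) : (PP X).filter (fun p => p ≤ a) = PP a := by
  ext p
  simp only [mem_filter, mem_Icc]
  constructor
  · rintro ⟨⟨⟨h1, _⟩, h2⟩, h3⟩
    exact ⟨⟨h1, h3⟩, h2⟩
  · rintro ⟨⟨h1, h3⟩, h2⟩
    exact ⟨⟨⟨h1, h3.trans h⟩, h2⟩, h3⟩

/-- the weights -/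
noncomputable def wt (a : ι → ℕ) (x : ι → ℝ) (p : ℕ) : ℝ := ∑ s, if p ≤ a s then x s else 0

lemma wt_le (a : ι → ℕ) (x : ι → ℝ) (p : ℕ) : |wt a x p| ≤ ∑ s, |x s| := by
  unfold wt
  refine (abs_sum_le_sum_abs _ _).trans (sum_le_sum fun s _ => ?_)
  split_ifs
  · exact le_rfl
  · rw [abs_zero]
    exact abs_nonneg _

lemma wt_sum {X : ℕ} (a : ι → ℕ) (ha : ∀ s, a s ≤ X) (x : ι → ℝ) (G : ℕ → ℝ) :
    ∑ p ∈ PP X, wt a x p * G p = ∑ s, x s * ∑ p ∈ PP (a s), G p := by
  unfold wt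
  rw [sum_congr rfl fun p _ => sum_mul _ _ _, sum_comm]
  refine sum_congr rfl fun s _ => ?_
  have h2 : ∑ p ∈ PP (a s), G p = ∑ p ∈ PP X, if p ≤ a s then G p else 0 := by
    rw [← PP_filter (ha s)]
    exact sum_filter _ _
  rw [h2, mul_sum]
  refine sum_congr rfl fun p _ => ?_
  split_ifs <;> ring

lemma wt_sq {X : ℕ} (a : ι → ℕ) (ha : ∀ s, a s ≤ X) (x : ι → ℝ) (G : ℕ → ℝ) :
    ∑ p ∈ PP X, wt a x p ^ 2 * G p = ∑ s, ∑ t, x s * x t * ∑ p ∈ PP (min (a s) (a t)), G p := by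
  have h1 : ∀ p, wt a x p ^ 2 * G p = ∑ s, ∑ t, x s * x t * if p ≤ min (a s) (a t) then G p else 0 := by
    intro p
    unfold wt
    rw [sq, sum_mul_sum, sum_mul]
    refine sum_congr rfl fun s _ => ?_
    rw [sum_mul]
    refine sum_congr rfl fun t _ => ?_
    by_cases h1 : p ≤ a s
    · by_cases h2 : p ≤ a t
      · rw [if_pos h1, if_pos h2, if_pos (le_min h1 h2)]
      · have h3 : ¬ p ≤ min (a s) (a t) := fun h => h2 (h.trans (min_le_right _ _))
        rw [if_neg h2, if_neg h3]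
        ring
    · have h3 : ¬ p ≤ min (a s) (a t) := fun h => h1 (h.trans (min_le_left _ _))
      rw [if_neg h1, if_neg h3]
      ring
  rw [sum_congr rfl fun p _ => h1 p, sum_comm]
  refine sum_congr rfl fun s _ => ?_
  rw [sum_comm]
  refine sum_congr rfl fun t _ => ?_
  have h2 : ∑ p ∈ PP (min (a s) (a t)), G p = ∑ p ∈ PP X, if p ≤ min (a s) (a t) then G p else 0 := by
    rw [← PP_filter ((min_le_left _ _).trans (ha s))]
    exact sum_filter _ _
  rw [h2, mul_sum]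

end wt

section main

/-- the data -/
structure Dat (κ : Type) [Fintype κ] [DecidableEq κ] (B κ₀ M : ℝ) where
  /-- the length -/
  X : ℕ
  /-- the corner -/
  N : κ → ℤ
  /-- the sides -/
  L : κ → ℕ
  /-- the local functions -/
  H : (p : ℕ) → (κ → ZMod p) → ℝ
  /-- the partial sums -/
  F : ℕ → (κ → ℤ) → ℝ
  hX : 16 ≤ X
  hL : ∀ i, (X : ℝ) ^ 5 ≤ L i
  hH : ∀ p : ℕ, p.Prime → ∀ u, |H p u| ≤ B / Real.sqrt p
  h2 : ∀ Y : ℕ, 3 ≤ Y → |∑ p ∈ PP Y, mn H p - κ₀ * Real.log (Real.log Y)| ≤ M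
  h3 : ∀ Y : ℕ, 3 ≤ Y → |∑ p ∈ PP Y, vr H p - Real.log (Real.log Y)| ≤ M
  hF : ∀ Y : ℕ, 3 ≤ Y → Y ≤ X → av (fun t : kbox N L => |F Y t - ∑ p ∈ PP Y, H p (fun i => ((t : κ → ℤ) i : ZMod p))|) ≤ M

variable {κ : Type} [Fintype κ] [DecidableEq κ] {B κ₀ M : ℝ}

lemma Dat.pos (b : Dat κ B κ₀ M) (i : κ) : 0 < b.L i := by
  have h1 := b.hL i
  have h2 : (0 : ℝ) < (b.X : ℝ) ^ 5 := by
    have : (0 : ℝ) < b.X := by
      have := b.hX
      exact_mod_cast (by omega : 0 < b.X)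
    positivity
  exact_mod_cast h2.trans_le h1

instance (b : Dat κ B κ₀ M) : Nonempty (kbox b.N b.L) := kbox_nonempty b.pos

/-- the vector -/
noncomputable def Dat.vec (b : Dat κ B κ₀ M) (I : Finset ℝ≥0) (t : κ → ℤ) : EuclideanSpace ℝ I :=
  WithLp.toLp 2 fun s : I => (b.F (tm b.X s) t - κ₀ * (s : ℝ≥0) * Real.log (Real.log b.X)) / Real.sqrt (Real.log (Real.log b.X))

lemma chr_dat (hB : 0 < B) (I : Finset ℝ≥0) (hI : ∀ s ∈ I, 0 < s ∧ s ≤ 1) (x : EuclideanSpace ℝ I) (ε : ℝ) (hε : 0 < ε) :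
    ∃ X₁ : ℕ, ∀ b : Dat κ B κ₀ M, X₁ ≤ b.X →
      ‖charFun (lw (fun t : kbox b.N b.L => b.vec I t) : Measure (EuclideanSpace ℝ I)) x -
        charFun (nuE I : Measure (EuclideanSpace ℝ I)) x‖ ≤ ε := by
  classical
  obtain ⟨R, hR⟩ : ∃ R : ℝ, R = ∑ s, |x s| + 1 := ⟨_, rfl⟩
  have hR0 : 0 < R := by
    have : 0 ≤ ∑ s, |x s| := sum_nonneg fun s _ => abs_nonneg _
    rw [hR]
    linarith
  obtain ⟨X₁, hX₁, h⟩ := chr_res κ B R (ε / 3) hB hR0 (by positivity)
  obtain ⟨D₁, hD₁⟩ : ∃ D₁ : ℝ, D₁ = R * (2 * |M| + |κ₀|) := ⟨_, rfl⟩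
  have hD₁0 : 0 ≤ D₁ := by
    rw [hD₁]
    positivity
  obtain ⟨D₂, hD₂⟩ : ∃ D₂ : ℝ, D₂ = R ^ 2 * (|M| + 1) := ⟨_, rfl⟩
  have hD₂0 : 0 ≤ D₂ := by
    rw [hD₂]
    positivity
  have hsq : Tendsto (fun X : ℕ => Real.sqrt (Real.log (Real.log X))) atTop atTop := Real.tendsto_sqrt_atTop.comp loglog_tendsto
  have e1 : ∀ᶠ X : ℕ in atTop, ∀ s : I, 3 ≤ tm X s ∧
      |Real.log (Real.log (tm X s)) - (s : ℝ≥0) * Real.log (Real.log X)| ≤ 1 := by
    rw [eventually_all]
    intro s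
    exact tm_large (by exact_mod_cast (hI s s.2).1)
  obtain ⟨X₂, hX₂⟩ := eventually_atTop.1 (e1.and ((hsq.eventually_ge_atTop (3 * D₁ / ε + 1)).and
    (loglog_tendsto.eventually_ge_atTop (3 * D₂ / ε + 1))))
  refine ⟨max X₁ X₂, fun b hb => ?_⟩
  obtain ⟨f1, f2, f3⟩ := hX₂ b.X ((le_max_right _ _).trans hb)
  obtain ⟨ll, hll⟩ : ∃ ll : ℝ, ll = Real.log (Real.log b.X) := ⟨_, rfl⟩
  obtain ⟨D, hD⟩ : ∃ D : ℝ, D = Real.sqrt ll := ⟨_, rfl⟩
  rw [← hll] at f1 f2 f3
  rw [← hD] at f2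
  have hD1 : 1 ≤ D := by
    have : 0 ≤ 3 * D₁ / ε := by positivity
    linarith
  have hll1 : 1 ≤ ll := by
    have : 0 ≤ 3 * D₂ / ε := by positivity
    linarith
  have hM0 : 0 ≤ |M| := abs_nonneg M
  obtain ⟨a, ha⟩ : ∃ a : I → ℕ, a = fun s : I => tm b.X s := ⟨_, rfl⟩
  have haX : ∀ s, a s ≤ b.X := by
    intro s
    rw [ha]
    exact tm_le (by have := b.hX; omega) (by exact_mod_cast (hI s s.2).2)
  have ha3 : ∀ s, 3 ≤ a s := fun s => by rw [ha]; exact (f1 s).1
  have hal : ∀ s, |Real.log (Real.log (a s)) - (s : ℝ≥0) * ll| ≤ 1 := fun s => by rw [ha]; exact (f1 s).2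
  obtain ⟨w, hw⟩ : ∃ w : ℕ → ℝ, w = wt a x := ⟨_, rfl⟩
  have hwR : ∀ p, |w p| ≤ R := by
    intro p
    rw [hw, hR]
    exact (wt_le a x p).trans (by linarith)
  have h1 := h b.X ((le_max_left _ _).trans hb) b.N b.L b.hL b.H b.hH w hwR
  rw [← hll, ← hD] at h1
  -- the characteristic function of the vector
  obtain ⟨U, hU⟩ : ∃ U : (κ → ℤ) → ℝ, U = fun t => (∑ p ∈ PP b.X, w p * (b.H p (fun i => (t i : ZMod p)) - mn b.H p)) / D := ⟨_, rfl⟩
  obtain ⟨Vv, hVv⟩ : ∃ Vv : (κ → ℤ) → ℝ, Vv = fun t => inner ℝ (b.vec I t) x - U t := ⟨_, rfl⟩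
  have g1 : ‖charFun (lw (fun t : kbox b.N b.L => b.vec I t) : Measure (EuclideanSpace ℝ I)) x -
      av (fun t : kbox b.N b.L => Complex.exp ((U t : ℂ) * Complex.I))‖ ≤ ε / 3 := by
    rw [chr_lw, ← av_sub]
    refine (norm_av_le _).trans ?_
    have h2 : ∀ t : kbox b.N b.L, ‖Complex.exp (((inner ℝ (b.vec I t) x : ℝ) : ℂ) * Complex.I) -
        Complex.exp ((U t : ℂ) * Complex.I)‖ ≤ |Vv t| := by
      intro t
      have h3 : (inner ℝ (b.vec I t) x : ℝ) = Vv t + U t := by rw [hVv]; ring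
      rw [h3]
      exact norm_exp_sub _ _
    refine (av_mono h2).trans ?_
    -- the formula
    have h3 : ∀ t : κ → ℤ, Vv t = (∑ s : I, x s * ((b.F (a s) t - ∑ p ∈ PP (a s), b.H p (fun i => (t i : ZMod p))) +
        ((∑ p ∈ PP (a s), mn b.H p - κ₀ * Real.log (Real.log (a s))) +
          κ₀ * (Real.log (Real.log (a s)) - (s : ℝ≥0) * ll)))) / D := by
      intro t
      have h4 : (inner ℝ (b.vec I t) x : ℝ) = (∑ s : I, x s * (b.F (a s) t - κ₀ * (s : ℝ≥0) * ll)) / D := by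
        rw [PiLp.inner_apply, sum_div]
        refine sum_congr rfl fun s _ => ?_
        rw [RCLike.inner_apply, conj_trivial]
        unfold Dat.vec
        rw [← hll, ← hD, ha]
        ring
      rw [hVv]
      show (inner ℝ (b.vec I t) x : ℝ) - U t = _
      rw [h4, hU, hw]
      show _ - (∑ p ∈ PP b.X, wt a x p * (b.H p (fun i => (t i : ZMod p)) - mn b.H p)) / D = _
      rw [wt_sum a haX, ← sub_div, ← sum_sub_distrib]
      congr 1
      refine sum_congr rfl fun s _ => ?_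
      rw [sum_sub_distrib]
      ring
    have h4 : ∀ t : kbox b.N b.L, |Vv t| ≤ D⁻¹ * ((∑ s : I, |x s| * |b.F (a s) t - ∑ p ∈ PP (a s), b.H p (fun i => ((t : κ → ℤ) i : ZMod p))|) +
        R * (|M| + |κ₀|)) := by
      intro t
      rw [h3, abs_div, abs_of_pos (by linarith : 0 < D), div_eq_inv_mul]
      refine mul_le_mul_of_nonneg_left ?_ (by positivity)
      refine (abs_sum_le_sum_abs _ _).trans ?_
      have h5 : ∀ s : I, |x s * ((b.F (a s) t - ∑ p ∈ PP (a s), b.H p (fun i => ((t : κ → ℤ) i : ZMod p))) +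
        ((∑ p ∈ PP (a s), mn b.H p - κ₀ * Real.log (Real.log (a s))) +
          κ₀ * (Real.log (Real.log (a s)) - (s : ℝ≥0) * ll)))| ≤
          |x s| * |b.F (a s) t - ∑ p ∈ PP (a s), b.H p (fun i => ((t : κ → ℤ) i : ZMod p))| + |x s| * (|M| + |κ₀|) := by
        intro s
        rw [abs_mul, ← mul_add]
        refine mul_le_mul_of_nonneg_left ?_ (abs_nonneg _)
        refine (abs_add_le _ _).trans (add_le_add le_rfl ((abs_add_le _ _).trans (add_le_add ?_ ?_)))
        · exact (b.h2 (a s) (ha3 s)).trans (le_abs_self _)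
        · rw [abs_mul]
          calc |κ₀| * _ ≤ |κ₀| * 1 := mul_le_mul_of_nonneg_left (hal s) (abs_nonneg _)
            _ = _ := mul_one _
      refine (sum_le_sum fun s _ => h5 s).trans ?_
      rw [sum_add_distrib, ← sum_mul]
      refine add_le_add le_rfl (mul_le_mul_of_nonneg_right ?_ (by positivity))
      rw [hR]
      linarith
    refine (av_mono h4).trans ?_
    rw [av_mul, av_add, av_const, av_sum]
    have h5 : ∑ s : I, av (fun t : kbox b.N b.L => |x s| * |b.F (a s) t - ∑ p ∈ PP (a s), b.H p (fun i => ((t : κ → ℤ) i : ZMod p))|) ≤ R * |M| := by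
      have h6 : ∀ s : I, av (fun t : kbox b.N b.L => |x s| * |b.F (a s) t - ∑ p ∈ PP (a s), b.H p (fun i => ((t : κ → ℤ) i : ZMod p))|) ≤ |x s| * |M| := by
        intro s
        rw [av_mul]
        exact mul_le_mul_of_nonneg_left ((b.hF (a s) (ha3 s) (haX s)).trans (le_abs_self _)) (abs_nonneg _)
      refine (sum_le_sum fun s _ => h6 s).trans ?_
      rw [← sum_mul]
      refine mul_le_mul_of_nonneg_right ?_ hM0
      rw [hR]
      linarith
    rw [inv_mul_le_iff₀ (by linarith)]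
    have h7 : 3 * D₁ / ε ≤ D := by linarith
    rw [div_le_iff₀ hε, hD₁] at h7
    nlinarith
  have g2 : ‖Complex.exp ((-((∑ p ∈ PP b.X, w p ^ 2 * vr b.H p) / (2 * ll)) : ℝ) : ℂ) -
      charFun (nuE I : Measure (EuclideanSpace ℝ I)) x‖ ≤ ε / 3 := by
    rw [chr_nuE]
    obtain ⟨q, hq⟩ : ∃ q : ℝ, q = ∑ s : I, ∑ t : I, x s * x t * ((min (s : ℝ≥0) (t : ℝ≥0) : ℝ≥0) : ℝ) := ⟨_, rfl⟩
    rw [← hq]
    have hq0 : 0 ≤ q := by
      have h2 := norm_charFun_le_one (μ := (nuE I : Measure (EuclideanSpace ℝ I))) x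
      rw [chr_nuE, ← hq, ← Complex.ofReal_exp, Complex.norm_real, Real.norm_of_nonneg (Real.exp_pos _).le,
        Real.exp_le_one_iff] at h2
      linarith
    obtain ⟨u, hu⟩ : ∃ u : ℝ, u = ∑ p ∈ PP b.X, w p ^ 2 * vr b.H p := ⟨_, rfl⟩
    rw [← hu]
    have hvr : ∀ p ∈ PP b.X, 0 ≤ vr b.H p := by
      intro p hp
      have : Fact p.Prime := ⟨(mem_filter.1 hp).2⟩
      unfold vr
      rw [mn_eq, mn_eq]
      have h4 : 0 ≤ av (fun u => (b.H p u - av (b.H p)) ^ 2) := av_nonneg fun u => sq_nonneg _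
      have h5 : (fun u => (b.H p u - av (b.H p)) ^ 2) = fun u => b.H p u ^ 2 - ((2 * av (b.H p)) * b.H p u - av (b.H p) ^ 2) := by
        funext u
        ring
      rw [h5, av_sub, av_sub, av_mul, av_const] at h4
      linarith
    have hu0 : 0 ≤ u := by
      rw [hu]
      exact sum_nonneg fun p hp => mul_nonneg (sq_nonneg _) (hvr p hp)
    have hclose : |u - q * ll| ≤ D₂ := by
      rw [hu, hw, wt_sq a haX, hq, sum_mul, ← sum_sub_distrib]
      refine (abs_sum_le_sum_abs _ _).trans ?_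
      have h2 : ∀ s : I, |∑ t : I, x s * x t * ∑ p ∈ PP (min (a s) (a t)), vr b.H p -
          (∑ t : I, x s * x t * ((min (s : ℝ≥0) (t : ℝ≥0) : ℝ≥0) : ℝ)) * ll| ≤ |x s| * (R * (|M| + 1)) := by
        intro s
        rw [sum_mul, ← sum_sub_distrib]
        refine (abs_sum_le_sum_abs _ _).trans ?_
        have h3 : ∀ t : I, |x s * x t * ∑ p ∈ PP (min (a s) (a t)), vr b.H p - x s * x t * ((min (s : ℝ≥0) (t : ℝ≥0) : ℝ≥0) : ℝ) * ll| ≤
            |x s| * (|x t| * (|M| + 1)) := by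
          intro t
          have h4 : x s * x t * ∑ p ∈ PP (min (a s) (a t)), vr b.H p - x s * x t * ((min (s : ℝ≥0) (t : ℝ≥0) : ℝ≥0) : ℝ) * ll =
              x s * (x t * (∑ p ∈ PP (min (a s) (a t)), vr b.H p - ((min (s : ℝ≥0) (t : ℝ≥0) : ℝ≥0) : ℝ) * ll)) := by ring
          rw [h4, abs_mul, abs_mul]
          refine mul_le_mul_of_nonneg_left (mul_le_mul_of_nonneg_left ?_ (abs_nonneg _)) (abs_nonneg _)
          have h5 := (b.h3 (min (a s) (a t)) (le_min (ha3 s) (ha3 t))).trans (le_abs_self M)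
          have h6 : |Real.log (Real.log ((min (a s) (a t) : ℕ) : ℝ)) - ((min (s : ℝ≥0) (t : ℝ≥0) : ℝ≥0) : ℝ) * ll| ≤ 1 := by
            have hmono : ∀ n m : ℕ, 3 ≤ n → n ≤ m → Real.log (Real.log n) ≤ Real.log (Real.log m) := by
              intro n m hn hnm
              have h7 : (3 : ℝ) ≤ n := by exact_mod_cast hn
              have h8 : (n : ℝ) ≤ m := by exact_mod_cast hnm
              exact Real.log_le_log (Real.log_pos (by linarith)) (Real.log_le_log (by linarith) h8)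
            have h7 : Real.log (Real.log ((min (a s) (a t) : ℕ) : ℝ)) = min (Real.log (Real.log (a s))) (Real.log (Real.log (a t))) := by
              rcases le_total (a s) (a t) with h8 | h8
              · rw [min_eq_left h8, min_eq_left (hmono _ _ (ha3 s) h8)]
              · rw [min_eq_right h8, min_eq_right (hmono _ _ (ha3 t) h8)]
            have h8 : ((min (s : ℝ≥0) (t : ℝ≥0) : ℝ≥0) : ℝ) * ll = min ((s : ℝ≥0) * ll) ((t : ℝ≥0) * ll) := by
              rw [NNReal.coe_min, min_mul_of_nonneg _ _ (by linarith)]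
            rw [h7, h8]
            exact (abs_min_sub_min_le_max _ _ _ _).trans (max_le (hal s) (hal t))
          have h7 := abs_add_le (∑ p ∈ PP (min (a s) (a t)), vr b.H p - Real.log (Real.log ((min (a s) (a t) : ℕ) : ℝ)))
            (Real.log (Real.log ((min (a s) (a t) : ℕ) : ℝ)) - ((min (s : ℝ≥0) (t : ℝ≥0) : ℝ≥0) : ℝ) * ll)
          rw [sub_add_sub_cancel] at h7
          linarith
        refine (sum_le_sum fun t _ => h3 t).trans ?_
        rw [← mul_sum, ← sum_mul]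
        refine mul_le_mul_of_nonneg_left (mul_le_mul_of_nonneg_right ?_ (by positivity)) (abs_nonneg _)
        rw [hR]
        linarith
      refine (sum_le_sum fun s _ => h2 s).trans ?_
      rw [← sum_mul, hD₂, sq, mul_assoc]
      refine mul_le_mul_of_nonneg_right ?_ (by positivity)
      rw [hR]
      linarith
    rw [← Complex.ofReal_exp, ← Complex.ofReal_exp, ← Complex.ofReal_sub, Complex.norm_real, Real.norm_eq_abs]
    refine (exp_sub_exp (by positivity) (by positivity)).trans ?_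
    have h2 : u / (2 * ll) - q / 2 = (u - q * ll) / (2 * ll) := by
      field_simp
    rw [h2, abs_div, abs_of_pos (by linarith : 0 < 2 * ll), div_le_iff₀ (by linarith)]
    refine hclose.trans ?_
    have h7 : 3 * D₂ / ε ≤ ll := by linarith
    rw [div_le_iff₀ hε] at h7
    nlinarith
  have h1' : ‖av (fun t : kbox b.N b.L => Complex.exp ((U t : ℂ) * Complex.I)) -
      Complex.exp ((-((∑ p ∈ PP b.X, w p ^ 2 * vr b.H p) / (2 * ll)) : ℝ) : ℂ)‖ ≤ ε / 3 := by
    rw [hU]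
    exact h1
  have t1 := norm_sub_le_norm_sub_add_norm_sub (charFun (lw (fun t : kbox b.N b.L => b.vec I t) : Measure (EuclideanSpace ℝ I)) x)
    (av (fun t : kbox b.N b.L => Complex.exp ((U t : ℂ) * Complex.I))) (charFun (nuE I : Measure (EuclideanSpace ℝ I)) x)
  have t2 := norm_sub_le_norm_sub_add_norm_sub (av (fun t : kbox b.N b.L => Complex.exp ((U t : ℂ) * Complex.I)))
    (Complex.exp ((-((∑ p ∈ PP b.X, w p ^ 2 * vr b.H p) / (2 * ll)) : ℝ) : ℂ)) (charFun (nuE I : Measure (EuclideanSpace ℝ I)) x)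
  linarith

open Classical in
/-- convergence to the finite-dimensional distributions of the Brownian motion -/
theorem brown (hB : 0 < B) (I : Finset ℝ≥0) (hI : ∀ s ∈ I, 0 < s ∧ s ≤ 1) (x : I → ℝ) (ε : ℝ) (hε : 0 < ε) :
    ∃ X₁ : ℕ, ∀ b : Dat κ B κ₀ M, X₁ ≤ b.X →
      |(((kbox b.N b.L).filter fun t => ∀ s : I, (b.F (tm b.X s) t - κ₀ * (s : ℝ≥0) * Real.log (Real.log b.X)) /
        Real.sqrt (Real.log (Real.log b.X)) ≤ x s).card : ℝ) / ∏ i, (b.L i : ℝ) - W I x| ≤ ε := by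
  obtain ⟨X₁, h⟩ := levy (fun b : Dat κ B κ₀ M => b.X) (fun b => lw (fun t : kbox b.N b.L => b.vec I t)) (nuE I)
    (fun y δ hδ => chr_dat hB I hI y δ hδ) (orth_frontier I (fun s hs => (hI s hs).1) x) hε
  refine ⟨X₁, fun b hb => ?_⟩
  have h1 := h b hb
  rw [lw_real _ (orth_closed I x).measurableSet, ← W_eq] at h1
  have h2 : ((univ.filter fun t : kbox b.N b.L => b.vec I t ∈ orth I x).card : ℝ) =
      (((kbox b.N b.L).filter fun t => ∀ s : I, (b.F (tm b.X s) t - κ₀ * (s : ℝ≥0) * Real.log (Real.log b.X)) /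
        Real.sqrt (Real.log (Real.log b.X)) ≤ x s).card : ℝ) := by
    congr 1
    refine card_bij (fun t _ => t.1) ?_ ?_ ?_
    · intro t ht
      rw [mem_filter] at ht ⊢
      exact ⟨t.2, ht.2⟩
    · intro t _ t' _ h3
      exact Subtype.ext h3
    · intro t ht
      rw [mem_filter] at ht
      refine ⟨⟨t, ht.1⟩, ?_, rfl⟩
      rw [mem_filter]
      exact ⟨mem_univ _, ht.2⟩
  have h3 : (Fintype.card (kbox b.N b.L) : ℝ) = ∏ i, (b.L i : ℝ) := by
    rw [Fintype.card_coe]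
    unfold kbox
    rw [Fintype.card_piFinset]
    push_cast
    refine prod_congr rfl fun i _ => ?_
    rw [Int.card_Ico, add_sub_cancel_left, Int.toNat_natCast]
  rw [h2, h3] at h1
  exact h1

end main

end Q282.CL
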