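import Pool.Agent.Q282.CL.Chr
import Pool.Agent.Q282.BP.Mom

/-!
# Characteristic functions and second moments of sums of periodic functions over boxes
-/

set_option autoImplicit false

namespace Q282.CL

open Finset
open Q282.BP (bx mem_bx card_bx bx_mean mean_mul_period)
open Pool.Agent.TH894.NE (box mem_box card_box Per mean mean_mul mean_mono mean_prod)

lemma av_bx {d : ℕ} (L : Fin d → ℕ) (f : (Fin d → ℕ) → ℝ) :
    av (fun n : bx L => f n) = (∑ n ∈ bx L, f n) / ∏ i, (L i : ℝ) := by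
  unfold av
  rw [Finset.sum_coe_sort (bx L) f, Fintype.card_coe, card_bx]
  push_cast
  rfl

lemma av_box {d p : ℕ} (f : (Fin d → ℕ) → ℝ) : av (fun n : box d p => f n) = mean d p f := by
  unfold av Pool.Agent.TH894.NE.mean
  rw [Finset.sum_coe_sort (box d p) f, Fintype.card_coe, card_box]
  push_cast
  ring

section

variable {d : ℕ} {g : ℕ → (Fin d → ℕ) → ℝ} {S : Finset ℕ}

/-- the monomials -/
lemma mono_bx (hS : ∀ p ∈ S, p.Prime) (hg : ∀ p ∈ S, Per p (g p)) {C : ℝ}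
    (hgC : ∀ p ∈ S, ∀ n, |g p n| ≤ C) {Y : ℕ} (hY : ∀ p ∈ S, p ≤ Y) {T : ℝ} (hT0 : 0 < T)
    {L : Fin d → ℕ} (hL : ∀ i, T ≤ L i) {m : ℕ} (τ : Fin m → S) :
    |av (fun n : bx L => ∏ j, g (τ j) n) - av (fun ω : ∀ p : S, box d p => ∏ j, g (τ j) (ω (τ j)))| ≤
      C ^ m * (Real.exp (d * (Y : ℝ) ^ m / T) - 1) := by
  classical
  have hL0 : ∀ i, (0 : ℝ) < L i := fun i => hT0.trans_le (hL i)
  have hP0 : 0 < ∏ i, (L i : ℝ) := prod_pos fun i _ => hL0 i
  have hprime : ∀ p : S, (p : ℕ).Prime := fun p => hS p p.2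
  obtain ⟨Q, hQ⟩ : ∃ Q : ℕ, Q = ∏ p : S, (p : ℕ) := ⟨_, rfl⟩
  have hQ0 : 0 < Q := by
    rw [hQ]
    exact prod_pos fun p _ => (hprime p).pos
  obtain ⟨q, hq⟩ : ∃ q : ℕ, q = ∏ k, ((τ k : S) : ℕ) := ⟨_, rfl⟩
  have hq0 : 0 < q := by
    rw [hq]
    exact prod_pos fun k _ => (hprime _).pos
  obtain ⟨e, he⟩ : ∃ e : S → ℕ, ∀ p, e p = (univ.filter fun k => τ k = p).card := ⟨_, fun _ => rfl⟩
  have hfib : ∀ f : S → ℝ, ∏ j, f (τ j) = ∏ p : S, f p ^ e p := by
    intro f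
    rw [← Finset.prod_fiberwise' univ τ f]
    refine prod_congr rfl fun p _ => ?_
    rw [prod_const, he]
  -- the model
  have h1 : av (fun ω : ∀ p : S, box d p => ∏ j, g (τ j) (ω (τ j))) = mean d Q (fun n => ∏ j, g (τ j) n) := by
    have h2 : (fun ω : ∀ p : S, box d p => ∏ j, g (τ j) (ω (τ j))) =
        fun ω => ∏ p : S, (fun (p : S) (n : box d p) => g p n ^ e p) p (ω p) := by
      funext ω
      exact hfib fun p => g p (ω p)
    have h3 : (fun n : Fin d → ℕ => ∏ j, g (τ j) n) = fun n => ∏ p ∈ (univ : Finset S), (fun (p : S) n => g p n ^ e p) p n := by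
      funext n
      exact hfib fun p => g p n
    rw [h2, av_pi (fun (p : S) (n : box d p) => g p n ^ e p), h3, hQ]
    rw [mean_prod (univ : Finset S) (fun p => (p : ℕ)) (fun p _ => (hprime p).one_lt.le)
      (fun p _ p' _ hne => (Nat.coprime_primes (hprime p) (hprime p')).2 fun h => hne (Subtype.ext h))
      (fun (p : S) n => g p n ^ e p) (fun p _ n => by
        show g p n ^ e p = g p (fun i => n i % (p : ℕ)) ^ e p
        rw [← hg p p.2 n])]
    refine prod_congr rfl fun p _ => ?_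
    exact av_box (fun n => g p n ^ e p)
  -- the box
  have hper : Per q (fun n => ∏ k, g (τ k) n) := by
    intro n
    refine prod_congr rfl fun k _ => ?_
    exact (hg _ (τ k).2).of_dvd (by rw [hq]; exact dvd_prod_of_mem (fun k => ((τ k : S) : ℕ)) (mem_univ k)) n
  have hperQ : Per Q (fun n => ∏ k, g (τ k) n) := by
    intro n
    refine prod_congr rfl fun k _ => ?_
    exact (hg _ (τ k).2).of_dvd (by rw [hQ]; exact dvd_prod_of_mem (fun p : S => (p : ℕ)) (mem_univ (τ k))) n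
  have hmean : mean d q (fun n => ∏ k, g (τ k) n) = mean d Q (fun n => ∏ k, g (τ k) n) := by
    rw [← mean_mul_period hq0 Q hQ0 _ hper, mul_comm, mean_mul_period hQ0 q hq0 _ hperQ]
  have hM : ∀ n, |∏ k, g (τ k) n| ≤ C ^ m := by
    intro n
    rw [abs_prod]
    calc ∏ k, |g (τ k) n| ≤ ∏ _k : Fin m, C := prod_le_prod (fun k _ => abs_nonneg _) fun k _ => hgC _ (τ k).2 n
      _ = C ^ m := by rw [prod_const, card_univ, Fintype.card_fin]
  have h5 := bx_mean hq0 L T hT0 hL _ hper (C ^ m) hM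
  rw [hmean, ← h1] at h5
  have hC0 : 0 ≤ C ^ m := (abs_nonneg _).trans (hM 0)
  have hqY : (q : ℝ) ≤ (Y : ℝ) ^ m := by
    have : q ≤ Y ^ m := by
      rw [hq]
      calc ∏ k, ((τ k : S) : ℕ) ≤ ∏ _k : Fin m, Y := prod_le_prod' fun k _ => hY _ (τ k).2
        _ = Y ^ m := by rw [prod_const, card_univ, Fintype.card_fin]
    exact_mod_cast this
  have h6 : Real.exp (d * q / T) - 1 ≤ Real.exp (d * (Y : ℝ) ^ m / T) - 1 := by
    have : (d : ℝ) * q / T ≤ d * (Y : ℝ) ^ m / T :=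
      div_le_div_of_nonneg_right (mul_le_mul_of_nonneg_left hqY (Nat.cast_nonneg _)) hT0.le
    linarith [Real.exp_le_exp.2 this]
  rw [av_bx L (fun n => ∏ j, g (τ j) n)]
  have h7 : (∑ n ∈ bx L, ∏ j, g (τ j) n) / ∏ i, (L i : ℝ) - av (fun ω : ∀ p : S, box d p => ∏ j, g (τ j) (ω (τ j))) =
      (∑ n ∈ bx L, ∏ j, g (τ j) n - (∏ i, (L i : ℝ)) * av (fun ω : ∀ p : S, box d p => ∏ j, g (τ j) (ω (τ j)))) /
        ∏ i, (L i : ℝ) := by
    rw [sub_div, mul_div_cancel_left₀ _ hP0.ne']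
  rw [h7, abs_div, abs_of_pos hP0, div_le_iff₀ hP0]
  refine h5.trans ?_
  rw [mul_comm]
  exact mul_le_mul_of_nonneg_right (mul_le_mul_of_nonneg_left h6 hC0) hP0.le

lemma box_nonempty (hS : ∀ p ∈ S, p.Prime) (p : S) : Nonempty (box d p) :=
  ⟨⟨fun _ => 0, mem_box.2 fun _ => (hS p p.2).pos⟩⟩

lemma bx_nonempty {L : Fin d → ℕ} (hL0 : ∀ i, 0 < L i) : Nonempty (bx L) := ⟨⟨fun _ => 0, mem_bx.2 hL0⟩⟩

/-- the characteristic function -/
theorem chr_bx (hS : ∀ p ∈ S, p.Prime) (hg : ∀ p ∈ S, Per p (g p)) (hg0 : ∀ p ∈ S, mean d p (g p) = 0)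
    {b : ℕ → ℝ} (hb0 : ∀ p ∈ S, 0 ≤ b p) (hb : ∀ p ∈ S, ∀ n, |g p n| ≤ b p) {C : ℝ} (hC : 1 ≤ C) (hbC : ∀ p ∈ S, b p ≤ C)
    {Y : ℕ} (hY1 : 1 ≤ Y) (hY : ∀ p ∈ S, p ≤ Y) {V : ℝ} (hV : 0 < V) (hbV : ∑ p ∈ S, b p ^ 2 ≤ V) {k : ℕ} (hk : 1 ≤ k)
    {T : ℝ} (hT0 : 0 < T) {L : Fin d → ℕ} (hL : ∀ i, T ≤ L i) :
    ‖av (fun n : bx L => Complex.exp ((∑ p ∈ S, g p n : ℝ) * Complex.I)) -
      Complex.exp ((-((∑ p ∈ S, mean d p (fun n => g p n ^ 2)) / 2) : ℝ) : ℂ)‖ ≤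
      4 * (Real.exp 1 * V / k) ^ k +
        (2 * k + 1) * ((Y : ℝ) + 1) ^ (2 * k) * (C ^ (2 * k) * (Real.exp (d * (Y : ℝ) ^ (2 * k) / T) - 1)) +
        ∑ p ∈ S, (b p ^ 3 + b p ^ 4) := by
  classical
  have hL0 : ∀ i, 0 < L i := fun i => by
    have : (0 : ℝ) < L i := hT0.trans_le (hL i)
    exact_mod_cast this
  have : Nonempty (bx L) := bx_nonempty hL0
  have : ∀ p : S, Nonempty (box d p) := box_nonempty hS
  obtain ⟨η, hη⟩ : ∃ η : ℝ, η = C ^ (2 * k) * (Real.exp (d * (Y : ℝ) ^ (2 * k) / T) - 1) := ⟨_, rfl⟩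
  have hη0 : 0 ≤ η := by
    rw [hη]
    refine mul_nonneg (by positivity) ?_
    have : 0 ≤ (d : ℝ) * (Y : ℝ) ^ (2 * k) / T := by positivity
    linarith [Real.one_le_exp this]
  have hY1' : (1 : ℝ) ≤ Y := by exact_mod_cast hY1
  have h := chr_normal (α := bx L) (ι := S) (Ω := fun p : S => box d p) (fun p n => g p n) (fun p n => g p n)
    (fun p => by rw [av_box (g p), hg0 p p.2]) (b := fun p => b p) (fun p => hb0 p p.2) (fun p n => hb p p.2 n) hV
    (by rw [Finset.sum_coe_sort S (fun p => b p ^ 2)]; exact hbV) hη0 hk (by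
      intro m hm τ
      refine (mono_bx hS hg (fun p hp n => (hb p hp n).trans (hbC p hp)) hY hT0 hL τ).trans ?_
      rw [hη]
      have h1 : Real.exp (d * (Y : ℝ) ^ m / T) - 1 ≤ Real.exp (d * (Y : ℝ) ^ (2 * k) / T) - 1 := by
        have : (d : ℝ) * (Y : ℝ) ^ m / T ≤ d * (Y : ℝ) ^ (2 * k) / T :=
          div_le_div_of_nonneg_right (mul_le_mul_of_nonneg_left (pow_le_pow_right₀ hY1' hm) (Nat.cast_nonneg _)) hT0.le
        linarith [Real.exp_le_exp.2 this]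
      have h2 : 0 ≤ Real.exp (d * (Y : ℝ) ^ m / T) - 1 := by
        have : 0 ≤ (d : ℝ) * (Y : ℝ) ^ m / T := by positivity
        linarith [Real.one_le_exp this]
      exact mul_le_mul (pow_le_pow_right₀ hC hm) h1 h2 (by positivity))
  have e1 : ∀ n, ∑ p : S, g p n = ∑ p ∈ S, g p n := fun n => Finset.sum_coe_sort S (fun p => g p n)
  have e2 : ∑ p : S, av (fun n : box d p => g p n ^ 2) = ∑ p ∈ S, mean d p (fun n => g p n ^ 2) := by
    rw [← Finset.sum_coe_sort S (fun p => mean d p (fun n => g p n ^ 2))]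
    exact sum_congr rfl fun p _ => av_box (fun n => g p n ^ 2)
  have e3 : ∑ p : S, (b p ^ 3 + b p ^ 4) = ∑ p ∈ S, (b p ^ 3 + b p ^ 4) := Finset.sum_coe_sort S (fun p => b p ^ 3 + b p ^ 4)
  simp only [e1] at h
  rw [e2, e3, Fintype.card_coe] at h
  refine h.trans ?_
  have hcard : (S.card : ℝ) ≤ Y := by
    have : S.card ≤ Y := by
      calc S.card ≤ (Icc 1 Y).card := card_le_card fun p hp => by
            rw [mem_Icc]
            exact ⟨(hS p hp).one_lt.le, hY p hp⟩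
        _ = Y := by rw [Nat.card_Icc, Nat.add_sub_cancel]
    exact_mod_cast this
  rw [← hη]
  have h3 : (2 * (k : ℝ) + 1) * ((S.card : ℝ) + 1) ^ (2 * k) * η ≤ (2 * k + 1) * ((Y : ℝ) + 1) ^ (2 * k) * η := by
    refine mul_le_mul_of_nonneg_right (mul_le_mul_of_nonneg_left ?_ (by positivity)) hη0
    exact pow_le_pow_left₀ (by positivity) (by linarith) _
  linarith

/-- the second moment -/
theorem sq_bx (hS : ∀ p ∈ S, p.Prime) (hg : ∀ p ∈ S, Per p (g p)) (hg0 : ∀ p ∈ S, mean d p (g p) = 0)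
    {b : ℕ → ℝ} (hb0 : ∀ p ∈ S, 0 ≤ b p) (hb : ∀ p ∈ S, ∀ n, |g p n| ≤ b p) {C : ℝ} (hC : 1 ≤ C) (hbC : ∀ p ∈ S, b p ≤ C)
    {Y : ℕ} (hY : ∀ p ∈ S, p ≤ Y)
    {T : ℝ} (hT0 : 0 < T) {L : Fin d → ℕ} (hL : ∀ i, T ≤ L i) :
    av (fun n : bx L => (∑ p ∈ S, g p n) ^ 2) ≤
      ∑ p ∈ S, b p ^ 2 + (Y : ℝ) ^ 2 * (C ^ 2 * (Real.exp (d * (Y : ℝ) ^ 2 / T) - 1)) := by
  classical
  have hL0 : ∀ i, 0 < L i := fun i => by
    have : (0 : ℝ) < L i := hT0.trans_le (hL i)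
    exact_mod_cast this
  have : Nonempty (bx L) := bx_nonempty hL0
  have : ∀ p : S, Nonempty (box d p) := box_nonempty hS
  obtain ⟨η, hη⟩ : ∃ η : ℝ, η = C ^ 2 * (Real.exp (d * (Y : ℝ) ^ 2 / T) - 1) := ⟨_, rfl⟩
  have hη0 : 0 ≤ η := by
    rw [hη]
    refine mul_nonneg (by positivity) ?_
    have : 0 ≤ (d : ℝ) * (Y : ℝ) ^ 2 / T := by positivity
    linarith [Real.one_le_exp this]
  have h := mom_transfer (α := bx L) (ι := S) (Ω := fun p : S => box d p) (m := 2) (fun p n => g p n) (fun p n => g p n)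
    (η := η) (by
      intro τ
      refine (mono_bx hS hg (fun p hp n => (hb p hp n).trans (hbC p hp)) hY hT0 hL τ).trans ?_
      rw [hη])
  have e1 : ∀ n, ∑ p : S, g p n = ∑ p ∈ S, g p n := fun n => Finset.sum_coe_sort S (fun p => g p n)
  simp only [e1] at h
  rw [Fintype.card_coe] at h
  have hcard : (S.card : ℝ) ≤ Y := by
    have : S.card ≤ Y := by
      calc S.card ≤ (Icc 1 Y).card := card_le_card fun p hp => by
            rw [mem_Icc]
            exact ⟨(hS p hp).one_lt.le, hY p hp⟩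
        _ = Y := by rw [Nat.card_Icc, Nat.add_sub_cancel]
    exact_mod_cast this
  have h2 : av (fun ω : ∀ p : S, box d p => (∑ p : S, g p (ω p)) ^ 2) ≤ ∑ p ∈ S, b p ^ 2 := by
    have h3 : (fun ω : ∀ p : S, box d p => (∑ p : S, g p (ω p)) ^ 2) =
        fun ω => ∑ p : S, ∑ p' : S, g p (ω p) * g p' (ω p') := by
      funext ω
      rw [sq, sum_mul_sum]
    rw [h3, av_sum, ← Finset.sum_coe_sort S (fun p => b p ^ 2)]
    refine sum_le_sum fun p _ => ?_
    rw [av_sum, sum_eq_single_of_mem p (mem_univ p)]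
    · refine (av_mono (g := fun _ => b p ^ 2) fun ω => ?_).trans (le_of_eq ?_)
      · rw [← sq, ← sq_abs]
        exact pow_le_pow_left₀ (abs_nonneg _) (hb p p.2 _) 2
      · exact av_const _
    · intro p' _ hne
      have h4 : (fun ω : ∀ p : S, box d p => g p (ω p) * g p' (ω p')) =
          fun ω => ∏ r : S, (fun (r : S) (n : box d r) => (if r = p then g r n else 1) * (if r = p' then g r n else 1)) r (ω r) := by
        funext ω
        show _ = ∏ r : S, ((if r = p then g r (ω r) else 1) * (if r = p' then g r (ω r) else 1))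
        rw [prod_mul_distrib, prod_ite_eq' univ p, prod_ite_eq' univ p', if_pos (mem_univ _), if_pos (mem_univ _)]
      rw [h4, av_pi (fun (r : S) (n : box d r) => (if r = p then g r n else 1) * (if r = p' then g r n else 1))]
      refine prod_eq_zero (mem_univ p) ?_
      have h5 : (fun n : box d p => (if p = p then g p n else 1) * (if p = p' then g p n else 1)) = fun n : box d p => g p n := by
        funext n
        rw [if_pos rfl, if_neg fun h => hne h.symm, mul_one]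
      rw [h5, av_box (g p), hg0 p p.2]
  have h3 := (abs_le.1 h).2
  have h4 : (S.card : ℝ) ^ 2 * η ≤ (Y : ℝ) ^ 2 * η := mul_le_mul_of_nonneg_right (pow_le_pow_left₀ (Nat.cast_nonneg _) hcard 2) hη0
  rw [← hη]
  linarith

end

end Q282.CL
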