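import Pool.Agent.Q282.CL.Abs

/-!
# Characteristic functions of sums of independent functions, and of sums with nearly independent moments
-/

set_option autoImplicit false

namespace Q282.CL

open Finset

lemma norm_prod_sub {ι : Type} [DecidableEq ι] (s : Finset ι) (a c : ι → ℂ) (ha : ∀ i ∈ s, ‖a i‖ ≤ 1) (hc : ∀ i ∈ s, ‖c i‖ ≤ 1) :
    ‖∏ i ∈ s, a i - ∏ i ∈ s, c i‖ ≤ ∑ i ∈ s, ‖a i - c i‖ := by
  induction s using Finset.induction_on with
  | empty => simp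
  | insert i s hi ih =>
    rw [prod_insert hi, prod_insert hi, sum_insert hi]
    have h1 : a i * ∏ i ∈ s, a i - c i * ∏ i ∈ s, c i =
        (a i - c i) * ∏ i ∈ s, a i + c i * (∏ i ∈ s, a i - ∏ i ∈ s, c i) := by ring
    rw [h1]
    refine (norm_add_le _ _).trans ?_
    rw [norm_mul, norm_mul]
    have h2 : ‖∏ i ∈ s, a i‖ ≤ 1 := by
      rw [norm_prod]
      exact prod_le_one (fun _ _ => norm_nonneg _) fun j hj => ha j (mem_insert_of_mem hj)
    have h3 := ih (fun j hj => ha j (mem_insert_of_mem hj)) (fun j hj => hc j (mem_insert_of_mem hj))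
    have h4 := hc i (mem_insert_self _ _)
    calc ‖a i - c i‖ * ‖∏ i ∈ s, a i‖ + ‖c i‖ * ‖∏ i ∈ s, a i - ∏ i ∈ s, c i‖ ≤
        ‖a i - c i‖ * 1 + 1 * ∑ i ∈ s, ‖a i - c i‖ :=
          add_le_add (mul_le_mul_of_nonneg_left h2 (norm_nonneg _)) (mul_le_mul h4 h3 (norm_nonneg _) zero_le_one)
      _ = _ := by ring

lemma exp_neg_bound {y : ℝ} (hy : 0 ≤ y) : |Real.exp (-y) - (1 - y)| ≤ y ^ 2 := by
  rcases le_or_gt y 1 with h | h
  · have h1 := Real.abs_exp_sub_one_sub_id_le (x := -y) (by rw [abs_neg, abs_of_nonneg hy]; exact h)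
    rw [neg_sq] at h1
    rwa [show Real.exp (-y) - (1 - y) = Real.exp (-y) - 1 - -y by ring]
  · have h1 : Real.exp (-y) ≤ 1 := Real.exp_le_one_iff.2 (by linarith)
    have h2 := Real.exp_pos (-y)
    rw [abs_le]
    constructor <;> nlinarith

section

variable {α : Type} [Fintype α] [Nonempty α]

lemma norm_av_exp_le (f : α → ℝ) : ‖av (fun a => Complex.exp (f a * Complex.I))‖ ≤ 1 := by
  refine (norm_av_le _).trans (le_of_eq ?_)
  have : (fun a => ‖Complex.exp (f a * Complex.I)‖) = fun _ => (1 : ℝ) := by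
    funext a
    exact Complex.norm_exp_ofReal_mul_I _
  rw [this, av_const]

lemma one_var (Z : α → ℝ) (h0 : av Z = 0) {b : ℝ} (hb0 : 0 ≤ b) (hb : ∀ a, |Z a| ≤ b) :
    ‖av (fun a => Complex.exp (Z a * Complex.I)) - Complex.exp ((-(av (fun a => Z a ^ 2) / 2) : ℝ) : ℂ)‖ ≤ b ^ 3 + b ^ 4 := by
  obtain ⟨v, hv⟩ : ∃ v : ℝ, v = av (fun a => Z a ^ 2) := ⟨_, rfl⟩
  have hv0 : 0 ≤ v := by
    rw [hv]
    exact av_nonneg fun a => sq_nonneg _
  have hvb : v ≤ b ^ 2 := by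
    rw [hv]
    refine (av_mono (g := fun _ => b ^ 2) fun a => ?_).trans (le_of_eq (av_const _))
    rw [← sq_abs]
    exact pow_le_pow_left₀ (abs_nonneg _) (hb a) 2
  rw [← hv]
  -- Taylor
  have h1 : ∀ a, ‖Complex.exp (Z a * Complex.I) - (1 + (Complex.I * Z a + (-1 / 2) * ((Z a : ℂ) ^ 2)))‖ ≤ b ^ 3 := by
    intro a
    have h2 := taylor (Z a) 3
    rw [sum_range_succ, sum_range_succ, sum_range_one] at h2
    simp only [pow_zero, Nat.factorial_zero, Nat.cast_one, div_one, pow_one, Nat.factorial_one, Nat.factorial_two] at h2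
    have e : (1 : ℂ) + (Complex.I * Z a + (-1 / 2) * ((Z a : ℂ) ^ 2)) =
        1 + (Z a : ℂ) * Complex.I + ((Z a : ℂ) * Complex.I) ^ 2 / ((2 : ℕ) : ℂ) := by
      rw [mul_pow, Complex.I_sq]
      push_cast
      ring
    rw [e]
    refine h2.trans ?_
    have h3 : ((3 : ℕ).factorial : ℝ) = 6 := by
      norm_num [Nat.factorial]
    rw [h3]
    have h4 : |Z a| ^ 3 ≤ b ^ 3 := pow_le_pow_left₀ (abs_nonneg _) (hb a) 3
    have h5 : 0 ≤ |Z a| ^ 3 := by positivity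
    linarith
  have h2 : av (fun a => (1 : ℂ) + (Complex.I * Z a + (-1 / 2) * ((Z a : ℂ) ^ 2))) = ((1 - v / 2 : ℝ) : ℂ) := by
    rw [av_add, av_const, av_add, av_mul, av_mul]
    have e1 : av (fun a => (Z a : ℂ)) = 0 := by
      rw [av_ofReal, h0, Complex.ofReal_zero]
    have e2 : av (fun a => (Z a : ℂ) ^ 2) = (v : ℂ) := by
      have : (fun a => (Z a : ℂ) ^ 2) = fun a => ((Z a ^ 2 : ℝ) : ℂ) := by
        funext a
        push_cast
        rfl
      rw [this, av_ofReal, hv]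
    rw [e1, e2]
    push_cast
    ring
  have h3 : ‖av (fun a => Complex.exp (Z a * Complex.I)) - ((1 - v / 2 : ℝ) : ℂ)‖ ≤ b ^ 3 := by
    rw [← h2, ← av_sub]
    refine (norm_av_le _).trans ((av_mono h1).trans (le_of_eq (av_const _)))
  have h4 : ‖((1 - v / 2 : ℝ) : ℂ) - Complex.exp ((-(v / 2) : ℝ) : ℂ)‖ ≤ b ^ 4 := by
    rw [← Complex.ofReal_exp, ← Complex.ofReal_sub, Complex.norm_real, Real.norm_eq_abs, abs_sub_comm]
    refine (exp_neg_bound (by positivity : 0 ≤ v / 2)).trans ?_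
    have : (v / 2) ^ 2 ≤ (b ^ 2) ^ 2 := pow_le_pow_left₀ (by positivity) (by linarith) 2
    calc (v / 2) ^ 2 ≤ (b ^ 2) ^ 2 := this
      _ = b ^ 4 := by ring
  have h5 := norm_add_le (av (fun a => Complex.exp (Z a * Complex.I)) - ((1 - v / 2 : ℝ) : ℂ))
    (((1 - v / 2 : ℝ) : ℂ) - Complex.exp ((-(v / 2) : ℝ) : ℂ))
  rw [sub_add_sub_cancel] at h5
  linarith

end

section

variable {ι : Type} [Fintype ι] [DecidableEq ι] {Ω : ι → Type} [∀ i, Fintype (Ω i)] [∀ i, Nonempty (Ω i)]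

/-- the characteristic function of a sum of independent functions -/
theorem chr_prod (Z : ∀ i, Ω i → ℝ) (h0 : ∀ i, av (Z i) = 0) {b : ι → ℝ} (hb0 : ∀ i, 0 ≤ b i) (hb : ∀ i a, |Z i a| ≤ b i) :
    ‖av (fun ω : ∀ i, Ω i => Complex.exp ((∑ i, Z i (ω i) : ℝ) * Complex.I)) -
      Complex.exp ((-((∑ i, av (fun a => Z i a ^ 2)) / 2) : ℝ) : ℂ)‖ ≤ ∑ i, (b i ^ 3 + b i ^ 4) := by
  have h1 : (fun ω : ∀ i, Ω i => Complex.exp ((∑ i, Z i (ω i) : ℝ) * Complex.I)) =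
      fun ω => ∏ i, (fun i a => Complex.exp (Z i a * Complex.I)) i (ω i) := by
    funext ω
    rw [Complex.ofReal_sum, sum_mul, Complex.exp_sum]
  have h2 : Complex.exp ((-((∑ i, av (fun a => Z i a ^ 2)) / 2) : ℝ) : ℂ) =
      ∏ i, Complex.exp ((-(av (fun a => Z i a ^ 2) / 2) : ℝ) : ℂ) := by
    rw [← Complex.exp_sum, ← Complex.ofReal_sum]
    congr 2
    rw [sum_div, sum_neg_distrib]
  rw [h1, av_pi (fun i a => Complex.exp (Z i a * Complex.I)), h2]
  refine (norm_prod_sub univ _ _ (fun i _ => norm_av_exp_le (Z i)) fun i _ => ?_).trans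
    (sum_le_sum fun i _ => one_var (Z i) (h0 i) (hb0 i) (hb i))
  rw [← Complex.ofReal_exp, Complex.norm_real, Real.norm_of_nonneg (Real.exp_pos _).le, Real.exp_le_one_iff]
  have : 0 ≤ av (fun a => Z i a ^ 2) := av_nonneg fun a => sq_nonneg _
  linarith

variable {α : Type} [Fintype α] [Nonempty α]

omit [DecidableEq ι] in
/-- the expansion of a power of a sum -/
lemma pow_expand {β : Type} (y : ι → β → ℝ) (m : ℕ) (a : β) :
    (∑ i, y i a) ^ m = ∑ τ ∈ Fintype.piFinset (fun _ : Fin m => (univ : Finset ι)), ∏ j, y (τ j) a := by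
  have h2 := prod_univ_sum (fun _ : Fin m => (univ : Finset ι)) (fun _ i => y i a)
  rw [prod_const, card_univ, Fintype.card_fin] at h2
  exact h2

/-- comparison of the moments -/
lemma mom_transfer (z : ι → α → ℝ) (Z : ∀ i, Ω i → ℝ) {η : ℝ} {m : ℕ}
    (h : ∀ τ : Fin m → ι, |av (fun a => ∏ j, z (τ j) a) - av (fun ω : ∀ i, Ω i => ∏ j, Z (τ j) (ω (τ j)))| ≤ η) :
    |av (fun a => (∑ i, z i a) ^ m) - av (fun ω : ∀ i, Ω i => (∑ i, Z i (ω i)) ^ m)| ≤ (Fintype.card ι : ℝ) ^ m * η := by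
  have h1 : (fun a => (∑ i, z i a) ^ m) =
      fun a => ∑ τ ∈ Fintype.piFinset (fun _ : Fin m => (univ : Finset ι)), ∏ j, z (τ j) a := by
    funext a
    exact pow_expand z m a
  have h2 : (fun ω : ∀ i, Ω i => (∑ i, Z i (ω i)) ^ m) =
      fun ω => ∑ τ ∈ Fintype.piFinset (fun _ : Fin m => (univ : Finset ι)), ∏ j, Z (τ j) (ω (τ j)) := by
    funext ω
    exact pow_expand (fun i (ω : ∀ i, Ω i) => Z i (ω i)) m ω
  rw [h1, h2, av_sum, av_sum, ← sum_sub_distrib]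
  refine (abs_sum_le_sum_abs _ _).trans ((sum_le_sum fun τ _ => h τ).trans (le_of_eq ?_))
  rw [sum_const, Fintype.card_piFinset_const, card_univ, nsmul_eq_mul]
  push_cast
  rfl

/-- comparison of the characteristic functions -/
theorem chr_transfer (z : ι → α → ℝ) (Z : ∀ i, Ω i → ℝ) {η : ℝ} (hη : 0 ≤ η) (k : ℕ)
    (h : ∀ m ≤ 2 * k, ∀ τ : Fin m → ι,
      |av (fun a => ∏ j, z (τ j) a) - av (fun ω : ∀ i, Ω i => ∏ j, Z (τ j) (ω (τ j)))| ≤ η) :
    ‖av (fun a => Complex.exp ((∑ i, z i a : ℝ) * Complex.I)) -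
      av (fun ω : ∀ i, Ω i => Complex.exp ((∑ i, Z i (ω i) : ℝ) * Complex.I))‖ ≤
      2 * (av (fun ω : ∀ i, Ω i => (∑ i, Z i (ω i)) ^ (2 * k)) / (2 * k).factorial) +
        (2 * k + 1) * ((Fintype.card ι : ℝ) + 1) ^ (2 * k) * η := by
  obtain ⟨c, hc⟩ : ∃ c : ℝ, c = (Fintype.card ι : ℝ) + 1 := ⟨_, rfl⟩
  have hc1 : 1 ≤ c := by
    rw [hc]
    have : (0 : ℝ) ≤ Fintype.card ι := Nat.cast_nonneg _
    linarith
  have hcard : (Fintype.card ι : ℝ) ≤ c := by linarith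
  obtain ⟨M, hM⟩ : ∃ M : ℝ, M = av (fun ω : ∀ i, Ω i => (∑ i, Z i (ω i)) ^ (2 * k)) := ⟨_, rfl⟩
  have hF : (1 : ℝ) ≤ (2 * k).factorial := by exact_mod_cast Nat.factorial_pos _
  have hF0 : (0 : ℝ) < (2 * k).factorial := by linarith
  rw [← hM, ← hc]
  -- the polynomials
  obtain ⟨P, hP⟩ : ∃ P : ℝ → ℂ, P = fun x : ℝ => ∑ m ∈ range (2 * k), ((x : ℂ) * Complex.I) ^ m / (m.factorial : ℂ) := ⟨_, rfl⟩
  have hT : ∀ x : ℝ, ‖Complex.exp (x * Complex.I) - P x‖ ≤ x ^ (2 * k) / (2 * k).factorial := by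
    intro x
    rw [hP]
    have h1 := taylor x (2 * k)
    have h2 : |x| ^ (2 * k) = x ^ (2 * k) := by rw [pow_mul, pow_mul, sq_abs]
    rwa [h2] at h1
  have hmom : ∀ m ≤ 2 * k, |av (fun a => (∑ i, z i a) ^ m) - av (fun ω : ∀ i, Ω i => (∑ i, Z i (ω i)) ^ m)| ≤ c ^ (2 * k) * η := by
    intro m hm
    refine (mom_transfer z Z (h m hm)).trans (mul_le_mul_of_nonneg_right ?_ hη)
    exact (pow_le_pow_left₀ (Nat.cast_nonneg _) hcard m).trans (pow_le_pow_right₀ hc1 hm)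
  -- the error terms
  have h1 : ‖av (fun a => Complex.exp ((∑ i, z i a : ℝ) * Complex.I)) - av (fun a => P (∑ i, z i a))‖ ≤
      (M + c ^ (2 * k) * η) / (2 * k).factorial := by
    rw [← av_sub]
    refine (norm_av_le _).trans ((av_mono fun a => hT _).trans ?_)
    have e : av (fun a => (∑ i, z i a) ^ (2 * k) / ((2 * k).factorial : ℝ)) =
        av (fun a => (∑ i, z i a) ^ (2 * k)) / (2 * k).factorial := by
      have : (fun a => (∑ i, z i a) ^ (2 * k) / ((2 * k).factorial : ℝ)) =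
          fun a => (1 / ((2 * k).factorial : ℝ)) * (∑ i, z i a) ^ (2 * k) := by
        funext a
        ring
      rw [this, av_mul]
      ring
    rw [e]
    refine div_le_div_of_nonneg_right ?_ hF0.le
    have h2 := (abs_le.1 (hmom (2 * k) le_rfl)).2
    rw [hM]
    linarith
  have h2 : ‖av (fun ω : ∀ i, Ω i => Complex.exp ((∑ i, Z i (ω i) : ℝ) * Complex.I)) -
      av (fun ω : ∀ i, Ω i => P (∑ i, Z i (ω i)))‖ ≤ M / (2 * k).factorial := by
    rw [← av_sub]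
    refine (norm_av_le _).trans ((av_mono fun a => hT _).trans (le_of_eq ?_))
    have : (fun ω : ∀ i, Ω i => (∑ i, Z i (ω i)) ^ (2 * k) / ((2 * k).factorial : ℝ)) =
        fun ω => (1 / ((2 * k).factorial : ℝ)) * (∑ i, Z i (ω i)) ^ (2 * k) := by
      funext a
      ring
    rw [this, av_mul, hM]
    ring
  have h3 : ‖av (fun a => P (∑ i, z i a)) - av (fun ω : ∀ i, Ω i => P (∑ i, Z i (ω i)))‖ ≤ 2 * k * (c ^ (2 * k) * η) := by
    have e1 : ∀ {β : Type} [Fintype β] (y : β → ℝ), av (fun a => P (y a)) =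
        ∑ m ∈ range (2 * k), Complex.I ^ m / (m.factorial : ℂ) * ((av (fun a => (y a) ^ m) : ℝ) : ℂ) := by
      intro β _ y
      rw [hP]
      show av (fun a => ∑ m ∈ range (2 * k), ((y a : ℂ) * Complex.I) ^ m / (m.factorial : ℂ)) = _
      rw [av_sum]
      refine sum_congr rfl fun m _ => ?_
      have : (fun a => ((y a : ℂ) * Complex.I) ^ m / (m.factorial : ℂ)) =
          fun a => Complex.I ^ m / (m.factorial : ℂ) * ((((y a) ^ m : ℝ)) : ℂ) := by
        funext a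
        push_cast
        rw [mul_pow]
        ring
      rw [this, av_mul, av_ofReal]
    rw [e1, e1, ← sum_sub_distrib]
    refine (norm_sum_le _ _).trans ?_
    have h4 : ∀ m ∈ range (2 * k), ‖Complex.I ^ m / (m.factorial : ℂ) * ((av (fun a => (∑ i, z i a) ^ m) : ℝ) : ℂ) -
        Complex.I ^ m / (m.factorial : ℂ) * ((av (fun ω : ∀ i, Ω i => (∑ i, Z i (ω i)) ^ m) : ℝ) : ℂ)‖ ≤ c ^ (2 * k) * η := by
      intro m hm
      rw [mem_range] at hm
      rw [← mul_sub, ← Complex.ofReal_sub, norm_mul, norm_div, norm_pow, Complex.norm_I, one_pow, Complex.norm_real,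
        Real.norm_eq_abs, Complex.norm_natCast]
      have h5 : 1 / (m.factorial : ℝ) ≤ 1 := by
        rw [div_le_one (by exact_mod_cast Nat.factorial_pos m)]
        exact_mod_cast Nat.factorial_pos m
      calc 1 / (m.factorial : ℝ) * _ ≤ 1 * (c ^ (2 * k) * η) := mul_le_mul h5 (hmom m hm.le) (abs_nonneg _) zero_le_one
        _ = _ := one_mul _
    refine (sum_le_sum h4).trans (le_of_eq ?_)
    rw [sum_const, card_range, nsmul_eq_mul]
    push_cast
    ring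
  have h4 : (M + c ^ (2 * k) * η) / (2 * k).factorial ≤ M / (2 * k).factorial + c ^ (2 * k) * η := by
    rw [add_div]
    refine add_le_add le_rfl (div_le_self (by positivity) hF)
  have h5 := norm_sub_le_norm_sub_add_norm_sub (av (fun a => Complex.exp ((∑ i, z i a : ℝ) * Complex.I)))
    (av (fun a => P (∑ i, z i a))) (av (fun ω : ∀ i, Ω i => Complex.exp ((∑ i, Z i (ω i) : ℝ) * Complex.I)))
  have h6 := norm_sub_le_norm_sub_add_norm_sub (av (fun a => P (∑ i, z i a)))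
    (av (fun ω : ∀ i, Ω i => P (∑ i, Z i (ω i)))) (av (fun ω : ∀ i, Ω i => Complex.exp ((∑ i, Z i (ω i) : ℝ) * Complex.I)))
  rw [norm_sub_rev] at h2
  have h7 : (2 * (k : ℝ) + 1) * c ^ (2 * k) * η = 2 * k * (c ^ (2 * k) * η) + c ^ (2 * k) * η := by ring
  rw [h7]
  linarith

/-- comparison with the normal distribution -/
theorem chr_normal (z : ι → α → ℝ) (Z : ∀ i, Ω i → ℝ) (h0 : ∀ i, av (Z i) = 0) {b : ι → ℝ} (hb0 : ∀ i, 0 ≤ b i)
    (hb : ∀ i a, |Z i a| ≤ b i) {V : ℝ} (hV : 0 < V) (hbV : ∑ i, b i ^ 2 ≤ V) {η : ℝ} (hη : 0 ≤ η) {k : ℕ} (hk : 1 ≤ k)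
    (h : ∀ m ≤ 2 * k, ∀ τ : Fin m → ι,
      |av (fun a => ∏ j, z (τ j) a) - av (fun ω : ∀ i, Ω i => ∏ j, Z (τ j) (ω (τ j)))| ≤ η) :
    ‖av (fun a => Complex.exp ((∑ i, z i a : ℝ) * Complex.I)) -
      Complex.exp ((-((∑ i, av (fun a => Z i a ^ 2)) / 2) : ℝ) : ℂ)‖ ≤
      4 * (Real.exp 1 * V / k) ^ k + (2 * k + 1) * ((Fintype.card ι : ℝ) + 1) ^ (2 * k) * η + ∑ i, (b i ^ 3 + b i ^ 4) := by
  have h1 := chr_transfer z Z hη k h
  have h2 := chr_prod Z h0 hb0 hb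
  have h3 := mom_le Z h0 hb hV hbV hk
  have hF0 : (0 : ℝ) < (2 * k).factorial := by exact_mod_cast Nat.factorial_pos _
  have h4 : av (fun ω : ∀ i, Ω i => (∑ i, Z i (ω i)) ^ (2 * k)) / (2 * k).factorial ≤ 2 * (Real.exp 1 * V / k) ^ k := by
    rw [div_le_iff₀ hF0]
    refine h3.trans (le_of_eq ?_)
    ring
  have h5 := norm_sub_le_norm_sub_add_norm_sub (av (fun a => Complex.exp ((∑ i, z i a : ℝ) * Complex.I)))
    (av (fun ω : ∀ i, Ω i => Complex.exp ((∑ i, Z i (ω i) : ℝ) * Complex.I)))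
    (Complex.exp ((-((∑ i, av (fun a => Z i a ^ 2)) / 2) : ℝ) : ℂ))
  linarith

end

end Q282.CL
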