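import Pool.Agent.Q282.CL.Brown

/-!
# The partial sums over the first primes of bounded functions of the residues and the Brownian motion
-/

set_option autoImplicit false

namespace Q282.CL

open Finset Filter MeasureTheory
open scoped NNReal Topology
open Q282.BP (bx mem_bx card_bx PP loglog_tendsto)
open Q282.GK (kbox mean_res)
open Pool.Agent.TH894.NE (box mem_box card_box Per mean mean_mul mean_mono mean_prod)

/-- the number before the prime number `n` -/
noncomputable def bn (n : ℕ) : ℕ := Nat.nth Nat.Prime n - 1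

lemma mem_PP_bn {n p : ℕ} : p ∈ PP (bn n) ↔ p.Prime ∧ p < Nat.nth Nat.Prime n := by
  unfold bn
  rw [mem_filter, mem_Icc]
  have h := Nat.add_two_le_nth_prime n
  constructor
  · rintro ⟨⟨h1, h2⟩, h3⟩
    exact ⟨h3, by omega⟩
  · rintro ⟨h1, h2⟩
    have := h1.one_lt
    exact ⟨⟨by omega, by omega⟩, h1⟩

lemma PP_bn (n : ℕ) : PP (bn n) = (range n).image (Nat.nth Nat.Prime) := by
  ext p
  rw [mem_PP_bn, mem_image]
  constructor
  · rintro ⟨h1, h2⟩
    refine ⟨Nat.count Nat.Prime p, ?_, Nat.nth_count h1⟩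
    rw [mem_range]
    rw [← Nat.nth_count h1] at h2
    exact (Nat.nth_lt_nth Nat.infinite_setOfPred_prime).1 h2
  · rintro ⟨k, hk, rfl⟩
    rw [mem_range] at hk
    exact ⟨Nat.prime_nth_prime k, (Nat.nth_lt_nth Nat.infinite_setOfPred_prime).2 hk⟩

lemma sum_nth {M : Type} [AddCommMonoid M] (n : ℕ) (f : ℕ → M) :
    ∑ k ∈ range n, f (Nat.nth Nat.Prime k) = ∑ p ∈ PP (bn n), f p := by
  rw [PP_bn, sum_image]
  intro a _ b _ h
  exact Nat.nth_injective Nat.infinite_setOfPred_prime h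

lemma card_PP_bn (n : ℕ) : (PP (bn n)).card = n := by
  rw [PP_bn, card_image_of_injective _ (Nat.nth_injective Nat.infinite_setOfPred_prime), card_range]

lemma bn_mono : Monotone bn := by
  intro a b h
  unfold bn
  exact Nat.sub_le_sub_right ((Nat.nth_le_nth Nat.infinite_setOfPred_prime).2 h) 1

lemma inv_sum_le (n : ℕ) : ∑ p ∈ PP (bn n), 1 / (p : ℝ) ≤ 1 + Real.log n := by
  rw [← sum_nth n (fun p => 1 / (p : ℝ))]
  have h1 : ∑ k ∈ range n, 1 / ((Nat.nth Nat.Prime k : ℕ) : ℝ) ≤ ∑ k ∈ range n, ((k : ℝ) + 1)⁻¹ := by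
    refine sum_le_sum fun k _ => ?_
    rw [one_div]
    refine inv_anti₀ (by positivity) ?_
    have := Nat.add_two_le_nth_prime k
    have h2 : k + 1 ≤ Nat.nth Nat.Prime k := by omega
    exact_mod_cast h2
  refine h1.trans ?_
  have h2 := harmonic_le_one_add_log n
  unfold harmonic at h2
  push_cast at h2
  exact h2

lemma log_div_sqrt : Tendsto (fun n : ℕ => (1 + Real.log n) / Real.sqrt n) atTop (𝓝 0) := by
  have h1 : Tendsto (fun x : ℝ => Real.log x / x ^ (1 / 2 : ℝ)) atTop (𝓝 0) :=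
    (isLittleO_log_rpow_atTop (by norm_num : (0 : ℝ) < 1 / 2)).tendsto_div_nhds_zero
  have h2 : Tendsto (fun x : ℝ => (1 : ℝ) / x ^ (1 / 2 : ℝ)) atTop (𝓝 0) :=
    (tendsto_const_nhds).div_atTop (tendsto_rpow_atTop (by norm_num))
  have h3 := (h2.add h1).comp tendsto_natCast_atTop_atTop
  rw [add_zero] at h3
  refine h3.congr fun n => ?_
  show 1 / (n : ℝ) ^ (1 / 2 : ℝ) + Real.log n / (n : ℝ) ^ (1 / 2 : ℝ) = _
  rw [← Real.sqrt_eq_rpow, add_div]

section main

/-- the data -/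
structure Dat2 (κ : Type) [Fintype κ] [DecidableEq κ] (B : ℝ) where
  /-- the quality -/
  m : ℕ
  /-- the number of the primes -/
  n : ℕ
  /-- the corner -/
  N : κ → ℤ
  /-- the sides -/
  L : κ → ℕ
  /-- the local functions -/
  H : (p : ℕ) → (κ → ZMod p) → ℝ
  hm : 1 ≤ m
  hn : m ≤ n
  hL : ∀ i, (Nat.nth Nat.Prime n : ℝ) ^ m ≤ L i
  hH : ∀ p : ℕ, p.Prime → ∀ u, |H p u| ≤ B
  h2 : ∀ p : ℕ, p.Prime → |mn H p| ≤ B / p
  h3 : ∀ p : ℕ, p.Prime → |mn (fun p u => H p u ^ 2) p - 1| ≤ B / p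

variable {κ : Type} [Fintype κ] [DecidableEq κ] {B : ℝ}

lemma Dat2.pos (b : Dat2 κ B) (i : κ) : 0 < b.L i := by
  have h1 := b.hL i
  have h2 : (0 : ℝ) < (Nat.nth Nat.Prime b.n : ℝ) ^ b.m := by
    have : (0 : ℝ) < Nat.nth Nat.Prime b.n := by
      exact_mod_cast (Nat.prime_nth_prime b.n).pos
    positivity
  exact_mod_cast h2.trans_le h1

instance (b : Dat2 κ B) : Nonempty (kbox b.N b.L) := kbox_nonempty b.pos

/-- the vector -/
noncomputable def Dat2.vec (b : Dat2 κ B) (I : Finset ℝ≥0) (t : κ → ℤ) : EuclideanSpace ℝ I :=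
  WithLp.toLp 2 fun s : I => (∑ k ∈ range ⌊((s : ℝ≥0) : ℝ) * b.n⌋₊, b.H (Nat.nth Nat.Prime k) (fun i => (t i : ZMod _))) / Real.sqrt b.n

lemma chr_dat2 (hB : 0 < B) (I : Finset ℝ≥0) (hI : ∀ s ∈ I, 0 < s ∧ s ≤ 1) (x : EuclideanSpace ℝ I) (ε : ℝ) (hε : 0 < ε) :
    ∃ X₁ : ℕ, ∀ b : Dat2 κ B, X₁ ≤ b.m →
      ‖charFun (lw (fun t : kbox b.N b.L => b.vec I t) : Measure (EuclideanSpace ℝ I)) x -
        charFun (nuE I : Measure (EuclideanSpace ℝ I)) x‖ ≤ ε := by
  classical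
  obtain ⟨e⟩ : Nonempty (κ ≃ Fin (Fintype.card κ)) := ⟨Fintype.equivFin κ⟩
  obtain ⟨R, hR⟩ : ∃ R : ℝ, R = ∑ s, |x s| + 1 := ⟨_, rfl⟩
  have hR0 : 0 < R := by
    have : 0 ≤ ∑ s, |x s| := sum_nonneg fun s _ => abs_nonneg _
    rw [hR]
    linarith
  obtain ⟨c, hc⟩ : ∃ c : ℝ, c = 2 * (R * B) := ⟨_, rfl⟩
  have hc0 : 0 < c := by rw [hc]; positivity
  obtain ⟨V, hV⟩ : ∃ V : ℝ, V = c ^ 2 := ⟨_, rfl⟩
  have hV0 : 0 < V := by rw [hV]; positivity
  obtain ⟨k, hk1, hk⟩ := exists_k V (ε / 5) hV0 (by positivity)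
  obtain ⟨C, hC⟩ : ∃ C : ℝ, C = max 1 c := ⟨_, rfl⟩
  have hC1 : 1 ≤ C := by rw [hC]; exact le_max_left _ _
  have hcC : c ≤ C := by rw [hC]; exact le_max_right _ _
  obtain ⟨d, hd⟩ : ∃ d : ℕ, d = Fintype.card κ := ⟨_, rfl⟩
  obtain ⟨c₁, hc₁⟩ : ∃ c₁ : ℝ, c₁ = (2 * k + 1) * 4 ^ k * C ^ (2 * k) * (2 * d) := ⟨_, rfl⟩
  have hc₁0 : 0 ≤ c₁ := by rw [hc₁]; positivity
  obtain ⟨c₂, hc₂⟩ : ∃ c₂ : ℝ, c₂ = c ^ 3 + c ^ 4 := ⟨_, rfl⟩
  have hc₂0 : 0 ≤ c₂ := by rw [hc₂]; positivity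
  obtain ⟨c₃, hc₃⟩ : ∃ c₃ : ℝ, c₃ = R ^ 2 * (B + B ^ 2 + 1) := ⟨_, rfl⟩
  have hc₃0 : 0 ≤ c₃ := by rw [hc₃]; positivity
  have hsq : Tendsto (fun n : ℕ => Real.sqrt n) atTop atTop := Real.tendsto_sqrt_atTop.comp tendsto_natCast_atTop_atTop
  have e1 : ∀ᶠ n : ℕ in atTop, (1 + Real.log n) / Real.sqrt n ≤ ε / (5 * (R * B + c₃)) :=
    (log_div_sqrt.eventually (eventually_le_nhds (by positivity)))
  have e2 : ∀ᶠ n : ℕ in atTop, 5 * c₂ / ε + 1 ≤ Real.sqrt n := hsq.eventually_ge_atTop _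
  have e3 : ∀ᶠ n : ℕ in atTop, 5 * c₁ / ε + 1 ≤ (n : ℝ) := tendsto_natCast_atTop_atTop.eventually_ge_atTop _
  obtain ⟨X₂, hX₂⟩ := eventually_atTop.1 ((e1.and e2).and (e3.and (eventually_ge_atTop d)))
  refine ⟨max (5 * k) X₂, fun b hb => ?_⟩
  obtain ⟨⟨f1, f2⟩, f3, f4⟩ := hX₂ b.n (((le_max_right _ _).trans hb).trans b.hn)
  have hmk : 5 * k ≤ b.m := (le_max_left _ _).trans hb
  obtain ⟨n, hn⟩ : ∃ n : ℕ, n = b.n := ⟨_, rfl⟩
  obtain ⟨P, hP⟩ : ∃ P : ℕ, P = Nat.nth Nat.Prime n := ⟨_, rfl⟩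
  obtain ⟨D, hD⟩ : ∃ D : ℝ, D = Real.sqrt n := ⟨_, rfl⟩
  rw [← hn] at f1 f2 f3 f4
  rw [← hD] at f1 f2
  have hnP : n + 2 ≤ P := by rw [hP]; exact Nat.add_two_le_nth_prime n
  have hD1 : 1 ≤ D := by
    have : 0 ≤ 5 * c₂ / ε := by positivity
    linarith
  have hn1 : (1 : ℝ) ≤ n := by
    have : 0 ≤ 5 * c₁ / ε := by positivity
    linarith
  have hn0 : (0 : ℝ) < n := by linarith
  have hDn : D ^ 2 = n := by rw [hD, Real.sq_sqrt hn0.le]
  have hlog0 : 0 ≤ Real.log n := Real.log_nonneg hn1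
  have hlogD : 1 ≤ 1 + Real.log n := by linarith
  -- the weights
  obtain ⟨a, ha⟩ : ∃ a : I → ℕ, a = fun s : I => bn ⌊((s : ℝ≥0) : ℝ) * n⌋₊ := ⟨_, rfl⟩
  have hfl : ∀ s : I, ⌊((s : ℝ≥0) : ℝ) * n⌋₊ ≤ n := by
    intro s
    have h1 : ((s : ℝ≥0) : ℝ) ≤ 1 := by exact_mod_cast (hI s s.2).2
    have h2 : ((s : ℝ≥0) : ℝ) * n ≤ n := mul_le_of_le_one_left hn0.le h1
    exact (Nat.floor_le_floor h2).trans (by rw [Nat.floor_natCast])
  have haX : ∀ s, a s ≤ bn n := by
    intro s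
    rw [ha]
    exact bn_mono (hfl s)
  obtain ⟨w, hw⟩ : ∃ w : ℕ → ℝ, w = wt a x := ⟨_, rfl⟩
  have hwR : ∀ p, |w p| ≤ R := by
    intro p
    rw [hw, hR]
    exact (wt_le a x p).trans (by linarith)
  have hprime : ∀ {N p : ℕ}, p ∈ PP N → p.Prime := fun {N p} hp => (mem_filter.1 hp).2
  have hmn : ∀ p : ℕ, p.Prime → |mn b.H p| ≤ B := by
    intro p hp
    have : Fact p.Prime := ⟨hp⟩
    rw [mn_eq]
    exact abs_av_le_const (b.hH p hp)
  -- the characteristic function of the centred sum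
  obtain ⟨T, hT⟩ : ∃ T : ℝ, T = (P : ℝ) ^ b.m := ⟨_, rfl⟩
  have hP1 : (1 : ℝ) ≤ P := by
    have : 1 ≤ P := by omega
    exact_mod_cast this
  have hT0 : 0 < T := by rw [hT]; positivity
  have hLT : ∀ i, T ≤ b.L i := by
    intro i
    rw [hT, hP, hn]
    exact b.hL i
  have hbnd : ∀ p : ℕ, p.Prime → ∀ u, |w p * (b.H p u - mn b.H p) / D| ≤ c / D := by
    intro p hp u
    have h2 := b.hH p hp u
    have h3 := hmn p hp
    have h4 : |b.H p u - mn b.H p| ≤ 2 * B := (abs_sub _ _).trans (by linarith)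
    rw [abs_div, abs_of_pos (by linarith : 0 < D), abs_mul]
    refine div_le_div_of_nonneg_right ?_ (by linarith)
    calc _ ≤ R * (2 * B) := mul_le_mul (hwR p) h4 (abs_nonneg _) hR0.le
      _ = c := by rw [hc]; ring
  have h1 := chr_bx (d := Fintype.card κ)
    (g := fun p n' => w p * (b.H p (fun i => ((b.N i + (n' (e i) : ℤ) : ℤ) : ZMod p)) - mn b.H p) / D) (S := PP (bn n))
    (fun p hp => hprime hp)
    (fun p hp n' => by
      have h2 : b.H p (fun i => ((b.N i + (n' (e i) : ℤ) : ℤ) : ZMod p)) =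
          b.H p (fun i => ((b.N i + (((fun i => n' i % p) (e i) : ℕ) : ℤ) : ℤ) : ZMod p)) := by
        congr 1
        funext i
        rw [Int.cast_add, Int.cast_add, Int.cast_natCast, Int.cast_natCast, ZMod.natCast_mod]
      show w p * (b.H p _ - mn b.H p) / D = w p * (b.H p _ - mn b.H p) / D
      rw [h2])
    (fun p hp => by
      have : Fact p.Prime := ⟨hprime hp⟩
      rw [mean_av e p b.N (fun u => w p * (b.H p u - mn b.H p) / D)]
      have h2 : (fun u => w p * (b.H p u - mn b.H p) / D) = fun u => (w p / D) * (b.H p u - mn b.H p) := by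
        funext u
        ring
      rw [h2, av_mul, av_sub, av_const, ← mn_eq, sub_self, mul_zero])
    (b := fun _ => c / D) (fun p _ => by positivity) (fun p hp n' => hbnd p (hprime hp) _) hC1
    (fun p _ => (div_le_self hc0.le hD1).trans hcC)
    (Y := P) (by omega) (fun p hp => by
      have := (mem_PP_bn.1 hp).2
      rw [hP]
      exact this.le) hV0 (by
      rw [sum_const, card_PP_bn, nsmul_eq_mul, div_pow, hDn, hV]
      rw [mul_div_cancel₀ _ hn0.ne'])
    hk1 hT0 (L := fun k' => b.L (e.symm k')) (fun k' => hLT _)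
  have h2 : av (fun n' : bx (fun k' => b.L (e.symm k')) => Complex.exp ((∑ p ∈ PP (bn n),
      w p * (b.H p (fun i => ((b.N i + ((n' : Fin _ → ℕ) (e i) : ℤ) : ℤ) : ZMod p)) - mn b.H p) / D : ℝ) * Complex.I)) =
      av (fun t : kbox b.N b.L => Complex.exp (((∑ p ∈ PP (bn n), w p * (b.H p (fun i => ((t : κ → ℤ) i : ZMod p)) - mn b.H p) / D : ℝ)) * Complex.I)) := by
    rw [av_equiv (kequiv e b.N b.L)]
    rfl
  have h3 : ∑ p ∈ PP (bn n), mean (Fintype.card κ) p
      (fun n' => (w p * (b.H p (fun i => ((b.N i + (n' (e i) : ℤ) : ℤ) : ZMod p)) - mn b.H p) / D) ^ 2) =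
      (∑ p ∈ PP (bn n), w p ^ 2 * vr b.H p) / n := by
    rw [sum_div]
    refine sum_congr rfl fun p hp => ?_
    have : Fact p.Prime := ⟨hprime hp⟩
    rw [mean_av e p b.N (fun u => (w p * (b.H p u - mn b.H p) / D) ^ 2)]
    have h4 : (fun u => (w p * (b.H p u - mn b.H p) / D) ^ 2) =
        fun u => (w p ^ 2 / n) * (b.H p u ^ 2 - ((2 * mn b.H p) * b.H p u - mn b.H p ^ 2)) := by
      funext u
      rw [← hDn]
      ring
    rw [h4, av_mul, av_sub, av_sub, av_mul, av_const, ← mn_eq]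
    unfold vr
    rw [mn_eq (fun p u => b.H p u ^ 2)]
    ring
  rw [h2, h3] at h1
  obtain ⟨U, hU⟩ : ∃ U : (κ → ℤ) → ℝ, U = fun t => ∑ p ∈ PP (bn n), w p * (b.H p (fun i => (t i : ZMod p)) - mn b.H p) / D := ⟨_, rfl⟩
  have g2 : ‖av (fun t : kbox b.N b.L => Complex.exp ((U t : ℂ) * Complex.I)) -
      Complex.exp ((-((∑ p ∈ PP (bn n), w p ^ 2 * vr b.H p) / n / 2) : ℝ) : ℂ)‖ ≤ ε / 5 + ε / 5 + ε / 5 := by
    rw [hU]
    refine h1.trans (add_le_add (add_le_add hk ?_) ?_)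
    · have h4 := err_le (d := Fintype.card κ) (k := k) (Y := P) (C := C) (T := T) hk1 hC1 (by omega)
        (by rw [← hd]; omega) (by rw [hT]; exact pow_le_pow_right₀ hP1 hmk)
      refine h4.trans ?_
      rw [← hd, ← hc₁]
      have hP0 : (0 : ℝ) < P := by linarith
      rw [div_le_iff₀ hP0]
      have h5 : 5 * c₁ / ε ≤ n := by linarith
      have h6 : (n : ℝ) ≤ P := by
        have : n ≤ P := by omega
        exact_mod_cast this
      rw [div_le_iff₀ hε] at h5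
      nlinarith
    · rw [sum_const, card_PP_bn, nsmul_eq_mul]
      have h4 : (n : ℝ) * ((c / D) ^ 3 + (c / D) ^ 4) ≤ c₂ / D := by
        rw [← hDn, hc₂]
        have h5 : D ^ 2 * ((c / D) ^ 3 + (c / D) ^ 4) = c ^ 3 / D + c ^ 4 / D / D := by
          field_simp
        rw [h5, add_div]
        refine add_le_add le_rfl (div_le_self (by positivity) hD1)
      refine h4.trans ?_
      rw [div_le_iff₀ (by linarith)]
      have h5 : 5 * c₂ / ε ≤ D := by linarith
      rw [div_le_iff₀ hε] at h5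
      linarith
  have g1 : ‖charFun (lw (fun t : kbox b.N b.L => b.vec I t) : Measure (EuclideanSpace ℝ I)) x -
      av (fun t : kbox b.N b.L => Complex.exp ((U t : ℂ) * Complex.I))‖ ≤ R * B * ((1 + Real.log n) / D) := by
    rw [chr_lw, ← av_sub]
    refine (norm_av_le _).trans ?_
    have h4 : ∀ t : kbox b.N b.L, ‖Complex.exp (((inner ℝ (b.vec I t) x : ℝ) : ℂ) * Complex.I) -
        Complex.exp ((U t : ℂ) * Complex.I)‖ ≤ R * B * ((1 + Real.log n) / D) := by
      intro t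
      have h5 : (inner ℝ (b.vec I t) x : ℝ) = (∑ s : I, x s * ∑ p ∈ PP (a s), mn b.H p) / D + U t := by
        have h6 : (inner ℝ (b.vec I t) x : ℝ) = (∑ s : I, x s * ∑ p ∈ PP (a s), b.H p (fun i => ((t : κ → ℤ) i : ZMod p))) / D := by
          rw [PiLp.inner_apply, sum_div]
          refine sum_congr rfl fun s _ => ?_
          rw [RCLike.inner_apply, conj_trivial]
          unfold Dat2.vec
          rw [← hn, ← hD, ha, ← sum_nth _ (fun p => b.H p (fun i => ((t : κ → ℤ) i : ZMod p)))]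
          ring
        rw [h6, hU]
        show _ = _ + ∑ p ∈ PP (bn n), w p * (b.H p (fun i => ((t : κ → ℤ) i : ZMod p)) - mn b.H p) / D
        rw [← sum_div, hw, wt_sum a haX, ← add_div, ← sum_add_distrib]
        congr 1
        refine sum_congr rfl fun s _ => ?_
        rw [sum_sub_distrib]
        ring
      rw [h5]
      refine (norm_exp_sub _ _).trans ?_
      rw [abs_div, abs_of_pos (by linarith : 0 < D), ← mul_div_assoc]
      refine div_le_div_of_nonneg_right ?_ (by linarith)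
      refine (abs_sum_le_sum_abs _ _).trans ?_
      have h6 : ∀ s : I, |x s * ∑ p ∈ PP (a s), mn b.H p| ≤ |x s| * (B * (1 + Real.log n)) := by
        intro s
        rw [abs_mul]
        refine mul_le_mul_of_nonneg_left ?_ (abs_nonneg _)
        refine (abs_sum_le_sum_abs _ _).trans ((sum_le_sum fun p hp => b.h2 p (hprime hp)).trans ?_)
        have h7 : ∑ p ∈ PP (a s), B / (p : ℝ) = B * ∑ p ∈ PP (a s), 1 / (p : ℝ) := by
          rw [mul_sum]
          exact sum_congr rfl fun p _ => by ring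
        rw [h7]
        refine mul_le_mul_of_nonneg_left ?_ hB.le
        refine le_trans (sum_le_sum_of_subset_of_nonneg ?_ fun p _ _ => by positivity) (inv_sum_le n)
        intro p hp
        rw [mem_filter, mem_Icc] at hp ⊢
        exact ⟨⟨hp.1.1, hp.1.2.trans (haX s)⟩, hp.2⟩
      refine (sum_le_sum fun s _ => h6 s).trans ?_
      rw [← sum_mul, mul_assoc]
      refine mul_le_mul_of_nonneg_right ?_ (by positivity)
      rw [hR]
      linarith
    exact (av_mono h4).trans (le_of_eq (av_const _))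
  have g3 : ‖Complex.exp ((-((∑ p ∈ PP (bn n), w p ^ 2 * vr b.H p) / n / 2) : ℝ) : ℂ) -
      charFun (nuE I : Measure (EuclideanSpace ℝ I)) x‖ ≤ c₃ * ((1 + Real.log n) / D) := by
    rw [chr_nuE]
    obtain ⟨q, hq⟩ : ∃ q : ℝ, q = ∑ s : I, ∑ t : I, x s * x t * ((min (s : ℝ≥0) (t : ℝ≥0) : ℝ≥0) : ℝ) := ⟨_, rfl⟩
    rw [← hq]
    have hq0 : 0 ≤ q := by
      have h2 := norm_charFun_le_one (μ := (nuE I : Measure (EuclideanSpace ℝ I))) x
      rw [chr_nuE, ← hq, ← Complex.ofReal_exp, Complex.norm_real, Real.norm_of_nonneg (Real.exp_pos _).le,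
        Real.exp_le_one_iff] at h2
      linarith
    obtain ⟨u, hu⟩ : ∃ u : ℝ, u = ∑ p ∈ PP (bn n), w p ^ 2 * vr b.H p := ⟨_, rfl⟩
    rw [← hu]
    have hvr0 : ∀ p : ℕ, p.Prime → 0 ≤ vr b.H p := by
      intro p hp
      have : Fact p.Prime := ⟨hp⟩
      unfold vr
      rw [mn_eq, mn_eq]
      have h4 : 0 ≤ av (fun u => (b.H p u - av (b.H p)) ^ 2) := av_nonneg fun u => sq_nonneg _
      have h5 : (fun u => (b.H p u - av (b.H p)) ^ 2) = fun u => b.H p u ^ 2 - ((2 * av (b.H p)) * b.H p u - av (b.H p) ^ 2) := by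
        funext u
        ring
      rw [h5, av_sub, av_sub, av_mul, av_const] at h4
      linarith
    have hvr1 : ∀ p : ℕ, p.Prime → |vr b.H p - 1| ≤ (B + B ^ 2) * (1 / p) := by
      intro p hp
      have hp1 : (1 : ℝ) ≤ p := by exact_mod_cast hp.one_lt.le
      unfold vr
      have h4 := b.h3 p hp
      have h5 : |mn b.H p ^ 2| ≤ B ^ 2 * (1 / p) := by
        rw [abs_pow]
        calc |mn b.H p| ^ 2 ≤ (B / p) ^ 2 := pow_le_pow_left₀ (abs_nonneg _) (b.h2 p hp) 2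
          _ = B ^ 2 * (1 / (p : ℝ) ^ 2) := by ring
          _ ≤ B ^ 2 * (1 / p) := by
            refine mul_le_mul_of_nonneg_left ?_ (by positivity)
            exact one_div_le_one_div_of_le (by linarith) (le_self_pow₀ hp1 (by norm_num))
      have h6 := abs_sub (mn (fun p u => b.H p u ^ 2) p - 1) (mn b.H p ^ 2)
      have h7 : mn (fun p u => b.H p u ^ 2) p - mn b.H p ^ 2 - 1 = mn (fun p u => b.H p u ^ 2) p - 1 - mn b.H p ^ 2 := by ring
      rw [h7]
      have h8 : (B + B ^ 2) * (1 / (p : ℝ)) = B / p + B ^ 2 * (1 / p) := by ring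
      linarith
    have hu0 : 0 ≤ u := by
      rw [hu]
      exact sum_nonneg fun p hp => mul_nonneg (sq_nonneg _) (hvr0 p (hprime hp))
    have hclose : |u - q * n| ≤ c₃ * (1 + Real.log n) := by
      rw [hu, hw, wt_sq a haX, hq, sum_mul, ← sum_sub_distrib]
      refine (abs_sum_le_sum_abs _ _).trans ?_
      have h2 : ∀ s : I, |∑ t : I, x s * x t * ∑ p ∈ PP (min (a s) (a t)), vr b.H p -
          (∑ t : I, x s * x t * ((min (s : ℝ≥0) (t : ℝ≥0) : ℝ≥0) : ℝ)) * n| ≤ |x s| * (R * ((B + B ^ 2 + 1) * (1 + Real.log n))) := by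
        intro s
        rw [sum_mul, ← sum_sub_distrib]
        refine (abs_sum_le_sum_abs _ _).trans ?_
        have h3 : ∀ t : I, |x s * x t * ∑ p ∈ PP (min (a s) (a t)), vr b.H p - x s * x t * ((min (s : ℝ≥0) (t : ℝ≥0) : ℝ≥0) : ℝ) * n| ≤
            |x s| * (|x t| * ((B + B ^ 2 + 1) * (1 + Real.log n))) := by
          intro t
          have h4 : x s * x t * ∑ p ∈ PP (min (a s) (a t)), vr b.H p - x s * x t * ((min (s : ℝ≥0) (t : ℝ≥0) : ℝ≥0) : ℝ) * n =
              x s * (x t * (∑ p ∈ PP (min (a s) (a t)), vr b.H p - ((min (s : ℝ≥0) (t : ℝ≥0) : ℝ≥0) : ℝ) * n)) := by ring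
          rw [h4, abs_mul, abs_mul]
          refine mul_le_mul_of_nonneg_left (mul_le_mul_of_nonneg_left ?_ (abs_nonneg _)) (abs_nonneg _)
          obtain ⟨j, hj⟩ : ∃ j : ℕ, j = ⌊((min (s : ℝ≥0) (t : ℝ≥0) : ℝ≥0) : ℝ) * n⌋₊ := ⟨_, rfl⟩
          have hmin : min (a s) (a t) = bn j := by
            rw [ha, hj]
            show min (bn ⌊((s : ℝ≥0) : ℝ) * n⌋₊) (bn ⌊((t : ℝ≥0) : ℝ) * n⌋₊) = _
            rw [← bn_mono.map_min]
            congr 1
            rcases le_total (s : ℝ≥0) (t : ℝ≥0) with h8 | h8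
            · rw [min_eq_left h8, min_eq_left]
              exact Nat.floor_le_floor (mul_le_mul_of_nonneg_right (by exact_mod_cast h8) hn0.le)
            · rw [min_eq_right h8, min_eq_right]
              exact Nat.floor_le_floor (mul_le_mul_of_nonneg_right (by exact_mod_cast h8) hn0.le)
          have hjn : j ≤ n := by
            rw [hj]
            have h5 : ((min (s : ℝ≥0) (t : ℝ≥0) : ℝ≥0) : ℝ) ≤ 1 := by
              exact_mod_cast (min_le_left _ _).trans (hI s s.2).2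
            have h6 : ((min (s : ℝ≥0) (t : ℝ≥0) : ℝ≥0) : ℝ) * n ≤ n := mul_le_of_le_one_left hn0.le h5
            exact (Nat.floor_le_floor h6).trans (by rw [Nat.floor_natCast])
          rw [hmin]
          have h5 : |∑ p ∈ PP (bn j), vr b.H p - j| ≤ (B + B ^ 2) * (1 + Real.log n) := by
            have h6 : (j : ℝ) = ∑ _p ∈ PP (bn j), (1 : ℝ) := by
              rw [sum_const, card_PP_bn, nsmul_eq_mul, mul_one]
            rw [h6, ← sum_sub_distrib]
            refine (abs_sum_le_sum_abs _ _).trans ((sum_le_sum fun p hp => hvr1 p (hprime hp)).trans ?_)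
            rw [← mul_sum]
            refine mul_le_mul_of_nonneg_left ?_ (by positivity)
            refine le_trans (sum_le_sum_of_subset_of_nonneg ?_ fun p _ _ => by positivity) (inv_sum_le n)
            intro p hp
            rw [mem_filter, mem_Icc] at hp ⊢
            exact ⟨⟨hp.1.1, hp.1.2.trans (bn_mono hjn)⟩, hp.2⟩
          have h6 : |(j : ℝ) - ((min (s : ℝ≥0) (t : ℝ≥0) : ℝ≥0) : ℝ) * n| ≤ 1 := by
            have h7 : (j : ℝ) ≤ ((min (s : ℝ≥0) (t : ℝ≥0) : ℝ≥0) : ℝ) * n := by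
              rw [hj]
              exact Nat.floor_le (by positivity)
            have h8 : ((min (s : ℝ≥0) (t : ℝ≥0) : ℝ≥0) : ℝ) * n < j + 1 := by
              rw [hj]
              exact Nat.lt_floor_add_one _
            rw [abs_le]
            constructor <;> linarith
          have h7 := abs_add_le (∑ p ∈ PP (bn j), vr b.H p - j) ((j : ℝ) - ((min (s : ℝ≥0) (t : ℝ≥0) : ℝ≥0) : ℝ) * n)
          rw [sub_add_sub_cancel] at h7
          nlinarith
        refine (sum_le_sum fun t _ => h3 t).trans ?_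
        rw [← mul_sum, ← sum_mul]
        refine mul_le_mul_of_nonneg_left (mul_le_mul_of_nonneg_right ?_ (by positivity)) (abs_nonneg _)
        rw [hR]
        linarith
      refine (sum_le_sum fun s _ => h2 s).trans ?_
      rw [← sum_mul, hc₃]
      have h3 : R ^ 2 * (B + B ^ 2 + 1) * (1 + Real.log n) = R * (R * ((B + B ^ 2 + 1) * (1 + Real.log n))) := by ring
      rw [h3]
      refine mul_le_mul_of_nonneg_right ?_ (by positivity)
      rw [hR]
      linarith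
    rw [← Complex.ofReal_exp, ← Complex.ofReal_exp, ← Complex.ofReal_sub, Complex.norm_real, Real.norm_eq_abs]
    refine (exp_sub_exp (by positivity) (by positivity)).trans ?_
    have h2 : u / n / 2 - q / 2 = (u - q * n) / (2 * n) := by
      field_simp
    rw [h2, abs_div, abs_of_pos (by linarith : 0 < 2 * (n : ℝ)), div_le_iff₀ (by linarith)]
    refine hclose.trans ?_
    have h3 : c₃ * ((1 + Real.log n) / D) * (2 * n) = (c₃ * (1 + Real.log n)) * (2 * D) := by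
      rw [← hDn]
      field_simp
    rw [h3]
    refine le_mul_of_one_le_right (by positivity) (by linarith)
  have hf : (R * B + c₃) * ((1 + Real.log n) / D) ≤ ε / 5 := by
    have h4 : 0 < R * B + c₃ := by positivity
    calc (R * B + c₃) * ((1 + Real.log n) / D) ≤ (R * B + c₃) * (ε / (5 * (R * B + c₃))) := mul_le_mul_of_nonneg_left f1 h4.le
      _ = ε / 5 := by field_simp
  have t1 := norm_sub_le_norm_sub_add_norm_sub (charFun (lw (fun t : kbox b.N b.L => b.vec I t) : Measure (EuclideanSpace ℝ I)) x)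
    (av (fun t : kbox b.N b.L => Complex.exp ((U t : ℂ) * Complex.I))) (charFun (nuE I : Measure (EuclideanSpace ℝ I)) x)
  have t2 := norm_sub_le_norm_sub_add_norm_sub (av (fun t : kbox b.N b.L => Complex.exp ((U t : ℂ) * Complex.I)))
    (Complex.exp ((-((∑ p ∈ PP (bn n), w p ^ 2 * vr b.H p) / n / 2) : ℝ) : ℂ)) (charFun (nuE I : Measure (EuclideanSpace ℝ I)) x)
  rw [add_mul] at hf
  linarith

open Classical in
/-- convergence to the finite-dimensional distributions of the Brownian motion -/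
theorem donsker (hB : 0 < B) (I : Finset ℝ≥0) (hI : ∀ s ∈ I, 0 < s ∧ s ≤ 1) (x : I → ℝ) (ε : ℝ) (hε : 0 < ε) :
    ∃ X₁ : ℕ, ∀ b : Dat2 κ B, X₁ ≤ b.m →
      |(((kbox b.N b.L).filter fun t => ∀ s : I, (∑ k ∈ range ⌊((s : ℝ≥0) : ℝ) * b.n⌋₊,
        b.H (Nat.nth Nat.Prime k) (fun i => (t i : ZMod _))) / Real.sqrt b.n ≤ x s).card : ℝ) / ∏ i, (b.L i : ℝ) - W I x| ≤ ε := by
  obtain ⟨X₁, h⟩ := levy (fun b : Dat2 κ B => b.m) (fun b => lw (fun t : kbox b.N b.L => b.vec I t)) (nuE I)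
    (fun y δ hδ => chr_dat2 hB I hI y δ hδ) (orth_frontier I (fun s hs => (hI s hs).1) x) hε
  refine ⟨X₁, fun b hb => ?_⟩
  have h1 := h b hb
  rw [lw_real _ (orth_closed I x).measurableSet, ← W_eq] at h1
  have h2 : ((univ.filter fun t : kbox b.N b.L => b.vec I t ∈ orth I x).card : ℝ) =
      (((kbox b.N b.L).filter fun t => ∀ s : I, (∑ k ∈ range ⌊((s : ℝ≥0) : ℝ) * b.n⌋₊,
        b.H (Nat.nth Nat.Prime k) (fun i => (t i : ZMod _))) / Real.sqrt b.n ≤ x s).card : ℝ) := by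
    congr 1
    refine card_bij (fun t _ => t.1) ?_ ?_ ?_
    · intro t ht
      rw [mem_filter] at ht ⊢
      exact ⟨t.2, ht.2⟩
    · intro t _ t' _ h3
      exact Subtype.ext h3
    · intro t ht
      rw [mem_filter] at ht
      refine ⟨⟨t, ht.1⟩, ?_, rfl⟩
      rw [mem_filter]
      exact ⟨mem_univ _, ht.2⟩
  have h3 : (Fintype.card (kbox b.N b.L) : ℝ) = ∏ i, (b.L i : ℝ) := by
    rw [Fintype.card_coe]
    unfold kbox
    rw [Fintype.card_piFinset]
    push_cast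
    refine prod_congr rfl fun i _ => ?_
    rw [Int.card_Ico, add_sub_cancel_left, Int.toNat_natCast]
  rw [h2, h3] at h1
  exact h1

end main

end Q282.CL
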