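import Pool.Agent.Q282.CL.Bx
import Pool.Agent.Q282.NF.LawNF

/-!
# The characteristic functions of the normalised sums over primes for boxes with sides at least `X⁵`
-/

set_option autoImplicit false

namespace Q282.CL

open Finset Filter
open Q282.BP (bx mem_bx card_bx PP loglog_tendsto)
open Q282.NF (rt le_rt)
open Pool.Agent.TH894.NE (box mem_box card_box Per mean mean_mul mean_mono mean_prod)

lemma rt_log (D : ℕ) (hD : 1 ≤ D) : ∀ᶠ X : ℕ in atTop, 3 ≤ rt D X ∧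
    Real.log (Real.log X) ≤ Real.log (2 * D) + Real.log (Real.log (rt D X)) := by
  filter_upwards [eventually_ge_atTop (16 ^ D)] with X h2
  have hD' : (1 : ℝ) ≤ D := by exact_mod_cast hD
  have h3 : 16 ≤ rt D X := (le_rt hD).2 h2
  refine ⟨by omega, ?_⟩
  obtain ⟨y, hy⟩ : ∃ y : ℕ, y = rt D X := ⟨_, rfl⟩
  rw [← hy] at h3 ⊢
  have hX16 : 16 ≤ X := (Nat.le_self_pow (by omega) 16).trans h2
  have h4 : X < (y + 1) ^ D := by
    by_contra hle
    push Not at hle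
    have := (le_rt hD).2 hle
    omega
  have h5 : (X : ℝ) ≤ ((y : ℝ) ^ 2) ^ D := by
    have h6 : X ≤ (y ^ 2) ^ D := by
      refine h4.le.trans (Nat.pow_le_pow_left ?_ D)
      nlinarith
    exact_mod_cast h6
  have hy16 : (16 : ℝ) ≤ y := by exact_mod_cast h3
  have hX0 : (16 : ℝ) ≤ X := by exact_mod_cast hX16
  have hlogX : 1 < Real.log X := by
    rw [Real.lt_log_iff_exp_lt (by linarith)]
    linarith [Real.exp_one_lt_three]
  have h6 : Real.log X ≤ 2 * D * Real.log y := by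
    have := Real.log_le_log (by linarith) h5
    rw [Real.log_pow, Real.log_pow] at this
    push_cast at this
    linarith
  have hlogy : 0 < Real.log y := Real.log_pos (by linarith)
  rw [← Real.log_mul (by positivity) hlogy.ne']
  exact Real.log_le_log (by linarith) h6

lemma rt_tendsto (D : ℕ) (hD : 1 ≤ D) : Tendsto (rt D) atTop atTop := by
  rw [tendsto_atTop]
  intro b
  filter_upwards [eventually_ge_atTop (b ^ D)] with X h
  exact (le_rt hD).2 h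

lemma exists_k (V ε : ℝ) (hV : 0 < V) (hε : 0 < ε) : ∃ k : ℕ, 1 ≤ k ∧ 4 * (Real.exp 1 * V / k) ^ k ≤ ε := by
  obtain ⟨n₀, hn₀⟩ := exists_pow_lt_of_lt_one (show (0 : ℝ) < ε / 4 by positivity) (show (1 / 2 : ℝ) < 1 by norm_num)
  obtain ⟨n₁, hn₁⟩ := exists_nat_ge (2 * (Real.exp 1 * V))
  obtain ⟨k, hk⟩ : ∃ k : ℕ, k = n₀ + n₁ + 1 := ⟨_, rfl⟩
  have hk0 : (0 : ℝ) < k := by
    rw [hk]
    positivity
  refine ⟨k, by omega, ?_⟩
  have he := Real.exp_pos 1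
  have h1 : Real.exp 1 * V / k ≤ 1 / 2 := by
    rw [div_le_iff₀ hk0]
    have : (n₁ : ℝ) ≤ k := by
      rw [hk]
      push_cast
      have : (0 : ℝ) ≤ n₀ := Nat.cast_nonneg _
      linarith
    linarith
  have h2 : (Real.exp 1 * V / k) ^ k ≤ (1 / 2) ^ k := pow_le_pow_left₀ (by positivity) h1 _
  have h3 : (1 / 2 : ℝ) ^ k ≤ (1 / 2) ^ n₀ := pow_le_pow_of_le_one (by norm_num) (by norm_num) (by omega)
  linarith

lemma exp_sub_le {x y : ℝ} (hx : 0 ≤ x) (hxy : x ≤ y) (hy : y ≤ 1) : Real.exp x - 1 ≤ 2 * y := by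
  have h9 := Real.abs_exp_sub_one_le (x := x) (by rw [abs_of_nonneg hx]; exact hxy.trans hy)
  rw [abs_of_nonneg hx] at h9
  have := (abs_le.1 h9).2
  linarith

lemma err_le {d k Y : ℕ} {C T : ℝ} (hk : 1 ≤ k) (hC : 1 ≤ C) (hY : 1 ≤ Y) (hd : d ≤ Y) (hT : (Y : ℝ) ^ (5 * k) ≤ T) :
    (2 * k + 1) * ((Y : ℝ) + 1) ^ (2 * k) * (C ^ (2 * k) * (Real.exp (d * (Y : ℝ) ^ (2 * k) / T) - 1)) ≤
      ((2 * k + 1) * 4 ^ k * C ^ (2 * k) * (2 * d)) / Y := by
  have hY0 : (1 : ℝ) ≤ Y := by exact_mod_cast hY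
  have hd' : (d : ℝ) ≤ Y := by exact_mod_cast hd
  have hT0 : 0 < T := lt_of_lt_of_le (by positivity) hT
  have h1 : (d : ℝ) * (Y : ℝ) ^ (2 * k) / T ≤ d / (Y : ℝ) ^ (3 * k) := by
    rw [div_le_div_iff₀ hT0 (by positivity)]
    calc (d : ℝ) * (Y : ℝ) ^ (2 * k) * (Y : ℝ) ^ (3 * k) = d * (Y : ℝ) ^ (5 * k) := by
          rw [show 5 * k = 2 * k + 3 * k by ring, pow_add]
          ring
      _ ≤ d * T := mul_le_mul_of_nonneg_left hT (Nat.cast_nonneg _)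
  have h2 : (d : ℝ) / (Y : ℝ) ^ (3 * k) ≤ 1 := by
    rw [div_le_one (by positivity)]
    exact hd'.trans (le_self_pow₀ hY0 (by omega))
  have h3 : Real.exp (d * (Y : ℝ) ^ (2 * k) / T) - 1 ≤ 2 * (d / (Y : ℝ) ^ (3 * k)) :=
    exp_sub_le (by positivity) h1 h2
  have h3' : 0 ≤ Real.exp (d * (Y : ℝ) ^ (2 * k) / T) - 1 := by
    have : 0 ≤ (d : ℝ) * (Y : ℝ) ^ (2 * k) / T := by positivity
    linarith [Real.one_le_exp this]
  have h4 : ((Y : ℝ) + 1) ^ (2 * k) ≤ 4 ^ k * (Y : ℝ) ^ (2 * k) := by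
    calc ((Y : ℝ) + 1) ^ (2 * k) ≤ (2 * Y) ^ (2 * k) := pow_le_pow_left₀ (by positivity) (by linarith) _
      _ = _ := by
        rw [mul_pow, pow_mul 2 2 k]
        norm_num
  calc (2 * k + 1) * ((Y : ℝ) + 1) ^ (2 * k) * (C ^ (2 * k) * (Real.exp (d * (Y : ℝ) ^ (2 * k) / T) - 1)) ≤
      (2 * k + 1) * (4 ^ k * (Y : ℝ) ^ (2 * k)) * (C ^ (2 * k) * (2 * (d / (Y : ℝ) ^ (3 * k)))) := by
        refine mul_le_mul (mul_le_mul_of_nonneg_left h4 (by positivity)) (mul_le_mul_of_nonneg_left h3 (by positivity))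
          (mul_nonneg (by positivity) h3') (by positivity)
    _ = ((2 * k + 1) * 4 ^ k * C ^ (2 * k) * (2 * d)) / (Y : ℝ) ^ k := by
        have : (Y : ℝ) ^ (3 * k) = (Y : ℝ) ^ (2 * k) * (Y : ℝ) ^ k := by rw [← pow_add]; congr 1; ring
        rw [this]
        have h5 : (Y : ℝ) ≠ 0 := by positivity
        field_simp
    _ ≤ _ := by
        refine div_le_div_of_nonneg_left (by positivity) (by positivity) (le_self_pow₀ hY0 (by omega))

lemma summ : ∃ C : ℝ, 0 < C ∧ ∀ S : Finset ℕ, (∀ p ∈ S, p.Prime) → ∑ p ∈ S, 1 / (Real.sqrt p) ^ 3 ≤ C := by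
  have h1 : Summable fun n : ℕ => ((n : ℝ) ^ (3 / 2 : ℝ))⁻¹ := Real.summable_nat_rpow_inv.2 (by norm_num)
  refine ⟨∑' n : ℕ, ((n : ℝ) ^ (3 / 2 : ℝ))⁻¹ + 1, by
    have : 0 ≤ ∑' n : ℕ, ((n : ℝ) ^ (3 / 2 : ℝ))⁻¹ := tsum_nonneg fun n => by positivity
    linarith, fun S hS => ?_⟩
  have h2 : ∑ p ∈ S, 1 / (Real.sqrt p) ^ 3 = ∑ p ∈ S, ((p : ℝ) ^ (3 / 2 : ℝ))⁻¹ := by
    refine sum_congr rfl fun p hp => ?_
    rw [one_div, Real.sqrt_eq_rpow, ← Real.rpow_natCast, ← Real.rpow_mul (Nat.cast_nonneg _)]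
    norm_num
  rw [h2]
  have h3 := h1.sum_le_tsum S fun n _ => by positivity
  linarith

/-- the law for the characteristic functions -/
theorem clt_chr (d : ℕ) (B ε : ℝ) (hB : 0 < B) (hε : 0 < ε) : ∃ X₁ : ℕ, 16 ≤ X₁ ∧ ∀ X : ℕ, X₁ ≤ X →
    ∀ L : Fin d → ℕ, (∀ i, (X : ℝ) ^ 5 ≤ L i) → ∀ g : ℕ → (Fin d → ℕ) → ℝ, (∀ p : ℕ, p.Prime → Per p (g p)) →
    (∀ p : ℕ, p.Prime → mean d p (g p) = 0) → (∀ p : ℕ, p.Prime → ∀ n, |g p n| ≤ B / Real.sqrt p) →
    ‖av (fun n : bx L => Complex.exp (((∑ p ∈ PP X, g p n) / Real.sqrt (Real.log (Real.log X)) : ℝ) * Complex.I)) -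
      Complex.exp ((-((∑ p ∈ PP X, mean d p (fun n => g p n ^ 2)) / (2 * Real.log (Real.log X))) : ℝ) : ℂ)‖ ≤ ε := by
  classical
  obtain ⟨M₀, hM₀⟩ := Pool.Agent.Erdos456.Mert.mertens_inv
  obtain ⟨M, hM, hM0⟩ : ∃ M : ℝ, (∀ N : ℕ, 3 ≤ N → |∑ p ∈ PP N, (1 : ℝ) / p - Real.log (Real.log N)| ≤ M) ∧ 0 ≤ M :=
    ⟨|M₀|, fun N hN => (hM₀ N hN).trans (le_abs_self _), abs_nonneg _⟩
  obtain ⟨C₀, hC₀, hsumm⟩ := summ
  obtain ⟨V, hV⟩ : ∃ V : ℝ, V = 2 * B ^ 2 := ⟨_, rfl⟩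
  have hV0 : 0 < V := by rw [hV]; positivity
  obtain ⟨k, hk1, hk⟩ := exists_k V (ε / 5) hV0 (by positivity)
  obtain ⟨C, hC⟩ : ∃ C : ℝ, C = max 1 B := ⟨_, rfl⟩
  have hC1 : 1 ≤ C := by rw [hC]; exact le_max_left _ _
  have hBC : B ≤ C := by rw [hC]; exact le_max_right _ _
  obtain ⟨Ck, hCk⟩ : ∃ Ck : ℝ, Ck = Real.log (2 * k) + 2 * M := ⟨_, rfl⟩
  have hk0 : (1 : ℝ) ≤ k := by exact_mod_cast hk1
  have hCk0 : 0 ≤ Ck := by
    have : 0 ≤ Real.log (2 * k) := Real.log_nonneg (by linarith)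
    rw [hCk]
    linarith
  obtain ⟨c₁, hc₁⟩ : ∃ c₁ : ℝ, c₁ = (2 * k + 1) * 4 ^ k * C ^ (2 * k) * (2 * d) := ⟨_, rfl⟩
  obtain ⟨c₂, hc₂⟩ : ∃ c₂ : ℝ, c₂ = Real.sqrt (B ^ 2 * Ck + 2 * C ^ 2) := ⟨_, rfl⟩
  have hsq : Tendsto (fun X : ℕ => Real.sqrt (Real.log (Real.log X))) atTop atTop := Real.tendsto_sqrt_atTop.comp loglog_tendsto
  have hrt := rt_tendsto k hk1
  have hrt' : Tendsto (fun X : ℕ => (rt k X : ℝ)) atTop atTop := tendsto_natCast_atTop_atTop.comp hrt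
  have e1 : ∀ᶠ X : ℕ in atTop, 5 * c₁ / ε + 1 ≤ (rt k X : ℝ) := hrt'.eventually_ge_atTop _
  have e2 : ∀ᶠ X : ℕ in atTop, M ≤ Real.log (Real.log X) := loglog_tendsto.eventually_ge_atTop _
  have e3 : ∀ᶠ X : ℕ in atTop, 5 * ((B ^ 3 + B ^ 4) * C₀) / ε + 1 ≤ Real.sqrt (Real.log (Real.log X)) := hsq.eventually_ge_atTop _
  have e4 : ∀ᶠ X : ℕ in atTop, 5 * c₂ / ε + 1 ≤ Real.sqrt (Real.log (Real.log X)) := hsq.eventually_ge_atTop _
  have e5 : ∀ᶠ X : ℕ in atTop, 5 * (B ^ 2 * Ck) / (2 * ε) + 1 ≤ Real.log (Real.log X) := loglog_tendsto.eventually_ge_atTop _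
  have e6 : ∀ᶠ X : ℕ in atTop, d ≤ rt k X := hrt.eventually_ge_atTop _
  obtain ⟨X₂, hX₂⟩ := eventually_atTop.1 (((rt_log k hk1).and (e1.and e2)).and ((e3.and e4).and (e5.and e6)))
  refine ⟨max 16 X₂, le_max_left _ _, ?_⟩
  intro X hX L hL g hg hg0 hgB
  have hX16 : 16 ≤ X := (le_max_left _ _).trans hX
  obtain ⟨⟨⟨f1, f2⟩, f3, f4⟩, ⟨f5, f6⟩, f7, f8⟩ := hX₂ X ((le_max_right _ _).trans hX)
  obtain ⟨Y, hY⟩ : ∃ Y : ℕ, Y = rt k X := ⟨_, rfl⟩
  obtain ⟨ll, hll⟩ : ∃ ll : ℝ, ll = Real.log (Real.log X) := ⟨_, rfl⟩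
  obtain ⟨D, hD⟩ : ∃ D : ℝ, D = Real.sqrt ll := ⟨_, rfl⟩
  rw [← hY] at f1 f2 f3 f8
  rw [← hll] at f2 f4 f7
  rw [← hll, ← hD] at f5 f6
  rw [← hll, ← hD]
  have hX0 : (16 : ℝ) ≤ X := by exact_mod_cast hX16
  have hD1 : 1 ≤ D := by
    have : 0 ≤ 5 * c₂ / ε := by
      rw [hc₂]
      positivity
    linarith
  have hll1 : 1 ≤ ll := by
    have : 0 ≤ 5 * (B ^ 2 * Ck) / (2 * ε) := by positivity
    linarith
  have hDll : D ^ 2 = ll := by rw [hD, Real.sq_sqrt (by linarith)]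
  have hYX : Y ^ k ≤ X := by
    rw [hY]
    exact (le_rt hk1).1 le_rfl
  have hYX' : Y ≤ X := (Nat.le_self_pow (by omega) Y).trans hYX
  have hT0 : (0 : ℝ) < (X : ℝ) ^ 5 := by positivity
  have hL0 : ∀ i, 0 < L i := fun i => by
    have : (0 : ℝ) < L i := hT0.trans_le (hL i)
    exact_mod_cast this
  have hne : Nonempty (bx L) := bx_nonempty hL0
  have hprime : ∀ {N p : ℕ}, p ∈ PP N → p.Prime := fun {N p} hp => (mem_filter.1 hp).2
  have hPPle : ∀ {N p : ℕ}, p ∈ PP N → p ≤ N := fun {N p} hp => (mem_Icc.1 (mem_filter.1 hp).1).2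
  have hsub : PP Y ⊆ PP X := by
    intro p hp
    rw [mem_filter, mem_Icc] at hp ⊢
    exact ⟨⟨hp.1.1, hp.1.2.trans hYX'⟩, hp.2⟩
  obtain ⟨W, hW⟩ : ∃ W : Finset ℕ, W = PP X \ PP Y := ⟨_, rfl⟩
  have hWP : ∀ p ∈ W, p.Prime ∧ p ≤ X := by
    intro p hp
    rw [hW, Finset.mem_sdiff] at hp
    exact ⟨hprime hp.1, hPPle hp.1⟩
  have hsplit : ∀ f : ℕ → ℝ, ∑ p ∈ PP X, f p = ∑ p ∈ W, f p + ∑ p ∈ PP Y, f p := by
    intro f
    rw [hW, sum_sdiff hsub]
  -- the reciprocals of the primes of W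
  have hWsum : ∑ p ∈ W, 1 / (p : ℝ) ≤ Ck := by
    have h1 := hsplit fun p => 1 / (p : ℝ)
    have h2 := (abs_le.1 (hM X (by omega))).2
    have h3 := (abs_le.1 (hM Y f1)).1
    rw [← hll] at h2
    rw [hCk]
    linarith
  have hsq0 : ∀ p : ℕ, p.Prime → 0 < Real.sqrt p := fun p hp => Real.sqrt_pos.2 (by exact_mod_cast hp.pos)
  have hbC : ∀ p : ℕ, p.Prime → B / Real.sqrt p ≤ C := by
    intro p hp
    refine (div_le_self hB.le ?_).trans hBC
    rw [Real.one_le_sqrt]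
    exact_mod_cast hp.one_lt.le
  -- the tail
  have htail : av (fun n : bx L => (∑ p ∈ W, g p n) ^ 2) ≤ B ^ 2 * Ck + 2 * C ^ 2 := by
    have h1 := sq_bx (g := g) (S := W) (fun p hp => (hWP p hp).1) (fun p hp => hg p (hWP p hp).1)
      (fun p hp => hg0 p (hWP p hp).1) (b := fun p => B / Real.sqrt p) (fun p hp => by positivity)
      (fun p hp n => hgB p (hWP p hp).1 n) hC1 (fun p hp => hbC p (hWP p hp).1) (fun p hp => (hWP p hp).2) hT0 hL
    refine h1.trans (add_le_add ?_ ?_)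
    · have h2 : ∑ p ∈ W, (B / Real.sqrt p) ^ 2 = B ^ 2 * ∑ p ∈ W, 1 / (p : ℝ) := by
        rw [mul_sum]
        refine sum_congr rfl fun p hp => ?_
        rw [div_pow, Real.sq_sqrt (Nat.cast_nonneg _)]
        ring
      rw [h2]
      exact mul_le_mul_of_nonneg_left hWsum (by positivity)
    · have hdX : (d : ℝ) ≤ X := by exact_mod_cast f8.trans hYX'
      have h3 : (d : ℝ) * (X : ℝ) ^ 2 / (X : ℝ) ^ 5 ≤ 1 / (X : ℝ) ^ 2 := by
        rw [div_le_div_iff₀ hT0 (by positivity)]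
        calc (d : ℝ) * (X : ℝ) ^ 2 * (X : ℝ) ^ 2 ≤ X * (X : ℝ) ^ 2 * (X : ℝ) ^ 2 := by
              have : 0 ≤ (X : ℝ) ^ 2 := by positivity
              nlinarith [mul_le_mul_of_nonneg_right hdX (by positivity : 0 ≤ (X : ℝ) ^ 2 * (X : ℝ) ^ 2)]
          _ = _ := by ring
      have h4 : (1 : ℝ) / (X : ℝ) ^ 2 ≤ 1 := by
        rw [div_le_one (by positivity)]
        nlinarith
      have h5 := exp_sub_le (x := (d : ℝ) * (X : ℝ) ^ 2 / (X : ℝ) ^ 5) (by positivity) h3 h4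
      calc (X : ℝ) ^ 2 * (C ^ 2 * (Real.exp (d * (X : ℝ) ^ 2 / (X : ℝ) ^ 5) - 1)) ≤ (X : ℝ) ^ 2 * (C ^ 2 * (2 * (1 / (X : ℝ) ^ 2))) :=
            mul_le_mul_of_nonneg_left (mul_le_mul_of_nonneg_left h5 (by positivity)) (by positivity)
        _ = 2 * C ^ 2 := by
          have : (X : ℝ) ≠ 0 := by positivity
          field_simp
  obtain ⟨φ, hφ⟩ : ∃ φ : ℂ, φ = av (fun n : bx L => Complex.exp (((∑ p ∈ PP X, g p n) / D : ℝ) * Complex.I)) := ⟨_, rfl⟩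
  obtain ⟨φ', hφ'⟩ : ∃ φ' : ℂ, φ' = av (fun n : bx L => Complex.exp (((∑ p ∈ PP Y, g p n / D : ℝ)) * Complex.I)) := ⟨_, rfl⟩
  have g1 : ‖φ - φ'‖ ≤ ε / 5 := by
    rw [hφ, hφ', ← av_sub]
    refine (norm_av_le _).trans ?_
    have h1 : ∀ n : bx L, ‖Complex.exp (((∑ p ∈ PP X, g p n) / D : ℝ) * Complex.I) -
        Complex.exp (((∑ p ∈ PP Y, g p n / D : ℝ)) * Complex.I)‖ ≤ D⁻¹ * |∑ p ∈ W, g p n| := by
      intro n
      obtain ⟨u, hu⟩ : ∃ u : ℝ, u = (∑ p ∈ PP Y, g p n / D : ℝ) := ⟨_, rfl⟩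
      obtain ⟨v, hv⟩ : ∃ v : ℝ, v = (∑ p ∈ W, g p n) / D := ⟨_, rfl⟩
      have h2 : (∑ p ∈ PP X, g p n) / D = v + u := by
        rw [hsplit (fun p => g p n), add_div, hv, hu, sum_div (PP Y)]
      rw [h2, ← hu]
      have h3 : Complex.exp (((v + u : ℝ) : ℂ) * Complex.I) - Complex.exp ((u : ℂ) * Complex.I) =
          Complex.exp ((u : ℂ) * Complex.I) * (Complex.exp ((v : ℂ) * Complex.I) - 1) := by
        push_cast
        rw [add_mul, Complex.exp_add]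
        ring
      rw [h3, norm_mul, Complex.norm_exp_ofReal_mul_I, one_mul]
      have h4 := taylor v 1
      rw [sum_range_one, pow_zero, Nat.factorial_zero, Nat.factorial_one, Nat.cast_one, Nat.cast_one, div_one, div_one,
        pow_one] at h4
      refine h4.trans (le_of_eq ?_)
      rw [hv, abs_div, abs_of_pos (by linarith : 0 < D)]
      ring
    refine (av_mono h1).trans ?_
    rw [av_mul]
    have h2 : av (fun n : bx L => |∑ p ∈ W, g p n|) ≤ c₂ := by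
      rw [hc₂]
      refine Real.le_sqrt_of_sq_le (le_trans ?_ htail)
      have h3 : av (fun n : bx L => |∑ p ∈ W, g p n|) ^ 2 ≤ av (fun n : bx L => |∑ p ∈ W, g p n| ^ 2) := by
        obtain ⟨m, hm⟩ : ∃ m : ℝ, m = av (fun n : bx L => |∑ p ∈ W, g p n|) := ⟨_, rfl⟩
        have h4 : 0 ≤ av (fun n : bx L => (|∑ p ∈ W, g p n| - m) ^ 2) := av_nonneg fun n => sq_nonneg _
        have h5 : (fun n : bx L => (|∑ p ∈ W, g p n| - m) ^ 2) =
            fun n : bx L => |∑ p ∈ W, g p n| ^ 2 - ((2 * m) * |∑ p ∈ W, g p n| - m ^ 2) := by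
          funext n
          ring
        rw [h5, av_sub, av_sub, av_mul, av_const, ← hm] at h4
        rw [← hm]
        nlinarith
      simpa only [sq_abs] using h3
    calc D⁻¹ * av (fun n : bx L => |∑ p ∈ W, g p n|) ≤ D⁻¹ * c₂ := mul_le_mul_of_nonneg_left h2 (by positivity)
      _ ≤ ε / 5 := by
        rw [inv_mul_le_iff₀ (by linarith)]
        have h3 : 5 * c₂ / ε ≤ D := by linarith
        rw [div_le_iff₀ hε] at h3
        linarith
  obtain ⟨s, hs⟩ : ∃ s : ℝ, s = ∑ p ∈ PP X, mean d p (fun n => g p n ^ 2) := ⟨_, rfl⟩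
  obtain ⟨s', hs'⟩ : ∃ s' : ℝ, s' = ∑ p ∈ PP Y, mean d p (fun n => g p n ^ 2) := ⟨_, rfl⟩
  have hv0 : ∀ p : ℕ, p.Prime → 0 ≤ mean d p (fun n => g p n ^ 2) ∧ mean d p (fun n => g p n ^ 2) ≤ B ^ 2 * (1 / p) := by
    intro p hp
    have : Nonempty (box d p) := ⟨⟨fun _ => 0, mem_box.2 fun _ => hp.pos⟩⟩
    rw [← av_box (fun n => g p n ^ 2)]
    refine ⟨av_nonneg fun n => sq_nonneg _, ?_⟩
    refine (av_mono (g := fun _ => B ^ 2 * (1 / (p : ℝ))) fun n => ?_).trans (le_of_eq (av_const _))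
    calc g p n ^ 2 = |g p n| ^ 2 := (sq_abs _).symm
      _ ≤ (B / Real.sqrt p) ^ 2 := pow_le_pow_left₀ (abs_nonneg _) (hgB p hp n) 2
      _ = B ^ 2 * (1 / p) := by
        rw [div_pow, Real.sq_sqrt (Nat.cast_nonneg _)]
        ring
  have g2 : ‖φ' - Complex.exp ((-(s' / ll / 2) : ℝ) : ℂ)‖ ≤ ε / 5 + ε / 5 + ε / 5 := by
    have hb : ∀ p : ℕ, p.Prime → ∀ n, |g p n / D| ≤ B / Real.sqrt p / D := by
      intro p hp n
      rw [abs_div, abs_of_pos (by linarith : 0 < D)]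
      exact div_le_div_of_nonneg_right (hgB p hp n) (by linarith)
    have h1 := chr_bx (d := d) (g := fun p n => g p n / D) (S := PP Y) (fun p hp => hprime hp)
      (fun p hp n => by
        show g p n / D = g p (fun i => n i % p) / D
        rw [← hg p (hprime hp) n])
      (fun p hp => by
        have h2 : (fun n => g p n / D) = fun n => D⁻¹ * g p n := by
          funext n
          rw [div_eq_inv_mul]
        rw [h2, mean_mul, hg0 p (hprime hp), mul_zero])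
      (b := fun p => B / Real.sqrt p / D) (fun p _ => by positivity) (fun p hp n => hb p (hprime hp) n) hC1
      (fun p hp => (div_le_self (by positivity) hD1).trans (hbC p (hprime hp)))
      (Y := Y) (by omega) (fun p hp => hPPle hp) hV0 (by
        have h2 : ∑ p ∈ PP Y, (B / Real.sqrt p / D) ^ 2 = B ^ 2 / ll * ∑ p ∈ PP Y, 1 / (p : ℝ) := by
          rw [mul_sum]
          refine sum_congr rfl fun p hp => ?_
          rw [div_pow, div_pow, Real.sq_sqrt (Nat.cast_nonneg _), hDll]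
          have : (p : ℝ) ≠ 0 := by exact_mod_cast (hprime hp).ne_zero
          field_simp
        rw [h2]
        have h3 : ∑ p ∈ PP Y, 1 / (p : ℝ) ≤ 2 * ll := by
          have h4 := hsplit fun p => 1 / (p : ℝ)
          have h5 := (abs_le.1 (hM X (by omega))).2
          rw [← hll] at h5
          have h6 : 0 ≤ ∑ p ∈ W, 1 / (p : ℝ) := sum_nonneg fun p _ => by positivity
          linarith
        calc B ^ 2 / ll * ∑ p ∈ PP Y, 1 / (p : ℝ) ≤ B ^ 2 / ll * (2 * ll) := mul_le_mul_of_nonneg_left h3 (by positivity)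
          _ = V := by
            rw [hV]
            field_simp)
      hk1 (T := (X : ℝ) ^ 5) hT0 hL
    have h2 : ∑ p ∈ PP Y, mean d p (fun n => (g p n / D) ^ 2) = s' / ll := by
      rw [hs', sum_div]
      refine sum_congr rfl fun p _ => ?_
      have h3 : (fun n => (g p n / D) ^ 2) = fun n => ll⁻¹ * g p n ^ 2 := by
        funext n
        rw [div_pow, hDll, div_eq_inv_mul]
      rw [h3, mean_mul, div_eq_inv_mul]
    rw [h2, ← hφ'] at h1
    refine h1.trans (add_le_add (add_le_add hk ?_) ?_)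
    · refine (err_le hk1 hC1 (by omega) f8 (by
        have h3 : (Y : ℝ) ^ k ≤ X := by exact_mod_cast hYX
        calc (Y : ℝ) ^ (5 * k) = ((Y : ℝ) ^ k) ^ 5 := by rw [← pow_mul, mul_comm]
          _ ≤ (X : ℝ) ^ 5 := pow_le_pow_left₀ (by positivity) h3 5)).trans ?_
      rw [← hc₁]
      have hY0 : (0 : ℝ) < Y := by
        have : 0 < Y := by omega
        exact_mod_cast this
      rw [div_le_iff₀ hY0]
      have h3 : 5 * c₁ / ε ≤ Y := by linarith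
      rw [div_le_iff₀ hε] at h3
      linarith
    · have h3 : ∀ p ∈ PP Y, (B / Real.sqrt p / D) ^ 3 + (B / Real.sqrt p / D) ^ 4 ≤ (B ^ 3 + B ^ 4) / D * (1 / (Real.sqrt p) ^ 3) := by
        intro p hp
        have hp1 : 1 ≤ Real.sqrt p := by
          rw [Real.one_le_sqrt]
          exact_mod_cast (hprime hp).one_lt.le
        have hp0 : 0 < Real.sqrt p := by linarith
        have h4 : (B / Real.sqrt p / D) ^ 3 ≤ B ^ 3 / D * (1 / (Real.sqrt p) ^ 3) := by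
          rw [div_pow, div_pow]
          have : B ^ 3 / D * (1 / Real.sqrt p ^ 3) = B ^ 3 / Real.sqrt p ^ 3 / D := by ring
          rw [this]
          exact div_le_div_of_nonneg_left (by positivity) (by linarith) (le_self_pow₀ hD1 (by norm_num))
        have h5 : (B / Real.sqrt p / D) ^ 4 ≤ B ^ 4 / D * (1 / (Real.sqrt p) ^ 3) := by
          rw [div_pow, div_pow]
          have : B ^ 4 / D * (1 / Real.sqrt p ^ 3) = B ^ 4 / Real.sqrt p ^ 3 / D := by ring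
          rw [this]
          refine div_le_div₀ (by positivity) ?_ (by linarith) (le_self_pow₀ hD1 (by norm_num))
          exact div_le_div_of_nonneg_left (by positivity) (by positivity) (pow_le_pow_right₀ hp1 (by norm_num))
        calc _ ≤ B ^ 3 / D * (1 / (Real.sqrt p) ^ 3) + B ^ 4 / D * (1 / (Real.sqrt p) ^ 3) := add_le_add h4 h5
          _ = _ := by ring
      refine (sum_le_sum h3).trans ?_
      rw [← mul_sum]
      have h4 := hsumm (PP Y) fun p hp => hprime hp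
      calc (B ^ 3 + B ^ 4) / D * ∑ p ∈ PP Y, 1 / (Real.sqrt p) ^ 3 ≤ (B ^ 3 + B ^ 4) / D * C₀ :=
            mul_le_mul_of_nonneg_left h4 (by positivity)
        _ = (B ^ 3 + B ^ 4) * C₀ / D := by ring
        _ ≤ ε / 5 := by
          rw [div_le_iff₀ (by linarith)]
          have h5 : 5 * ((B ^ 3 + B ^ 4) * C₀) / ε ≤ D := by linarith
          rw [div_le_iff₀ hε] at h5
          linarith
  have g3 : ‖Complex.exp ((-(s' / ll / 2) : ℝ) : ℂ) - Complex.exp ((-(s / (2 * ll)) : ℝ) : ℂ)‖ ≤ ε / 5 := by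
    rw [← Complex.ofReal_exp, ← Complex.ofReal_exp, ← Complex.ofReal_sub, Complex.norm_real, Real.norm_eq_abs]
    have h1 : s = ∑ p ∈ W, mean d p (fun n => g p n ^ 2) + s' := by
      rw [hs, hs']
      exact hsplit _
    have h2 : 0 ≤ ∑ p ∈ W, mean d p (fun n => g p n ^ 2) := sum_nonneg fun p hp => (hv0 p (hWP p hp).1).1
    have h3 : ∑ p ∈ W, mean d p (fun n => g p n ^ 2) ≤ B ^ 2 * Ck := by
      calc ∑ p ∈ W, mean d p (fun n => g p n ^ 2) ≤ ∑ p ∈ W, B ^ 2 * (1 / (p : ℝ)) :=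
            sum_le_sum fun p hp => (hv0 p (hWP p hp).1).2
        _ = B ^ 2 * ∑ p ∈ W, 1 / (p : ℝ) := by rw [mul_sum]
        _ ≤ B ^ 2 * Ck := mul_le_mul_of_nonneg_left hWsum (by positivity)
    have hs'0 : 0 ≤ s' := by
      rw [hs']
      exact sum_nonneg fun p hp => (hv0 p (hprime hp)).1
    obtain ⟨u, hu⟩ : ∃ u : ℝ, u = s' / ll / 2 := ⟨_, rfl⟩
    obtain ⟨v, hv⟩ : ∃ v : ℝ, v = (∑ p ∈ W, mean d p (fun n => g p n ^ 2)) / (2 * ll) := ⟨_, rfl⟩
    have hu0 : 0 ≤ u := by rw [hu]; positivity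
    have hv0' : 0 ≤ v := by rw [hv]; positivity
    have h4 : s / (2 * ll) = u + v := by
      rw [h1, hu, hv]
      field_simp
      ring
    rw [h4, ← hu]
    have h5 : Real.exp (-u) - Real.exp (-(u + v)) = Real.exp (-u) * (1 - Real.exp (-v)) := by
      rw [neg_add, Real.exp_add]
      ring
    have h6 : Real.exp (-u) ≤ 1 := Real.exp_le_one_iff.2 (by linarith)
    have h7 : 1 - Real.exp (-v) ≤ v := by
      have := Real.add_one_le_exp (-v)
      linarith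
    have h8 : 0 ≤ 1 - Real.exp (-v) := by
      have : Real.exp (-v) ≤ 1 := Real.exp_le_one_iff.2 (by linarith)
      linarith
    rw [h5, abs_of_nonneg (mul_nonneg (Real.exp_pos _).le h8)]
    calc Real.exp (-u) * (1 - Real.exp (-v)) ≤ 1 * v := mul_le_mul h6 h7 h8 zero_le_one
      _ = v := one_mul _
      _ ≤ B ^ 2 * Ck / (2 * ll) := by
        rw [hv]
        exact div_le_div_of_nonneg_right h3 (by linarith)
      _ ≤ ε / 5 := by
        rw [div_le_iff₀ (by linarith)]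
        have h9 : 5 * (B ^ 2 * Ck) / (2 * ε) ≤ ll := by linarith
        rw [div_le_iff₀ (by positivity)] at h9
        linarith
  rw [← hφ, ← hs]
  have t1 := norm_sub_le_norm_sub_add_norm_sub φ φ' (Complex.exp ((-(s / (2 * ll)) : ℝ) : ℂ))
  have t2 := norm_sub_le_norm_sub_add_norm_sub φ' (Complex.exp ((-(s' / ll / 2) : ℝ) : ℂ)) (Complex.exp ((-(s / (2 * ll)) : ℝ) : ℂ))
  linarith

end Q282.CL
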